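import Pool.Agent.Helper20_Rig.Reduce

/-!
# Congruent bodies, infinitesimal motions and perturbations of pairs of frameworks
-/

set_option autoImplicit false
set_option linter.unusedSectionVars false

open Complex Filter Topology

namespace Pool.Agent.Helper20_Rig

variable {V : Type*} [DecidableEq V]

/-- The real inner product of two complex numbers. -/
def ip (a b : ℂ) : ℝ := a.re * b.re + a.im * b.im

/-- `q` restricted to `S` is the image of `p` under a direct isometry. -/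
def BodyRel (p q : V → ℂ) (S : Finset V) : Prop :=
  ∃ u : ℂ, ‖u‖ = 1 ∧ ∀ a ∈ S, ∀ b ∈ S, q a - q b = u * (p a - p b)

/-- `δ` restricted to `S` is an infinitesimal isometry of `q`. -/
def BodyInf (q δ : V → ℂ) (S : Finset V) : Prop :=
  ∃ ω : ℝ, ∀ a ∈ S, ∀ b ∈ S, δ a - δ b = (ω * I) * (q a - q b)

/-- Infinitesimal rigidity with `R` pinned. -/
def Reg (R W : Finset V) (F : Multiset (Finset V)) (q : V → ℂ) : Prop :=
  ∀ δ : V → ℂ, (∀ x ∈ R, δ x = 0) → (∀ S ∈ F, BodyInf q δ S) → ∀ x ∈ W, δ x = 0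

/-- All bodies are nondegenerate. -/
def ND (F : Multiset (Finset V)) (q : V → ℂ) : Prop := ∀ S ∈ F, ∃ a ∈ S, ∃ b ∈ S, q a ≠ q b

lemma ip_self (a : ℂ) : ip a a = normSq a := by rw [normSq_apply]; rfl

lemma exists_omega {z d : ℂ} (hz : z ≠ 0) (h : ip z d = 0) : ∃ ω : ℝ, d = (ω * I) * z := by
  have h1 : normSq z ≠ 0 := by rwa [Ne, normSq_eq_zero]
  have hn : z.re * z.re + z.im * z.im ≠ 0 := by rwa [← normSq_apply]
  unfold ip at h
  obtain ⟨ω, hω⟩ : ∃ ω : ℝ, ω * (z.re * z.re + z.im * z.im) = z.re * d.im - z.im * d.re :=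
    ⟨_, div_mul_cancel₀ _ hn⟩
  refine ⟨ω, ?_⟩
  have e1 : ((ω * I) * z).re = -(ω * z.im) := by simp
  have e2 : ((ω * I) * z).im = ω * z.re := by simp
  apply Complex.ext
  · apply mul_right_cancel₀ hn
    rw [e1]
    linear_combination z.re * h + z.im * hω
  · apply mul_right_cancel₀ hn
    rw [e2]
    linear_combination z.im * h - z.re * hω

lemma ip_omega (z : ℂ) (ω : ℝ) : ip z ((ω * I) * z) = 0 := by
  unfold ip
  simp
  ring

lemma BodyInf.ip_eq {q δ : V → ℂ} {S : Finset V} (h : BodyInf q δ S) {a b : V} (ha : a ∈ S)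
    (hb : b ∈ S) : ip (q a - q b) (δ a - δ b) = 0 := by
  obtain ⟨ω, hω⟩ := h
  rw [hω a ha b hb]
  exact ip_omega _ _

lemma BodyInf.closed {q δ : V → ℂ} {S : Finset V} (h : BodyInf q δ S) :
    (∀ a ∈ S, ∀ b ∈ S, ip (q a - q b) (δ a - δ b) = 0) ∧
    (∀ a ∈ S, ∀ b ∈ S, ∀ c ∈ S, (δ a - δ b) * (q c - q b) = (δ c - δ b) * (q a - q b)) := by
  refine ⟨fun a ha b hb => h.ip_eq ha hb, ?_⟩
  obtain ⟨ω, hω⟩ := h
  intro a ha b hb c hc
  rw [hω a ha b hb, hω c hc b hb]
  ring

lemma bodyInf_of_base {q δ : V → ℂ} {S : Finset V} {b c : V} (hne : q c ≠ q b)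
    (h1 : ip (q c - q b) (δ c - δ b) = 0)
    (h2 : ∀ a ∈ S, (δ a - δ b) * (q c - q b) = (δ c - δ b) * (q a - q b)) : BodyInf q δ S := by
  obtain ⟨ω, hω⟩ := exists_omega (sub_ne_zero.2 hne) h1
  have key : ∀ a ∈ S, δ a - δ b = (ω * I) * (q a - q b) := by
    intro a ha
    have h3 := h2 a ha
    rw [hω] at h3
    have h4 : (δ a - δ b - (ω * I) * (q a - q b)) * (q c - q b) = 0 := by linear_combination h3
    rcases mul_eq_zero.1 h4 with h5 | h5
    · exact sub_eq_zero.1 h5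
    · exact absurd h5 (sub_ne_zero.2 hne)
  refine ⟨ω, fun a ha a' ha' => ?_⟩
  linear_combination key a ha - key a' ha'

lemma bodyInf_of_closed {q δ : V → ℂ} {S : Finset V} (hnd : ∃ a ∈ S, ∃ b ∈ S, q a ≠ q b)
    (h1 : ∀ a ∈ S, ∀ b ∈ S, ip (q a - q b) (δ a - δ b) = 0)
    (h2 : ∀ a ∈ S, ∀ b ∈ S, ∀ c ∈ S, (δ a - δ b) * (q c - q b) = (δ c - δ b) * (q a - q b)) :
    BodyInf q δ S := by
  obtain ⟨c, hc, b, hb, hne⟩ := hnd
  exact bodyInf_of_base hne (h1 c hc b hb) (fun a ha => h2 a ha b hb c hc)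

lemma BodyInf.smul {q δ : V → ℂ} {S : Finset V} (h : BodyInf q δ S) (c : ℝ) :
    BodyInf q (fun x => (c : ℂ) * δ x) S := by
  obtain ⟨ω, hω⟩ := h
  refine ⟨c * ω, fun a ha b hb => ?_⟩
  push_cast
  linear_combination (c : ℂ) * hω a ha b hb

lemma BodyInf.add {q δ δ' : V → ℂ} {S : Finset V} (h : BodyInf q δ S) (h' : BodyInf q δ' S) :
    BodyInf q (fun x => δ x + δ' x) S := by
  obtain ⟨ω, hω⟩ := h
  obtain ⟨ω', hω'⟩ := h'
  refine ⟨ω + ω', fun a ha b hb => ?_⟩
  push_cast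
  linear_combination hω a ha b hb + hω' a ha b hb

lemma BodyInf.mono {q δ : V → ℂ} {S S' : Finset V} (h : BodyInf q δ S) (hS : S' ⊆ S) :
    BodyInf q δ S' := by
  obtain ⟨ω, hω⟩ := h
  exact ⟨ω, fun a ha b hb => hω a (hS ha) b (hS hb)⟩

lemma BodyInf.congr {q q' δ δ' : V → ℂ} {S : Finset V} (h : BodyInf q δ S)
    (hq : ∀ x ∈ S, q' x = q x) (hδ : ∀ x ∈ S, δ' x = δ x) : BodyInf q' δ' S := by
  obtain ⟨ω, hω⟩ := h
  refine ⟨ω, fun a ha b hb => ?_⟩
  rw [hq a ha, hq b hb, hδ a ha, hδ b hb]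
  exact hω a ha b hb

lemma BodyRel.congr {p q p' q' : V → ℂ} {S : Finset V} (h : BodyRel p q S)
    (hp : ∀ x ∈ S, p' x = p x) (hq : ∀ x ∈ S, q' x = q x) : BodyRel p' q' S := by
  obtain ⟨u, hu, hω⟩ := h
  refine ⟨u, hu, fun a ha b hb => ?_⟩
  rw [hp a ha, hp b hb, hq a ha, hq b hb]
  exact hω a ha b hb

lemma BodyRel.symm {p q : V → ℂ} {S : Finset V} (h : BodyRel p q S) : BodyRel q p S := by
  obtain ⟨u, hu, hω⟩ := h
  have hu0 : u ≠ 0 := by
    rintro rfl
    simp at hu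
  refine ⟨u⁻¹, by rw [norm_inv, hu, inv_one], fun a ha b hb => ?_⟩
  rw [hω a ha b hb]
  field_simp

lemma BodyRel.mono {p q : V → ℂ} {S S' : Finset V} (h : BodyRel p q S) (hS : S' ⊆ S) :
    BodyRel p q S' := by
  obtain ⟨u, hu, hω⟩ := h
  exact ⟨u, hu, fun a ha b hb => hω a (hS ha) b (hS hb)⟩

lemma BodyRel.ne_iff {p q : V → ℂ} {S : Finset V} (h : BodyRel p q S) {a b : V} (ha : a ∈ S)
    (hb : b ∈ S) : q a ≠ q b ↔ p a ≠ p b := by
  obtain ⟨u, hu, hω⟩ := h
  have hu0 : u ≠ 0 := by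
    rintro rfl
    simp at hu
  rw [← sub_ne_zero, hω a ha b hb, mul_ne_zero_iff, sub_ne_zero]
  exact ⟨fun h => h.2, fun h => ⟨hu0, h⟩⟩

lemma ND.transfer {F : Multiset (Finset V)} {p q : V → ℂ} (h : ND F q)
    (hc : ∀ S ∈ F, BodyRel p q S) : ND F p := by
  intro S hS
  obtain ⟨a, ha, b, hb, hne⟩ := h S hS
  exact ⟨a, ha, b, hb, ((hc S hS).ne_iff ha hb).1 hne⟩

lemma bodyRel_of_base {p q : V → ℂ} {S : Finset V} {b c : V} (hne : p c ≠ p b)
    (h1 : normSq (q c - q b) = normSq (p c - p b))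
    (h2 : ∀ a ∈ S, (q a - q b) * (p c - p b) = (q c - q b) * (p a - p b)) : BodyRel p q S := by
  have hp0 : p c - p b ≠ 0 := sub_ne_zero.2 hne
  have hu : ‖(q c - q b) / (p c - p b)‖ = 1 := by
    rw [norm_div]
    have h3 : ‖q c - q b‖ = ‖p c - p b‖ := by
      rw [← sq_eq_sq₀ (norm_nonneg _) (norm_nonneg _), ← normSq_eq_norm_sq, ← normSq_eq_norm_sq, h1]
    rw [h3]
    exact div_self (norm_ne_zero_iff.2 hp0)
  have key : ∀ a ∈ S, q a - q b = (q c - q b) / (p c - p b) * (p a - p b) := by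
    intro a ha
    rw [div_mul_eq_mul_div, eq_div_iff hp0]
    exact h2 a ha
  refine ⟨_, hu, fun a ha a' ha' => ?_⟩
  linear_combination key a ha - key a' ha'

lemma BodyRel.normSq_eq {p q : V → ℂ} {S : Finset V} (h : BodyRel p q S) {a b : V} (ha : a ∈ S)
    (hb : b ∈ S) : normSq (q a - q b) = normSq (p a - p b) := by
  obtain ⟨u, hu, hω⟩ := h
  rw [hω a ha b hb, normSq_mul, normSq_eq_norm_sq u, hu]
  ring

lemma bodyRel_pair {p q : V → ℂ} {a b : V} (hne : p a ≠ p b)
    (h1 : normSq (q a - q b) = normSq (p a - p b)) : BodyRel p q {a, b} := by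
  apply bodyRel_of_base (b := b) (c := a) hne h1
  intro x hx
  simp only [Finset.mem_insert, Finset.mem_singleton] at hx
  rcases hx with rfl | rfl
  · rfl
  · ring

lemma bodyInf_pair {q δ : V → ℂ} {a b : V} (hne : q a ≠ q b)
    (h1 : ip (q a - q b) (δ a - δ b) = 0) : BodyInf q δ {a, b} := by
  apply bodyInf_of_base (b := b) (c := a) hne h1
  intro x hx
  simp only [Finset.mem_insert, Finset.mem_singleton] at hx
  rcases hx with rfl | rfl
  · rfl
  · ring

/-! ### Openness of regularity -/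

lemma eventually_injective {X E : Type*} [TopologicalSpace X] [NormedAddCommGroup E]
    [NormedSpace ℝ E] [FiniteDimensional ℝ E] (x0 : X) (P : X → E → Prop)
    (hclosed : IsClosed {z : X × E | P z.1 z.2}) (hhom : ∀ x v (c : ℝ), P x v → P x (c • v))
    (h0 : ∀ v, P x0 v → v = 0) : ∀ᶠ x in 𝓝 x0, ∀ v, P x v → v = 0 := by
  have hK : IsCompact (Metric.sphere (0 : E) 1) := by
    have : ProperSpace E := FiniteDimensional.proper_real E
    exact isCompact_sphere 0 1
  have h1 : ∀ᶠ x in 𝓝 x0, ∀ v ∈ Metric.sphere (0 : E) 1, ¬ P x v := by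
    apply hK.eventually_forall_of_forall_eventually
    intro v hv
    have hv0 : ¬ P x0 v := by
      intro hP
      have := h0 v hP
      rw [this, mem_sphere_zero_iff_norm, norm_zero] at hv
      exact zero_ne_one hv
    exact hclosed.isOpen_compl.mem_nhds hv0
  filter_upwards [h1] with x hx v hv
  by_contra hne
  apply hx (‖v‖⁻¹ • v) _ (hhom x v _ hv)
  rw [mem_sphere_zero_iff_norm, norm_smul, norm_inv, norm_norm]
  exact inv_mul_cancel₀ (norm_ne_zero_iff.2 hne)

lemma continuous_ip {X : Type*} [TopologicalSpace X] {f h : X → ℂ} (hf : Continuous f)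
    (hh : Continuous h) : Continuous fun x => ip (f x) (h x) := by
  unfold ip
  exact ((Complex.continuous_re.comp hf).mul (Complex.continuous_re.comp hh)).add
    ((Complex.continuous_im.comp hf).mul (Complex.continuous_im.comp hh))

lemma nd_open {F : Multiset (Finset V)} {q0 : V → ℂ} (h : ND F q0) : ∀ᶠ q in 𝓝 q0, ND F q := by
  have h1 : ∀ S ∈ F.toFinset, ∀ᶠ q in 𝓝 q0, ∃ a ∈ S, ∃ b ∈ S, q a ≠ q b := by
    intro S hS
    obtain ⟨a, ha, b, hb, hne⟩ := h S (Multiset.mem_toFinset.1 hS)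
    have : ∀ᶠ q : V → ℂ in 𝓝 q0, q a ≠ q b :=
      (isOpen_ne_fun (continuous_apply a) (continuous_apply b)).mem_nhds hne
    filter_upwards [this] with q hq
    exact ⟨a, ha, b, hb, hq⟩
  have h2 := (Filter.eventually_all_finset F.toFinset).2 h1
  filter_upwards [h2] with q hq S hS
  exact hq S (Multiset.mem_toFinset.2 hS)

lemma reg_open [Fintype V] {R W : Finset V} {F : Multiset (Finset V)} (hTS : ∀ S ∈ F, S ⊆ R ∪ W)
    {q0 : V → ℂ} (hreg : Reg R W F q0) (hnd : ND F q0) : ∀ᶠ q in 𝓝 q0, Reg R W F q := by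
  let P : (V → ℂ) → (V → ℂ) → Prop := fun q δ =>
    (∀ x ∈ R, δ x = 0) ∧ (∀ x ∉ R ∪ W, δ x = 0) ∧ ∀ S ∈ F,
      (∀ a ∈ S, ∀ b ∈ S, ip (q a - q b) (δ a - δ b) = 0) ∧
      (∀ a ∈ S, ∀ b ∈ S, ∀ c ∈ S, (δ a - δ b) * (q c - q b) = (δ c - δ b) * (q a - q b))
  have hclosed : IsClosed {z : (V → ℂ) × (V → ℂ) | P z.1 z.2} := by
    have e1 : ∀ a : V, Continuous fun z : (V → ℂ) × (V → ℂ) => z.1 a := fun a =>
      (continuous_apply a).comp continuous_fst
    have e2 : ∀ a : V, Continuous fun z : (V → ℂ) × (V → ℂ) => z.2 a := fun a =>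
      (continuous_apply a).comp continuous_snd
    simp only [P, Set.ofPred_and, Set.ofPred_forall]
    refine IsClosed.inter ?_ (IsClosed.inter ?_ ?_)
    · exact isClosed_iInter fun x => isClosed_iInter fun _ => isClosed_eq (e2 x) continuous_const
    · exact isClosed_iInter fun x => isClosed_iInter fun _ => isClosed_eq (e2 x) continuous_const
    · refine isClosed_iInter fun S => isClosed_iInter fun _ => IsClosed.inter ?_ ?_
      · refine isClosed_iInter fun a => isClosed_iInter fun _ => isClosed_iInter fun b =>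
          isClosed_iInter fun _ => isClosed_eq (continuous_ip ((e1 a).sub (e1 b))
          ((e2 a).sub (e2 b))) continuous_const
      · refine isClosed_iInter fun a => isClosed_iInter fun _ => isClosed_iInter fun b =>
          isClosed_iInter fun _ => isClosed_iInter fun c => isClosed_iInter fun _ =>
          isClosed_eq (((e2 a).sub (e2 b)).mul ((e1 c).sub (e1 b)))
          (((e2 c).sub (e2 b)).mul ((e1 a).sub (e1 b)))
  have hhom : ∀ x v (c : ℝ), P x v → P x (c • v) := by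
    rintro q δ c ⟨h1, h2, h3⟩
    refine ⟨fun x hx => ?_, fun x hx => ?_, fun S hS => ⟨fun a ha b hb => ?_,
      fun a ha b hb d hd => ?_⟩⟩
    · rw [Pi.smul_apply, h1 x hx, smul_zero]
    · rw [Pi.smul_apply, h2 x hx, smul_zero]
    · have := (h3 S hS).1 a ha b hb
      unfold ip at this ⊢
      simp only [Pi.smul_apply, real_smul, sub_re, mul_re, ofReal_re, ofReal_im, zero_mul, sub_zero,
        sub_im, mul_im, add_zero] at this ⊢
      linear_combination c * this
    · have := (h3 S hS).2 a ha b hb d hd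
      simp only [Pi.smul_apply, real_smul]
      linear_combination (c : ℂ) * this
  have h0 : ∀ v, P q0 v → v = 0 := by
    rintro δ ⟨h1, h2, h3⟩
    have h4 := hreg δ h1 (fun S hS => bodyInf_of_closed (hnd S hS) (h3 S hS).1 (h3 S hS).2)
    funext x
    by_cases hx : x ∈ R ∪ W
    · rcases Finset.mem_union.1 hx with h5 | h5
      · exact h1 x h5
      · exact h4 x h5
    · exact h2 x hx
  filter_upwards [eventually_injective q0 P hclosed hhom h0] with q hq δ hδR hδF x hx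
  have h5 := hq (fun x => if x ∈ R ∪ W then δ x else 0) ⟨?_, ?_, ?_⟩
  · have h6 := congrFun h5 x
    simp only [Finset.mem_union, hx, or_true, if_true, Pi.zero_apply] at h6
    exact h6
  · intro y hy
    simp only [Finset.mem_union, hy, true_or, if_true]
    exact hδR y hy
  · intro y hy
    simp only [hy, if_false]
  · intro S hS
    have h6 : BodyInf q (fun x => if x ∈ R ∪ W then δ x else 0) S :=
      (hδF S hS).congr (fun _ _ => rfl) (fun y hy => by simp only [hTS S hS hy, if_true])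
    exact h6.closed

end Pool.Agent.Helper20_Rig
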