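import Pool.Agent.Helper20_Rig.Inject

/-!
# The main theorem: global linkedness inside redundantly rigid components
-/

set_option autoImplicit false
set_option linter.unusedSectionVars false

open Complex Filter Topology MvPolynomial

namespace Pool.Agent.Helper20_Rig

section

variable {V : Type*} [DecidableEq V] [Fintype V]

/-- Generic points are in general position. -/
lemma crz_generic {x : V × Fin 2 → ℝ} (hx : AlgebraicIndependent ℚ x) {a b c : V} (hab : a ≠ b)
    (hbc : b ≠ c) (hac : a ≠ c) : crz (toC x a) (toC x b) (toC x c) ≠ 0 := by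
  intro h
  let f : MvPolynomial (V × Fin 2) ℚ :=
    (X (b, 0) - X (a, 0)) * (X (c, 1) - X (a, 1)) - (X (b, 1) - X (a, 1)) * (X (c, 0) - X (a, 0))
  have h1 : ∀ y : V × Fin 2 → ℝ, aeval y f = crz (toC y a) (toC y b) (toC y c) := by
    intro y
    simp only [f, map_sub, map_mul, aeval_X, crz, toC, sub_re, sub_im]
  have h2 : f = 0 := by
    have hinj := algebraicIndependent_iff_injective_aeval.1 hx
    rw [injective_iff_map_eq_zero] at hinj
    exact hinj f (by rw [h1, h])
  have h3 := h1 (fun i => if i = (b, 0) then 1 else if i = (c, 1) then 1 else 0)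
  rw [h2, map_zero] at h3
  simp [crz, toC, hab, hac, hbc, hbc.symm] at h3

lemma bodyInf_of_pairs {q δ : V → ℂ} {S : Finset V}
    (hinj : ∀ a ∈ S, ∀ b ∈ S, a ≠ b → q a ≠ q b)
    (hcr : ∀ a ∈ S, ∀ b ∈ S, ∀ c ∈ S, a ≠ b → b ≠ c → a ≠ c → crz (q a) (q b) (q c) ≠ 0)
    (h : ∀ a ∈ S, ∀ b ∈ S, ip (q a - q b) (δ a - δ b) = 0) : BodyInf q δ S := by
  by_cases hcard : 1 < S.card
  swap
  · refine ⟨0, fun u hu v hv => ?_⟩
    have : u = v := by
      by_contra h
      exact hcard (Finset.one_lt_card.2 ⟨u, hu, v, hv, h⟩)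
    subst this
    simp
  obtain ⟨a, ha, b, hb, hab⟩ := Finset.one_lt_card.1 hcard
  obtain ⟨ω, hω⟩ := exists_omega (sub_ne_zero.2 (hinj b hb a ha hab.symm)) (h b hb a ha)
  have key : ∀ c ∈ S, δ c - δ a = (ω * I) * (q c - q a) := by
    intro c hc
    by_cases hca : c = a
    · subst hca; simp
    by_cases hcb : c = b
    · subst hcb; exact hω
    have h1 : ip (q c - q a) (δ c - δ a - (ω * I) * (q c - q a)) = 0 := by
      have h2 := h c hc a ha
      have h3 := ip_omega (q c - q a) ω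
      unfold ip at h2 h3 ⊢
      rw [sub_re (δ c - δ a), sub_im (δ c - δ a)]
      linear_combination h2 - h3
    have h2 : ip (q c - q b) (δ c - δ a - (ω * I) * (q c - q a)) = 0 := by
      have h2 := h c hc b hb
      have h3 := ip_omega (q c - q b) ω
      have h4 : δ c - δ a - (ω * I) * (q c - q a) = (δ c - δ b) - (ω * I) * (q c - q b) := by
        linear_combination hω
      rw [h4]
      unfold ip at h2 h3 ⊢
      rw [sub_re (δ c - δ b), sub_im (δ c - δ b)]
      linear_combination h2 - h3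
    exact sub_eq_zero.1 (eq_zero_of_ip (hcr a ha b hb c hc hab (Ne.symm hcb) (Ne.symm hca)) h1 h2)
  refine ⟨ω, fun c hc d hd => ?_⟩
  linear_combination key c hc - key d hd

lemma dip_ofC (x : V × Fin 2 → ℝ) (δ : V → ℂ) (u v : V) :
    dip x (ofC δ) u v = ip (toC x u - toC x v) (δ u - δ v) := by
  simp [dip, ip, toC, ofC, Fin.sum_univ_two]

lemma dsq_eq (x : V × Fin 2 → ℝ) (u v : V) : dsq x u v = normSq (toC x u - toC x v) := by
  rw [normSq_apply]
  simp [dsq, toC, Fin.sum_univ_two]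
  ring

/-- The tight sparse system obtained from a tight sparse family with a distinguished member. -/
lemma TS_of_tight {R Y : Finset V} {F : Multiset (Finset V)} (hR : 2 ≤ R.card) (hRY : R ⊆ Y)
    (htwo : ∀ S ∈ F, 2 ≤ S.card) (hsub : ∀ S ∈ F, S ⊆ Y) (hsparse : Sparse (R ::ₘ F))
    (htight : Tight (R ::ₘ F) Y) : TS R (Y \ R) F := by
  have hRW : R ∪ (Y \ R) = Y := Finset.union_sdiff_of_subset hRY
  refine ⟨htwo, fun S hS => ?_, hsparse, ?_⟩
  · rw [hRW]
    exact hsub S hS
  · have h1 := htight.2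
    rw [val_cons, Finset.inter_eq_left.2 hRY] at h1
    have h2 : val F Y = (F.map fun S => g S.card).sum := by
      unfold val
      congr 1
      apply Multiset.map_congr rfl
      intro S hS
      rw [Finset.inter_eq_left.2 (hsub S hS)]
    rw [h2] at h1
    have h3 := Finset.card_sdiff_add_card_eq_card hRY
    unfold g at h1 ⊢
    omega

end

variable {V : Type} [DecidableEq V] [Fintype V]

/-- Core form of the main theorem, in terms of complex configurations. -/
theorem core {G : SimpleGraph V} {Y : Finset V} (hY2 : 2 ≤ Y.card) (hRR : RR G Y)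
    (hmax : ∀ S, Y ⊆ S → RR G S → S = Y) {x : V × Fin 2 → ℝ} (hx : AlgebraicIndependent ℚ x)
    {Q : V → ℂ} (hQ : ∀ u ∈ Y, ∀ v ∈ Y, G.Adj u v →
      normSq (Q u - Q v) = normSq (toC x u - toC x v)) :
    ∃ (x' : V × Fin 2 → ℝ) (Q' : V → ℂ), AlgebraicIndependent ℚ x' ∧
      (∀ v ∈ Y, toC x' v = toC x v) ∧ (∀ v ∈ Y, Q' v = Q v) ∧
      ∀ u v, G.Adj u v → normSq (Q' u - Q' v) = normSq (toC x' u - toC x' v) := by
  classical
  -- injectivity of `Q`
  have hQinj : ∀ r ∈ Y, ∀ s ∈ Y, r ≠ s → Q r ≠ Q s := by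
    apply inj_of_inf hx Y (fun u v => u ∈ Y ∧ v ∈ Y ∧ G.Adj u v) (fun u v h => ⟨h.1, h.2.1⟩) _
      (fun u v h => hQ u h.1 v h.2.1 h.2.2)
    intro δ hδ
    have hne : (Finset.card Y) ≠ 0 := by omega
    obtain ⟨v0, hv0⟩ := Finset.card_pos.1 (Nat.pos_of_ne_zero hne)
    apply hRR s(v0, v0) x hx δ
    intro u hu v hv huv _
    exact bodyInf_pair (toC_inj hx huv.ne) (hδ u v ⟨hu, hv, huv⟩)
  have hPinj : ∀ r ∈ Y, ∀ s ∈ Y, r ≠ s → toC x r ≠ toC x s := fun r _ s _ h => toC_inj hx h
  -- the family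
  obtain ⟨F0, hF0s, hF0two, hcov⟩ := exists_family hY2 hRR hmax
  obtain ⟨F1, hF1two, hs, ht⟩ := exists_extension hF0s
    (tight_of_mem hF0s (Multiset.mem_cons_self _ _) hY2)
  have e : F1 + Y ::ₘ F0 = Y ::ₘ (F1 + F0) := by rw [Multiset.add_cons]
  rw [e] at hs ht
  have htwo : ∀ S ∈ F1 + F0, 2 ≤ S.card := by
    intro S hS
    rcases Multiset.mem_add.1 hS with h | h
    · exact (hF1two S h).ge
    · exact hF0two S h
  have hTS : TS Y (Finset.univ \ Y) (F1 + F0) :=
    TS_of_tight hY2 (Finset.subset_univ _) htwo (fun S _ => Finset.subset_univ _) hs ht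
  have hdisj : Disjoint Y (Finset.univ \ Y) := Finset.disjoint_sdiff
  obtain ⟨p1, q1, hp1, hq1, hgood⟩ := exists_good hY2 hPinj hQinj _ (Finset.univ \ Y) (F1 + F0)
    rfl hTS hdisj
  have hnd : ND (F1 + F0) q1 := hgood.gpq.nd hTS.two hTS.sub
  have hev := exists_compat hTS.two hTS.tight hTS.sub hdisj hgood.compat hgood.regq hnd
    (Filter.univ_mem : (Set.univ : Set (V → ℂ)) ∈ 𝓝 q1)
  have hev2 : ∀ᶠ y in 𝓝 (ofC p1), ∃ q ∈ (Set.univ : Set (V → ℂ)),
      (∀ v ∉ Finset.univ \ Y, q v = q1 v) ∧ ∀ S ∈ F1 + F0, BodyRel (toC y) q S := by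
    have := continuous_toC.tendsto (ofC p1)
    rw [toC_ofC] at this
    exact this.eventually hev
  obtain ⟨U, hU1, hU2, hU3⟩ := _root_.mem_nhds_iff.1 hev2
  have hagree : ∀ i ∈ {i : V × Fin 2 | i.1 ∈ Y}, ofC p1 i = x i := by
    rintro ⟨v, k⟩ hv
    have h1 := hp1 v hv
    unfold ofC
    fin_cases k
    · simp [h1, toC]
    · simp [h1, toC]
  have hindep : AlgebraicIndepOn ℚ (ofC p1) {i : V × Fin 2 | i.1 ∈ Y} := by
    have h1 : AlgebraicIndepOn ℚ x {i : V × Fin 2 | i.1 ∈ Y} :=
      (AlgebraicIndepOn.univ.2 hx).mono (Set.subset_univ _)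
    have h2 : (fun i : {i : V × Fin 2 | i.1 ∈ Y} => ofC p1 i) =
        fun i : {i : V × Fin 2 | i.1 ∈ Y} => x i := by
      funext i
      exact hagree i.1 i.2
    unfold AlgebraicIndepOn
    rw [h2]
    exact h1
  obtain ⟨x', hx'U, hx's, hx'gen⟩ := exists_generic hindep hU2 hU3
  obtain ⟨Q', _, hQ'Y, hQ'F⟩ := hU1 hx'U
  have hY1 : ∀ v ∈ Y, toC x' v = toC x v := by
    intro v hv
    have h0 := hx's (v, 0) hv
    have h1 := hx's (v, 1) hv
    rw [hagree (v, 0) hv] at h0
    rw [hagree (v, 1) hv] at h1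
    unfold toC
    rw [h0, h1]
  have hY2' : ∀ v ∈ Y, Q' v = Q v := by
    intro v hv
    rw [hQ'Y v (by simp [hv]), hq1 v hv]
  refine ⟨x', Q', hx'gen, hY1, hY2', fun u v huv => ?_⟩
  obtain ⟨S, hS, hu, hv⟩ := hcov u v huv
  rcases Multiset.mem_cons.1 hS with rfl | hS
  · rw [hY1 u hu, hY1 v hv, hY2' u hu, hY2' v hv]
    exact hQ u hu v hv huv
  · exact (hQ'F S (Multiset.mem_add.2 (Or.inr hS))).normSq_eq hu hv

/-- The main theorem. -/
theorem main (G : SimpleGraph V)
      (D : (Fin 2 → ℝ) → (Fin 2 → ℝ) → ℝ)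
      (Rigid : G.Subgraph → Prop) (RedRigid : G.Subgraph → Prop)
      (GLinked : G.Subgraph → V → V → Prop)
      (hD : ∀ a b : Fin 2 → ℝ, D a b = (a 0 - b 0) ^ 2 + (a 1 - b 1) ^ 2)
      (hRigid : ∀ H : G.Subgraph, Rigid H ↔
        ∀ p : V → Fin 2 → ℝ,
          AlgebraicIndependent ℚ (fun i : V × Fin 2 => p i.1 i.2) →
          ∃ ε > (0 : ℝ), ∀ q : V → Fin 2 → ℝ,
            (∀ v ∈ H.verts, ∀ i : Fin 2, |q v i - p v i| < ε) →
            (∀ u v : V, H.Adj u v → D (q u) (q v) = D (p u) (p v)) →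
            ∀ u ∈ H.verts, ∀ v ∈ H.verts, D (q u) (q v) = D (p u) (p v))
      (hRed : ∀ H : G.Subgraph, RedRigid H ↔
        (Rigid H ∧ ∀ u v : V, H.Adj u v → Rigid (H.deleteEdges {s(u, v)})))
      (hGL : ∀ (H : G.Subgraph) (x y : V), GLinked H x y ↔
        ∀ p : V → Fin 2 → ℝ,
          AlgebraicIndependent ℚ (fun i : V × Fin 2 => p i.1 i.2) →
          ∀ q : V → Fin 2 → ℝ,
            (∀ u v : V, H.Adj u v → D (q u) (q v) = D (p u) (p v)) →
            D (q x) (q y) = D (p x) (p y))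
      (R : G.Subgraph) (hR : RedRigid R)
      (hmax : ∀ R' : G.Subgraph, R ≤ R' → RedRigid R' → R' = R)
      (x y : V) (hx : x ∈ R.verts) (hy : y ∈ R.verts) (hlink : GLinked ⊤ x y) :
      GLinked R x y := by
  classical
  -- coordinates
  let co : (V → Fin 2 → ℝ) → (V × Fin 2 → ℝ) := fun p i => p i.1 i.2
  have hDdsq : ∀ (p : V → Fin 2 → ℝ) (u v : V), D (p u) (p v) = dsq (co p) u v := by
    intro p u v
    rw [hD]
    simp [dsq, co, Fin.sum_univ_two]
  have hDn : ∀ (p : V → Fin 2 → ℝ) (u v : V), D (p u) (p v) =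
      normSq (toC (co p) u - toC (co p) v) := by
    intro p u v
    rw [hDdsq, dsq_eq]
  -- rigid implies infinitesimally rigid
  have hA : ∀ H : G.Subgraph, Rigid H → ∀ z : V × Fin 2 → ℝ, AlgebraicIndependent ℚ z →
      ∀ δ : V → ℂ, (∀ u v, H.Adj u v → BodyInf (toC z) δ {u, v}) →
        BodyInf (toC z) δ H.verts.toFinset := by
    intro H hH z hz δ hδ
    obtain ⟨ε, hε, hrig⟩ := (hRigid H).1 hH (fun v k => z (v, k)) hz
    have h1 := inf_of_rigid hz (fun u v => H.Adj u v) H.verts hε (fun w hw1 hw2 => by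
      have h2 := hrig (fun v k => w (v, k)) hw1 (fun u v huv => by
        rw [hDdsq (fun v k => w (v, k)), hDdsq (fun v k => z (v, k))]
        exact hw2 u v huv)
      intro u hu v hv
      have h3 := h2 u hu v hv
      rw [hDdsq (fun v k => w (v, k)), hDdsq (fun v k => z (v, k))] at h3
      exact h3) (ofC δ) (fun u v huv => by
        rw [dip_ofC]
        exact (hδ u v huv).ip_eq (by simp) (by simp))
    apply bodyInf_of_pairs
    · intro a _ b _ hab
      exact toC_inj hz hab
    · intro a _ b _ c _ hab hbc hac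
      exact crz_generic hz hab hbc hac
    · intro a ha b hb
      rw [← dip_ofC]
      exact h1 a (Set.mem_toFinset.1 ha) b (Set.mem_toFinset.1 hb)
  -- infinitesimally rigid implies rigid
  have hB : ∀ H : G.Subgraph, (∀ z : V × Fin 2 → ℝ, AlgebraicIndependent ℚ z →
      ∀ δ : V → ℂ, (∀ u v, H.Adj u v → BodyInf (toC z) δ {u, v}) →
        BodyInf (toC z) δ H.verts.toFinset) → Rigid H := by
    intro H hH
    rw [hRigid]
    intro p hp
    have hz : AlgebraicIndependent ℚ (co p) := hp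
    have hev := rigid_of_inf H.verts.toFinset (fun u v => H.Adj u v)
      (fun a _ b _ hab => toC_inj hz hab)
      (fun u v huv => ⟨Set.mem_toFinset.2 (H.edge_vert huv),
        Set.mem_toFinset.2 (H.edge_vert huv.symm)⟩)
      (fun δ hδ => hH (co p) hz δ (fun u v huv =>
        bodyInf_pair (toC_inj hz huv.ne) (hδ u v huv)))
    obtain ⟨ε, hε, hball⟩ := Metric.eventually_nhds_iff.1 hev
    refine ⟨ε / 2, by linarith, fun q hq1 hq2 u hu v hv => ?_⟩
    have h1 := hball (y := fun v => if v ∈ H.verts then toC (co q) v else toC (co p) v) (by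
      rw [dist_pi_lt_iff hε]
      intro v
      by_cases hv : v ∈ H.verts
      · simp only [hv, if_true]
        rw [dist_eq_norm]
        have h0 := hq1 v hv 0
        have h1 := hq1 v hv 1
        refine (Complex.norm_le_abs_re_add_abs_im _).trans_lt ?_
        have e0 : (toC (co q) v - toC (co p) v).re = q v 0 - p v 0 := rfl
        have e1 : (toC (co q) v - toC (co p) v).im = q v 1 - p v 1 := rfl
        rw [e0, e1]
        linarith
      · simp only [hv, if_false, dist_self]
        exact hε) (fun u v huv => by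
      have hu : u ∈ H.verts := H.edge_vert huv
      have hv : v ∈ H.verts := H.edge_vert huv.symm
      simp only [hu, hv, if_true]
      rw [← hDn, ← hDn]
      exact hq2 u v huv) u (Set.mem_toFinset.2 hu) v (Set.mem_toFinset.2 hv)
    simp only [hu, hv, if_true] at h1
    rw [hDn, hDn]
    exact h1
  -- redundantly rigid induced subgraphs
  have hC : ∀ S : Finset V, RR G S → RedRigid ((⊤ : G.Subgraph).induce (S : Set V)) := by
    intro S hS
    have hverts : ∀ H : G.Subgraph, H.verts = (S : Set V) → H.verts.toFinset = S := by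
      intro H hH
      ext v
      rw [Set.mem_toFinset, hH, Finset.mem_coe]
    rw [hRed]
    constructor
    · apply hB
      intro z hz δ hδ
      rw [hverts _ (by rfl)]
      apply hS s(x, x) z hz δ
      intro u hu v hv huv _
      exact hδ u v (by
        rw [SimpleGraph.Subgraph.induce_adj]
        exact ⟨hu, hv, huv⟩)
    · intro a b _
      apply hB
      intro z hz δ hδ
      rw [hverts _ (by rfl)]
      apply hS s(a, b) z hz δ
      intro u hu v hv huv hne
      exact hδ u v (by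
        rw [SimpleGraph.Subgraph.deleteEdges_adj, SimpleGraph.Subgraph.induce_adj]
        exact ⟨⟨hu, hv, huv⟩, hne⟩)
  set Y : Finset V := R.verts.toFinset with hYdef
  have hYmem : ∀ v, v ∈ Y ↔ v ∈ R.verts := fun v => Set.mem_toFinset
  obtain ⟨hR1, hR2⟩ := (hRed R).1 hR
  have hRR : RR G Y := by
    intro f z hz δ hδ
    by_cases hf : f ∈ R.edgeSet
    · induction f using Sym2.inductionOn with
      | hf a b =>
        have hab : R.Adj a b := hf
        have h1 := hA _ (hR2 a b hab) z hz δ (fun u v huv => by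
          rw [SimpleGraph.Subgraph.deleteEdges_adj] at huv
          exact hδ u ((hYmem u).2 (R.edge_vert huv.1)) v ((hYmem v).2 (R.edge_vert huv.1.symm))
            (R.adj_sub huv.1) huv.2)
        exact h1
    · apply hA _ hR1 z hz δ
      intro u v huv
      apply hδ u ((hYmem u).2 (R.edge_vert huv)) v ((hYmem v).2 (R.edge_vert huv.symm))
        (R.adj_sub huv)
      rintro rfl
      exact hf huv
  have hle : ∀ S : Finset V, Y ⊆ S → R ≤ (⊤ : G.Subgraph).induce (S : Set V) := by
    intro S hS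
    constructor
    · intro v hv
      exact hS ((hYmem v).2 hv)
    · intro u v huv
      rw [SimpleGraph.Subgraph.induce_adj]
      exact ⟨hS ((hYmem u).2 (R.edge_vert huv)), hS ((hYmem v).2 (R.edge_vert huv.symm)),
        R.adj_sub huv⟩
  have hmaxY : ∀ S, Y ⊆ S → RR G S → S = Y := by
    intro S hS hSR
    have h1 := hmax _ (hle S hS) (hC S hSR)
    ext v
    rw [hYmem, ← h1]
    rfl
  have hind : ∀ u ∈ Y, ∀ v ∈ Y, G.Adj u v → R.Adj u v := by
    intro u hu v hv huv
    have h1 := hmax _ (hle Y (Finset.Subset.refl _)) (hC Y hRR)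
    rw [← h1, SimpleGraph.Subgraph.induce_adj]
    exact ⟨hu, hv, huv⟩
  -- the main argument
  rw [hGL]
  intro p hp q hq
  by_contra hne
  have hxy : x ≠ y := by
    rintro rfl
    apply hne
    rw [hD, hD]
    ring
  have hY2 : 2 ≤ Y.card := Finset.one_lt_card.2 ⟨x, (hYmem x).2 hx, y, (hYmem y).2 hy, hxy⟩
  obtain ⟨x', Q', hgen, h1, h2, h3⟩ := core hY2 hRR hmaxY (x := co p) hp (Q := toC (co q))
    (fun u hu v hv huv => by
      rw [← hDn, ← hDn]
      exact hq u v (hind u hu v hv huv))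
  have h4 := (hGL ⊤ x y).1 hlink (fun v k => x' (v, k)) hgen (fun v k => ofC Q' (v, k))
    (fun u v huv => by
      rw [hDn (fun v k => ofC Q' (v, k)), hDn (fun v k => x' (v, k))]
      have e1 : co (fun v k => ofC Q' (v, k)) = ofC Q' := rfl
      have e2 : co (fun v k => x' (v, k)) = x' := rfl
      rw [e1, e2, toC_ofC]
      exact h3 u v huv)
  rw [hDn (fun v k => ofC Q' (v, k)), hDn (fun v k => x' (v, k))] at h4
  have e1 : co (fun v k => ofC Q' (v, k)) = ofC Q' := rfl
  have e2 : co (fun v k => x' (v, k)) = x' := rfl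
  rw [e1, e2, toC_ofC, h1 x ((hYmem x).2 hx), h1 y ((hYmem y).2 hy), h2 x ((hYmem x).2 hx),
    h2 y ((hYmem y).2 hy), ← hDn, ← hDn] at h4
  exact hne h4

end Pool.Agent.Helper20_Rig
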