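import Pool.Agent.Helper20_Rig.Body

/-!
# Elementary plane geometry for vertices of degree two and three
-/

set_option autoImplicit false
set_option linter.unusedSectionVars false

open Complex Filter Topology

namespace Pool.Agent.Helper20_Rig

/-- cross product: `A, B, Z` are not collinear iff this is nonzero -/
def crz (A B Z : ℂ) : ℝ := (B - A).re * (Z - A).im - (B - A).im * (Z - A).re

lemma exists_apex {A B : ℂ} (hne : A ≠ B) {r : ℝ} (hr : normSq (B - A) < r) :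
    ∃ z : ℂ, normSq (z - A) = r ∧ normSq (z - B) = r ∧ crz A B z ≠ 0 := by
  have hn : 0 < normSq (B - A) := normSq_pos.2 (sub_ne_zero.2 hne.symm)
  have hn' : 0 < (B - A).re * (B - A).re + (B - A).im * (B - A).im := by rwa [← normSq_apply]
  have hpos : 0 < r / normSq (B - A) - 1 / 4 := by
    have : 1 < r / normSq (B - A) := by rwa [one_lt_div hn]
    linarith
  obtain ⟨t, ht0, ht⟩ : ∃ t : ℝ, 0 < t ∧ t ^ 2 = r / normSq (B - A) - 1 / 4 :=
    ⟨Real.sqrt (r / normSq (B - A) - 1 / 4), Real.sqrt_pos.2 hpos, Real.sq_sqrt hpos.le⟩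
  have ht' : (1 / 4 + t ^ 2) * normSq (B - A) = r := by
    rw [ht]
    field_simp
    ring
  rw [normSq_apply] at ht'
  refine ⟨(A + B) / 2 + t * I * (B - A), ?_, ?_, ?_⟩
  · rw [normSq_apply, ← ht']
    simp
    ring
  · rw [normSq_apply, ← ht']
    simp
    ring
  · have : crz A B ((A + B) / 2 + t * I * (B - A)) =
        t * ((B - A).re * (B - A).re + (B - A).im * (B - A).im) := by
      unfold crz
      simp
      ring
    rw [this]
    exact (mul_pos ht0 hn').ne'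

lemma eq_zero_of_ip {A B Z d : ℂ} (hcr : crz A B Z ≠ 0) (h1 : ip (Z - A) d = 0)
    (h2 : ip (Z - B) d = 0) : d = 0 := by
  unfold ip at h1 h2
  unfold crz at hcr
  simp only [sub_re, sub_im] at *
  apply Complex.ext
  · apply mul_left_cancel₀ hcr
    simp only [zero_re, mul_zero]
    linear_combination (Z.im - B.im) * h1 - (Z.im - A.im) * h2
  · apply mul_left_cancel₀ hcr
    simp only [zero_im, mul_zero]
    linear_combination (-(Z.re - B.re)) * h1 + (Z.re - A.re) * h2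

/-- The determinant which decides whether a vertex of degree three at `(X, Y)` rigidifies. -/
def DD (lam m1 m2 z1 z2 X Y : ℝ) : ℝ :=
  Y * ((X - z1) * m1 + (Y - z2) * m2) - lam * (X - 1) * (Y * z1 - X * z2)

lemma numD {lam m1 m2 z1 z2 a b : ℝ} (hl : lam ≠ 0) (hz : z2 ≠ 0) (hb : b ≠ 0) :
    ∃ X Y Y' : ℝ, Y' ^ 2 = Y ^ 2 ∧
      (X - z1) ^ 2 + (Y - z2) ^ 2 = (X - a) ^ 2 + (Y' - b) ^ 2 ∧
      DD lam m1 m2 z1 z2 X Y ≠ 0 := by
  by_contra hcon
  push Not at hcon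
  have hlz : lam * z2 ≠ 0 := mul_ne_zero hl hz
  by_cases haz : a = z1
  · subst haz
    have h0 := hcon 0 ((b + z2) / 2) ((b + z2) / 2) rfl (by ring)
    have h1 := hcon 1 ((b + z2) / 2) ((b + z2) / 2) rfl (by ring)
    have h2 := hcon (-1) ((b + z2) / 2) ((b + z2) / 2) rfl (by ring)
    unfold DD at h0 h1 h2
    apply hlz
    linear_combination (1 / 2) * h1 + (1 / 2) * h2 - h0
  · have hza : z1 - a ≠ 0 := sub_ne_zero.2 (Ne.symm haz)
    obtain ⟨Xs, hXs⟩ : ∃ Xs : ℝ, Xs * (2 * (z1 - a)) = z1 ^ 2 + z2 ^ 2 - a ^ 2 - b ^ 2 :=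
      ⟨_, div_mul_cancel₀ _ (mul_ne_zero two_ne_zero hza)⟩
    obtain ⟨c1, hc1⟩ : ∃ c1 : ℝ, c1 * (z1 - a) = -(z2 - b) := ⟨_, div_mul_cancel₀ _ hza⟩
    obtain ⟨c2, hc2⟩ : ∃ c2 : ℝ, c2 * (z1 - a) = -(z2 + b) := ⟨_, div_mul_cancel₀ _ hza⟩
    have hc12 : c1 - c2 ≠ 0 := by
      intro h
      have : (c1 - c2) * (z1 - a) = 2 * b := by linear_combination hc1 - hc2
      rw [h, zero_mul] at this
      exact hb (by linarith)
    have hl1 : ∀ Y : ℝ, DD lam m1 m2 z1 z2 (Xs + c1 * Y) Y = 0 := by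
      intro Y
      apply hcon _ Y Y rfl
      linear_combination (-1) * hXs + (-2 * Y) * hc1
    have hl2 : ∀ Y : ℝ, DD lam m1 m2 z1 z2 (Xs + c2 * Y) Y = 0 := by
      intro Y
      apply hcon _ Y (-Y) (by ring)
      linear_combination (-1) * hXs + (-2 * Y) * hc2
    have e0 := hl1 0
    have e1 := hl1 1
    have e2 := hl1 (-1)
    have e3 := hl2 1
    have e4 := hl2 (-1)
    unfold DD at e0 e1 e2 e3 e4
    have h5 : lam * z2 * (2 * Xs - 1) * (c1 - c2) = 0 := by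
      linear_combination (1 / 2) * e1 - (1 / 2) * e2 - (1 / 2) * e3 + (1 / 2) * e4
    have h6 : 2 * Xs - 1 = 0 := by
      rcases mul_eq_zero.1 h5 with h | h
      · rcases mul_eq_zero.1 h with h | h
        · exact absurd h hlz
        · exact h
      · exact absurd h hc12
    have h7 : lam * z2 * (Xs * (Xs - 1)) = 0 := by linear_combination e0
    have h8 : Xs = 1 / 2 := by linarith
    rw [h8] at h7
    apply hlz
    linarith

lemma numU {lam m1 m2 z1 z2 X Y d1 d2 c : ℝ} (hz : z2 ≠ 0) (hD : DD lam m1 m2 z1 z2 X Y ≠ 0)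
    (h1 : X * d1 + Y * d2 = 0) (h2 : (X - 1) * (d1 - c * lam) + Y * d2 = 0)
    (h3 : (X - z1) * (d1 - c * m1) + (Y - z2) * (d2 - c * m2) = 0) : c = 0 ∧ d1 = 0 ∧ d2 = 0 := by
  have hc : c = 0 := by
    have : DD lam m1 m2 z1 z2 X Y * c = 0 := by
      unfold DD
      linear_combination -((X - 1) * (Y - z2) - Y * (X - z1)) * h1
        + (X * (Y - z2) - Y * (X - z1)) * h2 - Y * h3
    exact (mul_eq_zero.1 this).resolve_left hD
  subst hc
  have hd1 : d1 = 0 := by linear_combination h1 - h2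
  subst hd1
  refine ⟨rfl, rfl, ?_⟩
  have : z2 * d2 = 0 := by linear_combination h1 - h3
  exact (mul_eq_zero.1 this).resolve_left hz

/-- `w` is a good position for a vertex of degree three attached to `A, B, Z`, where `mu, mv, mz`
is the velocity of `A, B, Z` in the motion to be blocked. -/
def GG (A B Z mu mv mz w : ℂ) : Prop :=
  ∀ (d : ℂ) (c : ℝ), ip (w - A) (d - c * mu) = 0 → ip (w - B) (d - c * mv) = 0 →
    ip (w - Z) (d - c * mz) = 0 → d = 0 ∧ c = 0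

lemma ip_mul (s a b : ℂ) : ip (s * a) (s * b) = normSq s * ip a b := by
  unfold ip
  rw [normSq_apply]
  simp
  ring

lemma GG_of_DD {ζ μu μv μz ω : ℂ} (hz : ζ.im ≠ 0)
    (hD : DD (μv - μu).re ((μz - μu).re + (μv - μu).im * ζ.im)
      ((μz - μu).im - (μv - μu).im * ζ.re) ζ.re ζ.im ω.re ω.im ≠ 0) :
    GG 0 1 ζ μu μv μz ω := by
  intro d c h1 h2 h3
  unfold ip at h1 h2 h3
  simp only [sub_re, sub_im, mul_re, mul_im, ofReal_re, ofReal_im, zero_re, zero_im, one_re,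
    one_im, zero_mul, sub_zero, add_zero] at h1 h2 h3
  simp only [sub_re, sub_im] at hD
  have key := numU (d1 := d.re - c * μu.re + c * (μv.im - μu.im) * ω.im)
    (d2 := d.im - c * μu.im - c * (μv.im - μu.im) * ω.re) (c := c) hz hD
    (by linear_combination h1) (by linear_combination h2) (by linear_combination h3)
  obtain ⟨hc, hd1, hd2⟩ := key
  subst hc
  refine ⟨?_, rfl⟩
  apply Complex.ext
  · simp only [zero_re]; linear_combination hd1
  · simp only [zero_im]; linear_combination hd2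

lemma GG_scale {A B ζ μu μv μz ω : ℂ} (hne : A ≠ B) (h : GG 0 1 ζ μu μv μz ω) :
    GG A B (A + (B - A) * ζ) ((B - A) * μu) ((B - A) * μv) ((B - A) * μz)
      (A + (B - A) * ω) := by
  have hs : B - A ≠ 0 := sub_ne_zero.2 hne.symm
  have hn : normSq (B - A) ≠ 0 := by rwa [Ne, normSq_eq_zero]
  intro d c h1 h2 h3
  obtain ⟨d', rfl⟩ : ∃ d', d = (B - A) * d' := ⟨d / (B - A), by field_simp⟩
  have e1 : A + (B - A) * ω - A = (B - A) * (ω - 0) := by ring
  have e2 : A + (B - A) * ω - B = (B - A) * (ω - 1) := by ring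
  have e3 : A + (B - A) * ω - (A + (B - A) * ζ) = (B - A) * (ω - ζ) := by ring
  have f : ∀ μ : ℂ, (B - A) * d' - c * ((B - A) * μ) = (B - A) * (d' - c * μ) := fun μ => by ring
  rw [e1, f, ip_mul] at h1
  rw [e2, f, ip_mul] at h2
  rw [e3, f, ip_mul] at h3
  obtain ⟨h4, h5⟩ := h d' c ((mul_eq_zero.1 h1).resolve_left hn)
    ((mul_eq_zero.1 h2).resolve_left hn) ((mul_eq_zero.1 h3).resolve_left hn)
  exact ⟨by rw [h4, mul_zero], h5⟩

lemma crz_scale {A B ζ : ℂ} : crz A B (A + (B - A) * ζ) = normSq (B - A) * ζ.im := by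
  unfold crz
  rw [normSq_apply]
  simp
  ring

lemma exists_pair_three {A B Z A' B' Z' mu mv mz : ℂ} (hne : A ≠ B)
    (hAB : normSq (B' - A') = normSq (B - A)) (hcr : crz A B Z ≠ 0) (hcr' : crz A' B' Z' ≠ 0)
    (hm : ip (B - A) (mv - mu) ≠ 0) :
    ∃ w w' : ℂ, normSq (w - A) = normSq (w' - A') ∧ normSq (w - B) = normSq (w' - B') ∧
      normSq (w - Z) = normSq (w' - Z') ∧ GG A B Z mu mv mz w := by
  have hs : B - A ≠ 0 := sub_ne_zero.2 hne.symm
  have hn : normSq (B - A) ≠ 0 := by rwa [Ne, normSq_eq_zero]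
  have hs' : B' - A' ≠ 0 := fun h => hn (by rw [← hAB, h, map_zero])
  obtain ⟨ζ, rfl⟩ : ∃ ζ, Z = A + (B - A) * ζ := ⟨(Z - A) / (B - A), by field_simp; ring⟩
  obtain ⟨π, rfl⟩ : ∃ π, Z' = A' + (B' - A') * π := ⟨(Z' - A') / (B' - A'), by field_simp; ring⟩
  obtain ⟨μu, rfl⟩ : ∃ μ, mu = (B - A) * μ := ⟨mu / (B - A), by field_simp⟩
  obtain ⟨μv, rfl⟩ : ∃ μ, mv = (B - A) * μ := ⟨mv / (B - A), by field_simp⟩
  obtain ⟨μz, rfl⟩ : ∃ μ, mz = (B - A) * μ := ⟨mz / (B - A), by field_simp⟩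
  rw [crz_scale] at hcr hcr'
  have hζ : ζ.im ≠ 0 := fun h => hcr (by rw [h, mul_zero])
  have hπ : π.im ≠ 0 := fun h => hcr' (by rw [h, mul_zero])
  have hlam : (μv - μu).re ≠ 0 := by
    intro h
    apply hm
    have e1 : (B - A) * μv - (B - A) * μu = (B - A) * (μv - μu) := by ring
    have e2 : ip (B - A) ((B - A) * (μv - μu)) = normSq (B - A) * ip 1 (μv - μu) := by
      rw [← ip_mul, mul_one]
    rw [e1, e2]
    have : ip 1 (μv - μu) = (μv - μu).re := by unfold ip; simp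
    rw [this, h, mul_zero]
  obtain ⟨X, Y, Y', hY, hXY, hD⟩ := numD (lam := (μv - μu).re)
    (m1 := (μz - μu).re + (μv - μu).im * ζ.im) (m2 := (μz - μu).im - (μv - μu).im * ζ.re)
    (z1 := ζ.re) (a := π.re) hlam hζ hπ
  refine ⟨A + (B - A) * ⟨X, Y⟩, A' + (B' - A') * ⟨X, Y'⟩, ?_, ?_, ?_, ?_⟩
  · have e1 : A + (B - A) * ⟨X, Y⟩ - A = (B - A) * ⟨X, Y⟩ := by ring
    have e2 : A' + (B' - A') * ⟨X, Y'⟩ - A' = (B' - A') * ⟨X, Y'⟩ := by ring
    rw [e1, e2, normSq_mul, normSq_mul, hAB, normSq_mk X Y, normSq_mk X Y']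
    linear_combination (-normSq (B - A)) * hY
  · have e1 : A + (B - A) * ⟨X, Y⟩ - B = (B - A) * (⟨X, Y⟩ - 1) := by ring
    have e2 : A' + (B' - A') * ⟨X, Y'⟩ - B' = (B' - A') * (⟨X, Y'⟩ - 1) := by ring
    rw [e1, e2, normSq_mul, normSq_mul, hAB, normSq_apply (⟨X, Y⟩ - 1), normSq_apply (⟨X, Y'⟩ - 1)]
    simp only [sub_re, sub_im, one_re, one_im, sub_zero]
    linear_combination (-normSq (B - A)) * hY
  · have e1 : A + (B - A) * ⟨X, Y⟩ - (A + (B - A) * ζ) = (B - A) * (⟨X, Y⟩ - ζ) := by ring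
    have e2 : A' + (B' - A') * ⟨X, Y'⟩ - (A' + (B' - A') * π) = (B' - A') * (⟨X, Y'⟩ - π) := by
      ring
    rw [e1, e2, normSq_mul, normSq_mul, hAB, normSq_apply (⟨X, Y⟩ - ζ), normSq_apply (⟨X, Y'⟩ - π)]
    simp only [sub_re, sub_im]
    linear_combination (normSq (B - A)) * hXY
  · exact GG_scale hne (GG_of_DD hζ hD)

lemma dense_GG {A B Z mu mv mz : ℂ} (hne : A ≠ B) (hcr : crz A B Z ≠ 0)
    (hm : ip (B - A) (mv - mu) ≠ 0) (w0 : ℂ) {U : Set ℂ} (hU : U ∈ 𝓝 w0) :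
    ∃ w ∈ U, GG A B Z mu mv mz w := by
  have hs : B - A ≠ 0 := sub_ne_zero.2 hne.symm
  obtain ⟨ζ, rfl⟩ : ∃ ζ, Z = A + (B - A) * ζ := ⟨(Z - A) / (B - A), by field_simp; ring⟩
  obtain ⟨ω0, rfl⟩ : ∃ ω, w0 = A + (B - A) * ω := ⟨(w0 - A) / (B - A), by field_simp; ring⟩
  obtain ⟨μu, rfl⟩ : ∃ μ, mu = (B - A) * μ := ⟨mu / (B - A), by field_simp⟩
  obtain ⟨μv, rfl⟩ : ∃ μ, mv = (B - A) * μ := ⟨mv / (B - A), by field_simp⟩
  obtain ⟨μz, rfl⟩ : ∃ μ, mz = (B - A) * μ := ⟨mz / (B - A), by field_simp⟩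
  rw [crz_scale] at hcr
  have hζ : ζ.im ≠ 0 := fun h => hcr (by rw [h, mul_zero])
  have hlam : (μv - μu).re ≠ 0 := by
    intro h
    apply hm
    have e1 : (B - A) * μv - (B - A) * μu = (B - A) * (μv - μu) := by ring
    have e2 : ip (B - A) ((B - A) * (μv - μu)) = normSq (B - A) * ip 1 (μv - μu) := by
      rw [← ip_mul, mul_one]
    rw [e1, e2]
    have : ip 1 (μv - μu) = (μv - μu).re := by unfold ip; simp
    rw [this, h, mul_zero]
  -- the path towards the midpoint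
  let γ : ℝ → ℂ := fun t => ⟨ω0.re + t * (1 / 2 - ω0.re), ω0.im - t * ω0.im⟩
  have hγ : Continuous fun t : ℝ => A + (B - A) * γ t := by
    have h1 : Continuous γ := by
      have : γ = fun t : ℝ => ((ω0.re + t * (1 / 2 - ω0.re) : ℝ) : ℂ) +
          ((ω0.im - t * ω0.im : ℝ) : ℂ) * I := by
        funext t
        exact (Complex.re_add_im _).symm
      rw [this]
      fun_prop
    fun_prop
  have hγ0 : A + (B - A) * γ 0 = A + (B - A) * ω0 := by
    congr 2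
    apply Complex.ext <;> simp [γ]
  have hev : ∀ᶠ t : ℝ in 𝓝 0, A + (B - A) * γ t ∈ U := by
    apply hγ.continuousAt.preimage_mem_nhds
    rw [hγ0]
    exact hU
  obtain ⟨ε, hε, hball⟩ := Metric.eventually_nhds_iff.1 hev
  by_contra hcon
  push Not at hcon
  have hzero : ∀ t : ℝ, |t| < ε → DD (μv - μu).re ((μz - μu).re + (μv - μu).im * ζ.im)
      ((μz - μu).im - (μv - μu).im * ζ.re) ζ.re ζ.im (ω0.re + t * (1 / 2 - ω0.re))
      (ω0.im - t * ω0.im) = 0 := by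
    intro t ht
    by_contra hD
    apply hcon _ (hball (y := t) (by rwa [Real.dist_eq, sub_zero]))
    exact GG_scale hne (GG_of_DD hζ hD)
  have h0 := hzero 0 (by simpa using hε)
  have h1 := hzero (ε / 2) (by rw [abs_of_pos (by linarith)]; linarith)
  have h2 := hzero (-(ε / 2)) (by rw [abs_neg, abs_of_pos (by linarith)]; linarith)
  unfold DD at h0 h1 h2
  have h3 : 2 * (ε / 2) ^ 2 * ((μv - μu).re * ζ.im / 4) = 0 := by
    linear_combination (-2 * (ε / 2) ^ 2 + 2) * h0 + (-(ε / 2) - 1) * h1 + ((ε / 2) - 1) * h2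
  have h4 : (μv - μu).re * ζ.im ≠ 0 := mul_ne_zero hlam hζ
  apply h4
  have h5 : ε ^ 2 ≠ 0 := (pow_pos hε 2).ne'
  apply mul_left_cancel₀ h5
  linear_combination 8 * h3

end Pool.Agent.Helper20_Rig
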