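import Pool.Agent.Helper20_Rig.Perturb
import Pool.Agent.Helper20_Rig.Num

/-!
# General position and the perturbation of a new vertex into general position
-/

set_option autoImplicit false
set_option linter.unusedSectionVars false

open Complex Filter Topology

namespace Pool.Agent.Helper20_Rig

variable {V : Type*} [DecidableEq V]

/-- General position on `A`; triples contained in `R` may be collinear. -/
structure GP (R A : Finset V) (p : V → ℂ) : Prop where
  inj : ∀ a ∈ A, ∀ b ∈ A, a ≠ b → p a ≠ p b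
  cr : ∀ a ∈ A, ∀ b ∈ A, ∀ c ∈ A, a ≠ b → b ≠ c → a ≠ c → ¬ (a ∈ R ∧ b ∈ R ∧ c ∈ R) →
    crz (p a) (p b) (p c) ≠ 0

lemma crz_perm1 (A B C : ℂ) : crz B C A = crz A B C := by unfold crz; simp; ring

lemma crz_perm2 (A B C : ℂ) : crz A C B = - crz A B C := by unfold crz; simp; ring

lemma crz_self (A B : ℂ) : crz A B A = 0 := by unfold crz; simp

lemma continuous_crz {X : Type*} [TopologicalSpace X] {f h k : X → ℂ} (hf : Continuous f)
    (hh : Continuous h) (hk : Continuous k) : Continuous fun x => crz (f x) (h x) (k x) := by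
  unfold crz
  exact ((Complex.continuous_re.comp (hh.sub hf)).mul (Complex.continuous_im.comp (hk.sub hf))).sub
    ((Complex.continuous_im.comp (hh.sub hf)).mul (Complex.continuous_re.comp (hk.sub hf)))

lemma GP.congr {R A : Finset V} {p p' : V → ℂ} (h : GP R A p) (hp : ∀ x ∈ A, p' x = p x) :
    GP R A p' := by
  refine ⟨fun a ha b hb hab => ?_, fun a ha b hb c hc h1 h2 h3 h4 => ?_⟩
  · rw [hp a ha, hp b hb]; exact h.inj a ha b hb hab
  · rw [hp a ha, hp b hb, hp c hc]; exact h.cr a ha b hb c hc h1 h2 h3 h4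

lemma GP.nd {R A : Finset V} {p : V → ℂ} (h : GP R A p) {F : Multiset (Finset V)}
    (h2 : ∀ S ∈ F, 2 ≤ S.card) (hsub : ∀ S ∈ F, S ⊆ A) : ND F p := by
  intro S hS
  obtain ⟨a, ha, b, hb, hab⟩ := Finset.one_lt_card.1 (h2 S hS)
  exact ⟨a, ha, b, hb, h.inj a (hsub S hS ha) b (hsub S hS hb) hab⟩

lemma gp_open {R A : Finset V} {p0 : V → ℂ} (h : GP R A p0) : ∀ᶠ p in 𝓝 p0, GP R A p := by
  have h1 : ∀ᶠ p : V → ℂ in 𝓝 p0, ∀ a ∈ A, ∀ b ∈ A, a ≠ b → p a ≠ p b := by
    rw [Filter.eventually_all_finset]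
    intro a ha
    rw [Filter.eventually_all_finset]
    intro b hb
    by_cases hab : a = b
    · exact Filter.Eventually.of_forall fun p h => absurd hab h
    · have : ∀ᶠ p : V → ℂ in 𝓝 p0, p a ≠ p b :=
        (isOpen_ne_fun (continuous_apply a) (continuous_apply b)).mem_nhds (h.inj a ha b hb hab)
      filter_upwards [this] with p hp _ using hp
  have h2 : ∀ᶠ p : V → ℂ in 𝓝 p0, ∀ a ∈ A, ∀ b ∈ A, ∀ c ∈ A, a ≠ b → b ≠ c → a ≠ c →
      ¬ (a ∈ R ∧ b ∈ R ∧ c ∈ R) → crz (p a) (p b) (p c) ≠ 0 := by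
    rw [Filter.eventually_all_finset]
    intro a ha
    rw [Filter.eventually_all_finset]
    intro b hb
    rw [Filter.eventually_all_finset]
    intro c hc
    by_cases hall : a ≠ b ∧ b ≠ c ∧ a ≠ c ∧ ¬ (a ∈ R ∧ b ∈ R ∧ c ∈ R)
    · have : ∀ᶠ p : V → ℂ in 𝓝 p0, crz (p a) (p b) (p c) ≠ 0 :=
        (isOpen_ne_fun (continuous_crz (continuous_apply a) (continuous_apply b)
          (continuous_apply c)) continuous_const).mem_nhds
          (h.cr a ha b hb c hc hall.1 hall.2.1 hall.2.2.1 hall.2.2.2)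
      filter_upwards [this] with p hp _ _ _ _ using hp
    · exact Filter.Eventually.of_forall fun p h1 h2 h3 h4 => absurd ⟨h1, h2, h3, h4⟩ hall
  filter_upwards [h1, h2] with p h3 h4 using ⟨h3, h4⟩

lemma dense_crz {A B : ℂ} (hne : A ≠ B) : Dense {z : ℂ | crz A B z ≠ 0} := by
  have hn : 0 < (B - A).re * (B - A).re + (B - A).im * (B - A).im := by
    rw [← normSq_apply]; exact normSq_pos.2 (sub_ne_zero.2 hne.symm)
  intro z
  rw [mem_closure_iff_nhds]
  intro U hU
  have hγ : Continuous fun t : ℝ => z + t * I * (B - A) := by fun_prop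
  have hev : ∀ᶠ t : ℝ in 𝓝 0, z + t * I * (B - A) ∈ U := by
    apply hγ.continuousAt.preimage_mem_nhds
    simpa using hU
  obtain ⟨ε, hε, hball⟩ := Metric.eventually_nhds_iff.1 hev
  by_contra hcon
  rw [Set.not_nonempty_iff_eq_empty] at hcon
  have hz : ∀ t : ℝ, |t| < ε → crz A B (z + t * I * (B - A)) = 0 := by
    intro t ht
    by_contra hne'
    have : z + t * I * (B - A) ∈ U ∩ {z : ℂ | crz A B z ≠ 0} :=
      ⟨hball (by rwa [Real.dist_eq, sub_zero]), hne'⟩
    rw [hcon] at this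
    exact this
  have h0 := hz 0 (by simpa using hε)
  have h1 := hz (ε / 2) (by rw [abs_of_pos (by linarith)]; linarith)
  unfold crz at h0 h1
  simp only [ofReal_zero, zero_mul, add_zero, add_re, add_im, mul_re, mul_im, ofReal_re, ofReal_im,
    I_re, I_im, mul_zero, mul_one, sub_re, sub_im, sub_self, zero_sub, zero_add] at h0 h1 hn
  have h2 : ε / 2 * ((B.re - A.re) * (B.re - A.re) + (B.im - A.im) * (B.im - A.im)) = 0 := by
    linear_combination h1 - h0
  rcases mul_eq_zero.1 h2 with h3 | h3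
  · linarith
  · linarith

lemma exists_off_lines {A : Finset V} {p : V → ℂ} (hinj : ∀ a ∈ A, ∀ b ∈ A, a ≠ b → p a ≠ p b)
    (z0 : ℂ) {U : Set ℂ} (hU : U ∈ 𝓝 z0) :
    ∃ z ∈ U, ∀ a ∈ A, ∀ b ∈ A, a ≠ b → crz (p a) (p b) z ≠ 0 := by
  have h1 : ∀ᶠ z in residual ℂ, ∀ a ∈ A, ∀ b ∈ A, a ≠ b → crz (p a) (p b) z ≠ 0 := by
    rw [Filter.eventually_all_finset]
    intro a ha
    rw [Filter.eventually_all_finset]
    intro b hb
    by_cases hab : a = b
    · exact Filter.Eventually.of_forall fun p h => absurd hab h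
    · have : ∀ᶠ z in residual ℂ, crz (p a) (p b) z ≠ 0 :=
        residual_of_dense_open (isOpen_ne_fun (continuous_crz continuous_const continuous_const
          continuous_id) continuous_const) (dense_crz (hinj a ha b hb hab))
      filter_upwards [this] with z hz _ using hz
  obtain ⟨z, hz1, hz2⟩ := (dense_of_mem_residual h1).exists_mem_open isOpen_interior
    ⟨z0, mem_interior_iff_mem_nhds.2 hU⟩
  exact ⟨z, interior_subset hz2, hz1⟩

lemma GP.insert {R A : Finset V} {p : V → ℂ} (h : GP R A p) (hA : 2 ≤ A.card) {w : V}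
    (hw : w ∉ A) {z : ℂ} (hz : ∀ a ∈ A, ∀ b ∈ A, a ≠ b → crz (p a) (p b) z ≠ 0) :
    GP R (insert w A) (Function.update p w z) := by
  have hz' : ∀ a ∈ A, p a ≠ z := by
    intro a ha h1
    obtain ⟨b, hb, hab⟩ := Finset.exists_mem_ne (show 1 < A.card by omega) a
    exact hz a ha b hb hab.symm (by rw [← h1]; exact crz_self _ _)
  have hup : ∀ a ∈ A, Function.update p w z a = p a := by
    intro a ha
    rw [Function.update_of_ne]
    rintro rfl
    exact hw ha
  refine ⟨fun a ha b hb hab => ?_, fun a ha b hb c hc h1 h2 h3 h4 => ?_⟩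
  · rcases Finset.mem_insert.1 ha with rfl | ha' <;> rcases Finset.mem_insert.1 hb with rfl | hb'
    · exact absurd rfl hab
    · rw [Function.update_self, hup b hb']
      exact (hz' b hb').symm
    · rw [Function.update_self, hup a ha']
      exact hz' a ha'
    · rw [hup a ha', hup b hb']
      exact h.inj a ha' b hb' hab
  · rcases Finset.mem_insert.1 ha with rfl | ha'
    · have hb' := Finset.mem_of_mem_insert_of_ne hb h1.symm
      have hc' := Finset.mem_of_mem_insert_of_ne hc h3.symm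
      rw [Function.update_self, hup b hb', hup c hc', ← crz_perm1]
      exact hz b hb' c hc' h2
    rcases Finset.mem_insert.1 hb with rfl | hb'
    · have hc' := Finset.mem_of_mem_insert_of_ne hc h2.symm
      rw [Function.update_self, hup a ha', hup c hc', crz_perm2]
      exact neg_ne_zero.2 (hz a ha' c hc' h3)
    rcases Finset.mem_insert.1 hc with rfl | hc'
    · rw [Function.update_self, hup a ha', hup b hb']
      exact hz a ha' b hb' h1
    · rw [hup a ha', hup b hb', hup c hc']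
      exact h.cr a ha' b hb' c hc' h1 h2 h3 h4

/-- A good pair of frameworks. -/
structure Good (R W : Finset V) (F : Multiset (Finset V)) (p q : V → ℂ) : Prop where
  compat : ∀ S ∈ F, BodyRel p q S
  regp : Reg R W F p
  regq : Reg R W F q
  gpp : GP R (R ∪ W) p
  gpq : GP R (R ∪ W) q

variable [Fintype V]

theorem finish {R W : Finset V} {F : Multiset (Finset V)} (hTS : TS R W F) (hR : 2 ≤ R.card)
    (hdisj : Disjoint R W) {w : V} (hw : w ∈ W) {p q : V → ℂ} (hcompat : ∀ S ∈ F, BodyRel p q S)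
    (hreg : Reg R W F q) (hnd : ND F q) (hgp : GP R (R ∪ W.erase w) p)
    (hgq : GP R (R ∪ W.erase w) q)
    (hden : ∀ U ∈ 𝓝 (p w), ∃ z ∈ U, Reg R W F (Function.update p w z)) :
    ∃ p' q', (∀ x ∈ R, p' x = p x) ∧ (∀ x ∈ R, q' x = q x) ∧ Good R W F p' q' := by
  have hwR : w ∉ R := fun h => Finset.disjoint_left.1 hdisj h hw
  have hA2 : 2 ≤ (R ∪ W.erase w).card := hR.trans (Finset.card_le_card Finset.subset_union_left)
  have hwA : w ∉ R ∪ W.erase w := by
    simp [hwR]
  have hAins : insert w (R ∪ W.erase w) = R ∪ W := by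
    rw [← Finset.union_insert, Finset.insert_erase hw]
  have hRW : ∀ x ∈ R, x ∉ W := fun x hx => Finset.disjoint_left.1 hdisj hx
  have hupc : ∀ p : V → ℂ, Continuous fun z : ℂ => Function.update p w z := fun p =>
    continuous_const.update w continuous_id
  -- step 1: make `p` regular
  obtain ⟨p1, q1, hp1R, hq1R, hc1, hrp1, hrq1, hnd1, hgp1, hgq1⟩ : ∃ p1 q1 : V → ℂ,
      (∀ x ∈ R, p1 x = p x) ∧ (∀ x ∈ R, q1 x = q x) ∧ (∀ S ∈ F, BodyRel p1 q1 S) ∧
      Reg R W F p1 ∧ Reg R W F q1 ∧ ND F q1 ∧ GP R (R ∪ W.erase w) p1 ∧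
      GP R (R ∪ W.erase w) q1 := by
    have hN : {q1 : V → ℂ | Reg R W F q1 ∧ ND F q1 ∧ GP R (R ∪ W.erase w) q1} ∈ 𝓝 q := by
      filter_upwards [reg_open hTS.sub hreg hnd, nd_open hnd, gp_open hgq] with q1 h1 h2 h3
        using ⟨h1, h2, h3⟩
    have hev := (exists_compat hTS.two hTS.tight hTS.sub hdisj hcompat hreg hnd hN).and
      (gp_open hgp)
    have hev2 : ∀ᶠ z in 𝓝 (p w), (∃ q1 ∈ {q1 : V → ℂ | Reg R W F q1 ∧ ND F q1 ∧
        GP R (R ∪ W.erase w) q1}, (∀ x ∉ W, q1 x = q x) ∧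
        ∀ S ∈ F, BodyRel (Function.update p w z) q1 S) ∧
        GP R (R ∪ W.erase w) (Function.update p w z) := by
      have h1 : Tendsto (fun z : ℂ => Function.update p w z) (𝓝 (p w)) (𝓝 p) := by
        have := (hupc p).tendsto (p w)
        rwa [Function.update_eq_self] at this
      exact h1.eventually hev
    obtain ⟨z, ⟨⟨q1, hq1, hq1W, hc1⟩, hgp1⟩, hregp1⟩ := hden _ hev2
    refine ⟨Function.update p w z, q1, fun x hx => ?_, fun x hx => hq1W x (hRW x hx), hc1, hregp1,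
      hq1.1, hq1.2.1, hgp1, hq1.2.2⟩
    rw [Function.update_of_ne]
    rintro rfl
    exact hwR hx
  have hndp1 : ND F p1 := hnd1.transfer hc1
  -- step 2: move `q` into general position
  obtain ⟨p2, q2, hp2R, hq2R, hc2, hrp2, hrq2, hnd2, hgp2, hgq2⟩ : ∃ p2 q2 : V → ℂ,
      (∀ x ∈ R, p2 x = p x) ∧ (∀ x ∈ R, q2 x = q x) ∧ (∀ S ∈ F, BodyRel p2 q2 S) ∧
      Reg R W F p2 ∧ Reg R W F q2 ∧ ND F q2 ∧ GP R (R ∪ W.erase w) p2 ∧
      GP R (R ∪ W) q2 := by
    have hN : {p2 : V → ℂ | Reg R W F p2 ∧ ND F p2 ∧ GP R (R ∪ W.erase w) p2} ∈ 𝓝 p1 := by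
      filter_upwards [reg_open hTS.sub hrp1 hndp1, nd_open hndp1, gp_open hgp1] with p2 h1 h2 h3
        using ⟨h1, h2, h3⟩
    have hev := (exists_compat hTS.two hTS.tight hTS.sub hdisj (fun S hS => (hc1 S hS).symm) hrp1
      hndp1 hN).and ((reg_open hTS.sub hrq1 hnd1).and (nd_open hnd1))
    have hev2 : ∀ᶠ z in 𝓝 (q1 w), (∃ p2 ∈ {p2 : V → ℂ | Reg R W F p2 ∧ ND F p2 ∧
        GP R (R ∪ W.erase w) p2}, (∀ x ∉ W, p2 x = p1 x) ∧
        ∀ S ∈ F, BodyRel (Function.update q1 w z) p2 S) ∧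
        (Reg R W F (Function.update q1 w z) ∧ ND F (Function.update q1 w z)) := by
      have h1 : Tendsto (fun z : ℂ => Function.update q1 w z) (𝓝 (q1 w)) (𝓝 q1) := by
        have := (hupc q1).tendsto (q1 w)
        rwa [Function.update_eq_self] at this
      exact h1.eventually hev
    obtain ⟨z, ⟨⟨p2, hp2, hp2W, hc2⟩, hr2, hn2⟩, hoff⟩ := exists_off_lines hgq1.inj (q1 w) hev2
    refine ⟨p2, Function.update q1 w z, fun x hx => ?_, fun x hx => ?_,
      fun S hS => (hc2 S hS).symm, hp2.1, hr2, hn2, hp2.2.2, ?_⟩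
    · rw [hp2W x (hRW x hx), hp1R x hx]
    · rw [Function.update_of_ne, hq1R x hx]
      rintro rfl
      exact hwR hx
    · rw [← hAins]
      exact hgq1.insert hA2 hwA hoff
  have hndp2 : ND F p2 := hnd2.transfer hc2
  -- step 3: move `p` into general position
  have hN : {q3 : V → ℂ | Reg R W F q3 ∧ GP R (R ∪ W) q3} ∈ 𝓝 q2 := by
    filter_upwards [reg_open hTS.sub hrq2 hnd2, gp_open hgq2] with q3 h1 h2
      using ⟨h1, h2⟩
  have hev := (exists_compat hTS.two hTS.tight hTS.sub hdisj hc2 hrq2 hnd2 hN).and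
    (reg_open hTS.sub hrp2 hndp2)
  have hev2 : ∀ᶠ z in 𝓝 (p2 w), (∃ q3 ∈ {q3 : V → ℂ | Reg R W F q3 ∧ GP R (R ∪ W) q3},
      (∀ x ∉ W, q3 x = q2 x) ∧ ∀ S ∈ F, BodyRel (Function.update p2 w z) q3 S) ∧
      Reg R W F (Function.update p2 w z) := by
    have h1 : Tendsto (fun z : ℂ => Function.update p2 w z) (𝓝 (p2 w)) (𝓝 p2) := by
      have := (hupc p2).tendsto (p2 w)
      rwa [Function.update_eq_self] at this
    exact h1.eventually hev
  obtain ⟨z, ⟨⟨q3, hq3, hq3W, hc3⟩, hr3⟩, hoff⟩ := exists_off_lines hgp2.inj (p2 w) hev2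
  refine ⟨Function.update p2 w z, q3, fun x hx => ?_, fun x hx => ?_, hc3, hr3, hq3.1, ?_,
    hq3.2⟩
  · rw [Function.update_of_ne, hp2R x hx]
    rintro rfl
    exact hwR hx
  · rw [hq3W x (hRW x hx), hq2R x hx]
  · rw [← hAins]
    exact hgp2.insert hA2 hwA hoff

end Pool.Agent.Helper20_Rig
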