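import Pool.Agent.Helper20_Rig.Generic

/-!
# A framework which is not infinitesimally rigid at a generic point is flexible
-/

set_option autoImplicit false
set_option linter.unusedSectionVars false

open Filter Topology MvPolynomial

namespace Pool.Agent.Helper20_Rig

variable {V : Type*} [DecidableEq V] [Fintype V]

/-- squared distance in coordinates -/
def dsq (x : V × Fin 2 → ℝ) (u v : V) : ℝ := ∑ k : Fin 2, (x (u, k) - x (v, k)) ^ 2

/-- the derivative of half the squared distance -/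
def dip (x δ : V × Fin 2 → ℝ) (u v : V) : ℝ :=
  ∑ k : Fin 2, (x (u, k) - x (v, k)) * (δ (u, k) - δ (v, k))

/-- polynomial version of `dip` -/
noncomputable def pip (K : V × Fin 2 → MvPolynomial (V × Fin 2) ℚ) (u v : V) :
    MvPolynomial (V × Fin 2) ℚ :=
  ∑ k : Fin 2, (X (u, k) - X (v, k)) * (K (u, k) - K (v, k))

lemma aeval_pip (K : V × Fin 2 → MvPolynomial (V × Fin 2) ℚ) (u v : V) (m : V × Fin 2 → ℝ) :
    aeval m (pip K u v) = dip m (fun i => aeval m (K i)) u v := by
  simp only [pip, dip, map_sum, map_mul, map_sub, aeval_X]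

lemma exists_pip {x : V × Fin 2 → ℝ} (hx : AlgebraicIndependent ℚ x) (δ : V × Fin 2 → ℝ)
    {a b : V} (hab : dip x δ a b ≠ 0) :
    ∃ K : V × Fin 2 → MvPolynomial (V × Fin 2) ℚ, pip K a b ≠ 0 ∧
      ∀ u v, dip x δ u v = 0 → pip K u v = 0 := by
  classical
  obtain ⟨l, hl0, hl⟩ := exists_functional hx hab
  obtain ⟨b0, hb0⟩ := IsLocalization.exist_integer_multiples
    (nonZeroDivisors (MvPolynomial (V × Fin 2) ℚ)) Finset.univ (fun i => l (δ i))
  choose K hK using fun i => hb0 i (Finset.mem_univ i)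
  have key : ∀ u v, algebraMap (MvPolynomial (V × Fin 2) ℚ)
      (FractionRing (MvPolynomial (V × Fin 2) ℚ)) (pip K u v) =
      algebraMap _ _ (b0 : MvPolynomial (V × Fin 2) ℚ) * l (dip x δ u v) := by
    intro u v
    unfold pip dip
    rw [map_sum, map_sum, Finset.mul_sum]
    refine Finset.sum_congr rfl fun k _ => ?_
    have h1 : (x (u, k) - x (v, k)) * (δ (u, k) - δ (v, k)) =
        aeval x (X (u, k) - X (v, k) : MvPolynomial (V × Fin 2) ℚ) * (δ (u, k) - δ (v, k)) := by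
      rw [map_sub, aeval_X, aeval_X]
    rw [h1, hl, map_mul, map_sub (algebraMap (MvPolynomial (V × Fin 2) ℚ)
      (FractionRing (MvPolynomial (V × Fin 2) ℚ))) (K (u, k)), hK, hK, map_sub l]
    rw [Algebra.smul_def, Algebra.smul_def]
    ring
  have hb0' : algebraMap (MvPolynomial (V × Fin 2) ℚ)
      (FractionRing (MvPolynomial (V × Fin 2) ℚ)) b0 ≠ 0 := by
    rw [Ne, FaithfulSMul.algebraMap_eq_zero_iff]
    exact nonZeroDivisors.ne_zero b0.2
  refine ⟨K, fun h => ?_, fun u v huv => ?_⟩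
  · have := key a b
    rw [h, map_zero] at this
    exact mul_ne_zero hb0' hl0 this.symm
  · have := key u v
    rw [huv, map_zero, mul_zero, FaithfulSMul.algebraMap_eq_zero_iff] at this
    exact this

lemma dsq_sub (m k : V × Fin 2 → ℝ) (t : ℝ) (u v : V) :
    dsq (fun i => m i - t * k i) u v - dsq (fun i => m i + t * k i) u v =
      -4 * t * dip m k u v := by
  simp only [dsq, dip, Fin.sum_univ_two]
  ring

/-- If small equivalent frameworks are congruent, then the generic framework is infinitesimally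
rigid. -/
theorem inf_of_rigid {x : V × Fin 2 → ℝ} (hx : AlgebraicIndependent ℚ x) (E : V → V → Prop)
    (Y : Set V) {ε : ℝ} (hε : 0 < ε)
    (hrig : ∀ y : V × Fin 2 → ℝ, (∀ v ∈ Y, ∀ k, |y (v, k) - x (v, k)| < ε) →
      (∀ u v, E u v → dsq y u v = dsq x u v) → ∀ u ∈ Y, ∀ v ∈ Y, dsq y u v = dsq x u v)
    (δ : V × Fin 2 → ℝ) (hδ : ∀ u v, E u v → dip x δ u v = 0) :
    ∀ u ∈ Y, ∀ v ∈ Y, dip x δ u v = 0 := by
  by_contra hcon
  push Not at hcon
  obtain ⟨a, ha, b, hb, hab⟩ := hcon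
  obtain ⟨K, hKab, hK⟩ := exists_pip hx δ hab
  -- the polynomial vector field
  let κ : (V × Fin 2 → ℝ) → (V × Fin 2 → ℝ) := fun m i => aeval m (K i)
  have hκ : ContDiff ℝ 1 κ := by
    rw [contDiff_pi]
    intro i
    have : AnalyticOnNhd ℝ (fun m : V × Fin 2 → ℝ => aeval m (K i)) Set.univ :=
      AnalyticOnNhd.aeval_mvPolynomial (fun j => (ContinuousLinearMap.proj (R := ℝ)
        (φ := fun _ : V × Fin 2 => ℝ) j).analyticOnNhd Set.univ) (K i)
    exact this.contDiff
  let Ψ : ℝ × (V × Fin 2 → ℝ) → ℝ × (V × Fin 2 → ℝ) := fun z => (z.1, z.2 + z.1 • κ z.2)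
  let κ' := fderiv ℝ κ x
  have hκ' : HasStrictFDerivAt κ κ' x := hκ.contDiffAt.hasStrictFDerivAt one_ne_zero
  let z0 : ℝ × (V × Fin 2 → ℝ) := (0, x)
  have h1 : HasStrictFDerivAt (fun z : ℝ × (V × Fin 2 → ℝ) => κ z.2)
      (κ'.comp (ContinuousLinearMap.snd ℝ ℝ (V × Fin 2 → ℝ))) z0 := by
    have := HasStrictFDerivAt.comp z0 (f := Prod.snd) (g := κ) (g' := κ')
      (by exact hκ') (hasStrictFDerivAt_snd (p := z0))
    exact this
  have h2 := (hasStrictFDerivAt_fst (𝕜 := ℝ) (p := z0)).smul h1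
  have h3 := (hasStrictFDerivAt_fst (𝕜 := ℝ) (p := z0)).prodMk
    ((hasStrictFDerivAt_snd (𝕜 := ℝ) (p := z0)).add h2)
  have hΨ : HasStrictFDerivAt Ψ _ z0 := h3
  have hmap := hΨ.map_nhds_eq_of_surj (by
    rw [LinearMap.range_eq_top]
    rintro ⟨s, v⟩
    refine ⟨(s, v - s • κ x), ?_⟩
    simp [z0])
  have hΨ0 : Ψ z0 = (0, x) := by simp [Ψ, z0]
  rw [hΨ0] at hmap
  have hN : {z : ℝ × (V × Fin 2 → ℝ) | (∀ i, |z.1 * κ z.2 i| < ε / 2) ∧
      aeval z.2 (pip K a b) ≠ 0} ∈ 𝓝 z0 := by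
    have hc1 : ∀ i, Continuous fun z : ℝ × (V × Fin 2 → ℝ) => |z.1 * κ z.2 i| := fun i =>
      (continuous_fst.mul ((continuous_apply i).comp (hκ.continuous.comp continuous_snd))).abs
    have hc2 : Continuous fun z : ℝ × (V × Fin 2 → ℝ) => aeval z.2 (pip K a b) := by
      have : Continuous fun m : V × Fin 2 → ℝ => aeval m (pip K a b) := by
        have h5 : (fun m : V × Fin 2 → ℝ => aeval m (pip K a b)) =
            fun m => dip m (κ m) a b := by
          funext m
          exact aeval_pip K a b m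
        rw [h5]
        have h6 : ∀ i, Continuous fun m => κ m i := fun i =>
          (continuous_apply i).comp hκ.continuous
        have h7 : ∀ i : V × Fin 2, Continuous fun m : V × Fin 2 → ℝ => m i := fun i =>
          continuous_apply i
        unfold dip
        exact continuous_finsetSum _ fun k _ =>
          Continuous.mul (Continuous.sub (h7 (a, k)) (h7 (b, k)))
            (Continuous.sub (h6 (a, k)) (h6 (b, k)))
      exact this.comp continuous_snd
    refine Filter.inter_mem (Filter.eventually_all.2 fun i => ?_) ?_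
    · apply (isOpen_lt (hc1 i) continuous_const).mem_nhds
      simp [z0, hε]
    · apply (isOpen_ne_fun hc2 continuous_const).mem_nhds
      change aeval x (pip K a b) ≠ 0
      intro h
      exact hKab (by
        have := (algebraicIndependent_iff_injective_aeval.1 hx)
        rw [injective_iff_map_eq_zero] at this
        exact this _ h)
  have himg : Ψ '' {z : ℝ × (V × Fin 2 → ℝ) | (∀ i, |z.1 * κ z.2 i| < ε / 2) ∧
      aeval z.2 (pip K a b) ≠ 0} ∈ 𝓝 ((0 : ℝ), x) := by
    rw [← hmap]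
    exact Filter.image_mem_map hN
  have hev : ∀ᶠ t : ℝ in 𝓝 0, (t, x) ∈ Ψ '' {z : ℝ × (V × Fin 2 → ℝ) |
      (∀ i, |z.1 * κ z.2 i| < ε / 2) ∧ aeval z.2 (pip K a b) ≠ 0} := by
    have hc : Continuous fun t : ℝ => ((t, x) : ℝ × (V × Fin 2 → ℝ)) := by fun_prop
    exact hc.continuousAt.preimage_mem_nhds himg
  obtain ⟨t, ht, ht0⟩ : ∃ t : ℝ, (t, x) ∈ Ψ '' {z : ℝ × (V × Fin 2 → ℝ) |
      (∀ i, |z.1 * κ z.2 i| < ε / 2) ∧ aeval z.2 (pip K a b) ≠ 0} ∧ t ≠ 0 := by
    have h5 : ∀ᶠ t : ℝ in 𝓝[≠] 0, (t, x) ∈ Ψ '' {z : ℝ × (V × Fin 2 → ℝ) |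
      (∀ i, |z.1 * κ z.2 i| < ε / 2) ∧ aeval z.2 (pip K a b) ≠ 0} :=
      hev.filter_mono nhdsWithin_le_nhds
    exact (h5.and self_mem_nhdsWithin).exists
  obtain ⟨⟨t', m⟩, ⟨hsmall, hne⟩, heq⟩ := ht
  have e1 : t' = t := congrArg Prod.fst heq
  subst e1
  have e2 : m + t' • κ m = x := congrArg Prod.snd heq
  have e3 : x = fun i => m i + t' * κ m i := by
    rw [← e2]; rfl
  have hdiff : ∀ u v, dsq (fun i => m i - t' * κ m i) u v - dsq x u v =
      -4 * t' * aeval m (pip K u v) := by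
    intro u v
    rw [aeval_pip, e3, dsq_sub]
  have h7 := hrig (fun i => m i - t' * κ m i) (fun v _ k => by
    have h8 := hsmall (v, k)
    have h9 : (m (v, k) - t' * κ m (v, k)) - x (v, k) = -2 * (t' * κ m (v, k)) := by
      rw [e3]; ring
    rw [h9, abs_mul]
    simp only [abs_neg, Nat.abs_ofNat]
    simp only at h8
    linarith)
    (fun u v huv => by
      have := hdiff u v
      rw [hK u v (hδ u v huv), map_zero, mul_zero] at this
      linarith) a ha b hb
  have h8 := hdiff a b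
  rw [h7, sub_self] at h8
  have h9 : -4 * t' ≠ 0 := mul_ne_zero (by norm_num) ht0
  exact mul_ne_zero h9 hne h8.symm

end Pool.Agent.Helper20_Rig
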