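import Pool.Agent.Helper20_Rig.Pair

/-!
# Generic points
-/

set_option autoImplicit false
set_option linter.unusedSectionVars false

open Filter Topology MvPolynomial

namespace Pool.Agent.Helper20_Rig

/-- Every point whose coordinates in `s` are algebraically independent can be moved slightly, with
the coordinates in `s` fixed, to a generic point. -/
theorem exists_generic {σ : Type*} [Finite σ] [DecidableEq σ] {s : Set σ} {x : σ → ℝ}
    (hs : AlgebraicIndepOn ℚ x s) {U : Set (σ → ℝ)} (hU : IsOpen U) (hx : x ∈ U) :
    ∃ x' ∈ U, (∀ i ∈ s, x' i = x i) ∧ AlgebraicIndependent ℚ x' := by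
  classical
  have key : ∀ t : Finset σ, ∃ x' ∈ U, (∀ i ∈ s, x' i = x i) ∧
      AlgebraicIndepOn ℚ x' (s ∪ (t : Set σ)) := by
    intro t
    induction t using Finset.induction_on with
    | empty => exact ⟨x, hx, fun _ _ => rfl, by simpa using hs⟩
    | insert i t _ ih =>
      obtain ⟨x', hx'U, hx's, hx'i⟩ := ih
      by_cases hi : i ∈ s ∪ (t : Set σ)
      · refine ⟨x', hx'U, hx's, ?_⟩
        have : s ∪ ((insert i t : Finset σ) : Set σ) = s ∪ (t : Set σ) := by
          rw [Finset.coe_insert, Set.union_insert, Set.insert_eq_of_mem hi]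
        rw [this]
        exact hx'i
      · have hcount : Countable (Algebra.adjoin ℚ (x' '' (s ∪ (t : Set σ)))) := by
          have hfin : (x' '' (s ∪ (t : Set σ))).Finite := Set.toFinite _
          rw [Set.image_eq_range, Algebra.adjoin_range_eq_range_aeval]
          have hc : Countable (MvPolynomial ↥(s ∪ (t : Set σ)) ℚ) := by
            rw [← Cardinal.mk_le_aleph0_iff]
            refine MvPolynomial.cardinalMk_le_max_lift.trans ?_
            simp
          exact (Set.countable_range _).to_subtype
        have hcset : Set.Countable {r : ℝ | IsAlgebraic (Algebra.adjoin ℚ (x' '' (s ∪ (t : Set σ))))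
            r} := Algebraic.countable _ _
        have hdense := hcset.dense_compl ℝ
        have hopen : IsOpen {r : ℝ | Function.update x' i r ∈ U} :=
          hU.preimage (continuous_const.update i continuous_id)
        obtain ⟨r, hr1, hr2⟩ := hdense.exists_mem_open hopen
          ⟨x' i, by rw [Set.mem_ofPred_eq, Function.update_eq_self]; exact hx'U⟩
        refine ⟨Function.update x' i r, hr2, fun j hj => ?_, ?_⟩
        · rw [Function.update_of_ne, hx's j hj]
          rintro rfl
          exact hi (Or.inl hj)
        · have hins : s ∪ ((insert i t : Finset σ) : Set σ) = insert i (s ∪ (t : Set σ)) := by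
            rw [Finset.coe_insert, Set.union_insert]
          have hagree : ∀ j ∈ s ∪ (t : Set σ), Function.update x' i r j = x' j := by
            intro j hj
            rw [Function.update_of_ne]
            rintro rfl
            exact hi hj
          have h1 : AlgebraicIndepOn ℚ (Function.update x' i r) (s ∪ (t : Set σ)) := by
            have e : (fun j : ↥(s ∪ (t : Set σ)) => Function.update x' i r j) =
                fun j : ↥(s ∪ (t : Set σ)) => x' j := by
              funext j
              exact hagree j.1 j.2
            unfold AlgebraicIndepOn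
            rw [e]
            exact hx'i
          have h2 : Function.update x' i r '' (s ∪ (t : Set σ)) = x' '' (s ∪ (t : Set σ)) :=
            Set.image_congr hagree
          rw [hins]
          apply h1.insert
          rw [h2, Function.update_self]
          exact hr1
  have hfin : Fintype σ := Fintype.ofFinite σ
  obtain ⟨x', h1, h2, h3⟩ := key Finset.univ
  refine ⟨x', h1, h2, ?_⟩
  rw [Finset.coe_univ, Set.union_univ] at h3
  exact AlgebraicIndepOn.univ.1 h3

/-- The field of rational functions embeds into `ℝ` by evaluation at a generic point. -/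
noncomputable def emb {σ : Type*} {x : σ → ℝ} (hx : AlgebraicIndependent ℚ x) :
    FractionRing (MvPolynomial σ ℚ) →+* ℝ :=
  IsFractionRing.lift (g := (aeval x : MvPolynomial σ ℚ →ₐ[ℚ] ℝ).toRingHom)
    (algebraicIndependent_iff_injective_aeval.1 hx)

lemma emb_algebraMap {σ : Type*} {x : σ → ℝ} (hx : AlgebraicIndependent ℚ x)
    (f : MvPolynomial σ ℚ) : emb hx (algebraMap _ _ f) = aeval x f :=
  IsFractionRing.lift_algebraMap _ _

/-- A functional on the reals which is linear over the field generated by a generic point. -/
lemma exists_functional {σ : Type*} {x : σ → ℝ} (hx : AlgebraicIndependent ℚ x) {r0 : ℝ}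
    (hr0 : r0 ≠ 0) : ∃ l : ℝ →+ FractionRing (MvPolynomial σ ℚ), l r0 ≠ 0 ∧
      ∀ (f : MvPolynomial σ ℚ) (r : ℝ), l (aeval x f * r) = algebraMap _ _ f * l r := by
  let _ : Algebra (FractionRing (MvPolynomial σ ℚ)) ℝ := (emb hx).toAlgebra
  have h1 : ¬ ∀ φ : Module.Dual (FractionRing (MvPolynomial σ ℚ)) ℝ, φ r0 = 0 := by
    rw [Module.forall_dual_apply_eq_zero_iff]
    exact hr0
  push Not at h1
  obtain ⟨φ, hφ⟩ := h1
  refine ⟨φ.toAddMonoidHom, hφ, fun f r => ?_⟩
  have h2 : aeval x f * r = (algebraMap (MvPolynomial σ ℚ) (FractionRing (MvPolynomial σ ℚ)) f) • r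
      := by
    rw [Algebra.smul_def]
    congr 1
    exact (emb_algebraMap hx f).symm
  rw [h2]
  change φ (_ • r) = _
  rw [map_smul, smul_eq_mul]
  rfl

/-- Transfer of linear relations between generic points. -/
lemma exists_transfer {σ : Type*} {x x' : σ → ℝ} (hx : AlgebraicIndependent ℚ x)
    (hx' : AlgebraicIndependent ℚ x') {r0 : ℝ} (hr0 : r0 ≠ 0) :
    ∃ T : ℝ →+ ℝ, T r0 ≠ 0 ∧ ∀ (f : MvPolynomial σ ℚ) (r : ℝ),
      T (aeval x f * r) = aeval x' f * T r := by
  obtain ⟨l, hl0, hl⟩ := exists_functional hx hr0
  refine ⟨(emb hx').toAddMonoidHom.comp l, ?_, fun f r => ?_⟩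
  · change emb hx' (l r0) ≠ 0
    rwa [Ne, map_eq_zero]
  · change emb hx' (l _) = _ * emb hx' (l r)
    rw [hl, map_mul, emb_algebraMap]

end Pool.Agent.Helper20_Rig
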