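import Pool.Agent.Helper20_Rig.Structure

/-!
# Equivalent frameworks of rigid generic frameworks are injective
-/

set_option autoImplicit false
set_option linter.unusedSectionVars false

open Complex Filter Topology MvPolynomial

namespace Pool.Agent.Helper20_Rig

open scoped IntermediateField.algebraAdjoinAdjoin

/-- If all derivations vanish then the extension is algebraic. -/
lemma isAlgebraic_of_derivation {K L : Type} [Field K] [Field L] [CharZero K] [Algebra K L]
    [Algebra.EssFiniteType K L] (h : ∀ D : Derivation K L L, D = 0) : Algebra.IsAlgebraic K L := by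
  have h1 : Algebra.FormallyUnramified K L := by
    constructor
    refine ⟨fun a b => ?_⟩
    rw [← sub_eq_zero, ← Module.forall_dual_apply_eq_zero_iff L]
    intro φ
    have h2 : φ = 0 := by
      rw [← (KaehlerDifferential.linearMapEquivDerivation K L).map_eq_zero_iff]
      exact h _
    rw [h2]
    rfl
  have h3 : Algebra.IsSeparable K L := Algebra.FormallyUnramified.isSeparable K L
  exact Algebra.IsSeparable.isAlgebraic K L

/-- An algebraically independent family of reals which are algebraic over `ℚ(T)` has at most `|T|`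
members. -/
lemma card_le_of_algebraic {σ : Type*} {x : σ → ℝ} (hx : AlgebraicIndependent ℚ x)
    (I : Finset σ) (T : Finset ℝ)
    (h : ∀ i ∈ I, IsAlgebraic (IntermediateField.adjoin ℚ (T : Set ℝ)) (x i)) :
    I.card ≤ T.card := by
  classical
  have hind : (AlgebraicIndependent.matroid ℚ ℝ).Indep (x '' (I : Set σ)) := by
    rw [AlgebraicIndependent.matroid_indep_iff]
    have h1 : AlgebraicIndepOn ℚ id (Set.range x) := hx.coe_range
    exact h1.mono (Set.image_subset_range _ _)
  have hsub : x '' (I : Set σ) ⊆ (AlgebraicIndependent.matroid ℚ ℝ).closure (T : Set ℝ) := by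
    rw [AlgebraicIndependent.matroid_closure_eq]
    rintro _ ⟨i, hi, rfl⟩
    rw [SetLike.mem_coe, Subalgebra.mem_algebraicClosure]
    rw [IsFractionRing.isAlgebraic_iff (Algebra.adjoin ℚ (T : Set ℝ))
      (IntermediateField.adjoin ℚ (T : Set ℝ)) ℝ]
    exact h i hi
  have h1 := hind.encard_le_eRk_of_subset hsub
  rw [Matroid.eRk_closure_eq] at h1
  have h2 := h1.trans (Matroid.eRk_le_encard _ _)
  rw [hx.injective.injOn.encard_image] at h2
  rw [Set.encard_coe_eq_coe_finsetCard, Set.encard_coe_eq_coe_finsetCard] at h2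
  exact_mod_cast h2

variable {V : Type} [DecidableEq V] [Fintype V]

theorem inj_of_inf {x : V × Fin 2 → ℝ} (hx : AlgebraicIndependent ℚ x) (Y : Finset V)
    (E : V → V → Prop) (hE : ∀ u v, E u v → u ∈ Y ∧ v ∈ Y)
    (hinf : ∀ δ : V → ℂ, (∀ u v, E u v → ip (toC x u - toC x v) (δ u - δ v) = 0) →
      BodyInf (toC x) δ Y) {Q : V → ℂ}
    (hQ : ∀ u v, E u v → normSq (Q u - Q v) = normSq (toC x u - toC x v)) :
    ∀ r ∈ Y, ∀ s ∈ Y, r ≠ s → Q r ≠ Q s := by
  classical
  intro r hr s hs hrs hQrs
  let yq : V × Fin 2 → ℝ := fun i => if i.2 = 0 then (Q i.1 - Q r).re else (Q i.1 - Q r).im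
  let T1 : Finset ℝ := (((Y.erase r).erase s) ×ˢ (Finset.univ : Finset (Fin 2))).image yq
  let T : Finset ℝ := T1 ∪ {x (r, 0), x (r, 1), x (s, 0)}
  let K : IntermediateField ℚ ℝ := IntermediateField.adjoin ℚ (T : Set ℝ)
  have hTK : ∀ t ∈ T, t ∈ K := fun t ht => IntermediateField.subset_adjoin ℚ _ ht
  have hyK : ∀ v ∈ Y, ∀ k, yq (v, k) ∈ K := by
    intro v hv k
    by_cases h1 : v = r
    · have : yq (v, k) = 0 := by
        simp only [yq, h1, sub_self, zero_re, zero_im, ite_self]
      rw [this]; exact zero_mem _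
    by_cases h2 : v = s
    · have : yq (v, k) = 0 := by
        simp only [yq, h2, ← hQrs, sub_self, zero_re, zero_im, ite_self]
      rw [this]; exact zero_mem _
    apply hTK
    apply Finset.mem_union_left
    apply Finset.mem_image_of_mem
    simp [h1, h2, hv]
  have hlen : ∀ u ∈ Y, ∀ v ∈ Y, normSq (Q u - Q v) ∈ K := by
    intro u hu v hv
    have e0 : (Q u - Q v).re = yq (u, 0) - yq (v, 0) := by simp [yq]
    have e1 : (Q u - Q v).im = yq (u, 1) - yq (v, 1) := by simp [yq]
    rw [normSq_apply, e0, e1]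
    have h0 := sub_mem (hyK u hu 0) (hyK v hv 0)
    have h1 := sub_mem (hyK u hu 1) (hyK v hv 1)
    exact add_mem (mul_mem h0 h0) (mul_mem h1 h1)
  let Lset : Set ℝ := {t | ∃ i : V × Fin 2, i.1 ∈ Y ∧ x i = t}
  have hLfin : Lset.Finite := by
    have : Lset ⊆ Set.range x := by
      rintro _ ⟨i, _, rfl⟩
      exact ⟨i, rfl⟩
    exact (Set.finite_range x).subset this
  let L : IntermediateField K ℝ := IntermediateField.adjoin K Lset
  have hgL : ∀ i : V × Fin 2, i.1 ∈ Y → x i ∈ L := fun i hi =>
    IntermediateField.subset_adjoin K _ ⟨i, hi, rfl⟩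
  have hess : Algebra.EssFiniteType K L :=
    IntermediateField.essFiniteType_iff.2 (IntermediateField.fg_adjoin_of_finite hLfin)
  have hderiv : ∀ D : Derivation K L L, D = 0 := by
    intro D
    let gL : ∀ i : V × Fin 2, i.1 ∈ Y → L := fun i hi => ⟨x i, hgL i hi⟩
    let δ : V → ℂ := fun v => if h : v ∈ Y then
      ⟨(D (gL (v, 0) h) : ℝ), (D (gL (v, 1) h) : ℝ)⟩ else 0
    have hδ : ∀ v (h : v ∈ Y), δ v = ⟨(D (gL (v, 0) h) : ℝ), (D (gL (v, 1) h) : ℝ)⟩ := by
      intro v h
      simp only [δ, dif_pos h]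
    have hedge : ∀ u v, E u v → ip (toC x u - toC x v) (δ u - δ v) = 0 := by
      intro u v huv
      obtain ⟨hu, hv⟩ := hE u v huv
      have hmem : normSq (toC x u - toC x v) ∈ K := by
        rw [← hQ u v huv]
        exact hlen u hu v hv
      have h1 : D (algebraMap K L ⟨_, hmem⟩) = 0 := D.map_algebraMap _
      have h2 : algebraMap K L ⟨_, hmem⟩ =
          (gL (u, 0) hu - gL (v, 0) hv) * (gL (u, 0) hu - gL (v, 0) hv) +
          (gL (u, 1) hu - gL (v, 1) hv) * (gL (u, 1) hu - gL (v, 1) hv) := by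
        apply Subtype.ext
        change normSq (toC x u - toC x v) = _
        rw [normSq_apply]
        rfl
      rw [h2, map_add, Derivation.leibniz, Derivation.leibniz, map_sub, map_sub] at h1
      have h3 := congrArg (fun z : L => (z : ℝ)) h1
      simp only [smul_eq_mul] at h3
      have h4 : (x (u, 0) - x (v, 0)) * ((D (gL (u, 0) hu) : ℝ) - (D (gL (v, 0) hv) : ℝ)) +
          (x (u, 0) - x (v, 0)) * ((D (gL (u, 0) hu) : ℝ) - (D (gL (v, 0) hv) : ℝ)) +
          ((x (u, 1) - x (v, 1)) * ((D (gL (u, 1) hu) : ℝ) - (D (gL (v, 1) hv) : ℝ)) +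
          (x (u, 1) - x (v, 1)) * ((D (gL (u, 1) hu) : ℝ) - (D (gL (v, 1) hv) : ℝ))) = 0 := h3
      rw [hδ u hu, hδ v hv]
      unfold ip toC
      simp only [sub_re, sub_im]
      linarith
    obtain ⟨ω, hω⟩ := hinf δ hedge
    have hpin : ∀ (i : V × Fin 2) (hi : i.1 ∈ Y), x i ∈ T → D (gL i hi) = 0 := by
      intro i hi hiT
      have : gL i hi = algebraMap K L ⟨x i, hTK _ hiT⟩ := Subtype.ext rfl
      rw [this]
      exact D.map_algebraMap _
    have hr0 : D (gL (r, 0) hr) = 0 := hpin (r, 0) hr (by simp [T])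
    have hr1 : D (gL (r, 1) hr) = 0 := hpin (r, 1) hr (by simp [T])
    have hs0 : D (gL (s, 0) hs) = 0 := hpin (s, 0) hs (by simp [T])
    have hδr : δ r = 0 := by
      rw [hδ r hr, hr0, hr1]
      rfl
    have hδs : (δ s).re = 0 := by
      rw [hδ s hs, hs0]
      rfl
    have hω0 : ω = 0 := by
      have h1 := hω s hs r hr
      rw [hδr, sub_zero] at h1
      have h2 := congrArg Complex.re h1
      rw [hδs] at h2
      simp [toC] at h2
      rcases h2 with h2 | h2
      · exact h2
      · exfalso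
        have h3 : x (s, 1) = x (r, 1) := sub_eq_zero.1 h2
        exact hrs (congrArg Prod.fst (hx.injective h3)).symm
    have hall : ∀ i (hi : i.1 ∈ Y), D (gL i hi) = 0 := by
      rintro ⟨v, k⟩ hv
      have h1 := hω v hv r hr
      rw [hδr, sub_zero, hω0] at h1
      simp only [ofReal_zero, zero_mul] at h1
      rw [hδ v hv] at h1
      apply Subtype.ext
      fin_cases k
      · exact congrArg Complex.re h1
      · exact congrArg Complex.im h1
    -- `D` vanishes on generators
    have hD : ∀ z (hz : z ∈ L), D ⟨z, hz⟩ = 0 := by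
      intro z hz
      refine IntermediateField.adjoin_induction K (p := fun z hz => D ⟨z, hz⟩ = 0)
        ?_ ?_ ?_ ?_ ?_ hz
      · rintro _ ⟨i, hi, rfl⟩
        exact hall i hi
      · intro c
        exact D.map_algebraMap c
      · intro a b ha hb h1 h2
        have : (⟨a + b, add_mem ha hb⟩ : L) = ⟨a, ha⟩ + ⟨b, hb⟩ := rfl
        rw [this, map_add, h1, h2, add_zero]
      · intro a ha h1
        have : (⟨a⁻¹, inv_mem ha⟩ : L) = (⟨a, ha⟩ : L)⁻¹ := rfl
        rw [this, Derivation.leibniz_inv, h1, smul_zero]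
      · intro a b ha hb h1 h2
        have : (⟨a * b, mul_mem ha hb⟩ : L) = ⟨a, ha⟩ * ⟨b, hb⟩ := rfl
        rw [this, Derivation.leibniz, h1, h2, smul_zero, smul_zero, add_zero]
    ext ⟨z, hz⟩
    rw [hD z hz]
    rfl
  have halg := isAlgebraic_of_derivation hderiv
  have hcard := card_le_of_algebraic hx (Y ×ˢ (Finset.univ : Finset (Fin 2))) T (by
    rintro i hi
    have hiY : i.1 ∈ Y := (Finset.mem_product.1 hi).1
    have h1 : IsAlgebraic K (⟨x i, hgL i hiY⟩ : L) := halg.isAlgebraic _
    exact (IntermediateField.isAlgebraic_iff (S := L)).1 h1)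
  have hT1 : T1.card ≤ 2 * (Y.card - 2) := by
    refine Finset.card_image_le.trans ?_
    rw [Finset.card_product, Finset.card_univ, Fintype.card_fin,
      Finset.card_erase_of_mem (Finset.mem_erase.2 ⟨hrs.symm, hs⟩), Finset.card_erase_of_mem hr]
    omega
  have hT : T.card ≤ T1.card + 3 := by
    refine (Finset.card_union_le _ _).trans ?_
    have := Finset.card_le_three (a := x (r, 0)) (b := x (r, 1)) (c := x (s, 0))
    omega
  have hY2 : 2 ≤ Y.card := Finset.one_lt_card.2 ⟨r, hr, s, hs, hrs⟩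
  rw [Finset.card_product, Finset.card_univ, Fintype.card_fin] at hcard
  omega

end Pool.Agent.Helper20_Rig
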