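import Pool.Agent.Helper20_Rig.Flex

/-!
# Infinitesimal rigidity implies local rigidity, and generic rigidity of tight sparse families
-/

set_option autoImplicit false
set_option linter.unusedSectionVars false

open Complex Filter Topology MvPolynomial

namespace Pool.Agent.Helper20_Rig

variable {V : Type*} [DecidableEq V] [Fintype V]

/-- cross product of vectors -/
def crs (z w : ℂ) : ℝ := z.re * w.im - z.im * w.re

lemma continuous_crs {X : Type*} [TopologicalSpace X] {f h : X → ℂ} (hf : Continuous f)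
    (hh : Continuous h) : Continuous fun x => crs (f x) (h x) := by
  unfold crs
  exact ((Complex.continuous_re.comp hf).mul (Complex.continuous_im.comp hh)).sub
    ((Complex.continuous_im.comp hf).mul (Complex.continuous_re.comp hh))

lemma crs_omega (z : ℂ) (ω : ℝ) : crs z ((ω * I) * z) = ω * normSq z := by
  unfold crs
  rw [normSq_apply]
  simp
  ring

/-- Averaging: infinitesimal rigidity at `P₀` implies local rigidity at `P₀`. -/
theorem rigid_of_inf (Y : Finset V) (E : V → V → Prop) {P0 : V → ℂ}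
    (hinj : ∀ a ∈ Y, ∀ b ∈ Y, a ≠ b → P0 a ≠ P0 b) (hE : ∀ u v, E u v → u ∈ Y ∧ v ∈ Y)
    (hinf : ∀ δ : V → ℂ, (∀ u v, E u v → ip (P0 u - P0 v) (δ u - δ v) = 0) → BodyInf P0 δ Y) :
    ∀ᶠ Q in 𝓝 P0, (∀ u v, E u v → normSq (Q u - Q v) = normSq (P0 u - P0 v)) →
      ∀ u ∈ Y, ∀ v ∈ Y, normSq (Q u - Q v) = normSq (P0 u - P0 v) := by
  classical
  by_cases hcard : 1 < Y.card
  swap
  · refine Filter.Eventually.of_forall fun Q _ u hu v hv => ?_
    have : u = v := by
      by_contra h
      exact hcard (Finset.one_lt_card.2 ⟨u, hu, v, hv, h⟩)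
    subst this
    simp
  obtain ⟨a, ha, b, hb, hab⟩ := Finset.one_lt_card.1 hcard
  let P : (V → ℂ) → (V → ℂ) → Prop := fun m δ =>
    (∀ x ∉ Y, δ x = 0) ∧ δ a = 0 ∧ crs (m b - m a) (δ b) = 0 ∧
      ∀ u v, E u v → ip (m u - m v) (δ u - δ v) = 0
  have hclosed : IsClosed {z : (V → ℂ) × (V → ℂ) | P z.1 z.2} := by
    have e1 : ∀ a : V, Continuous fun z : (V → ℂ) × (V → ℂ) => z.1 a := fun a =>
      (continuous_apply a).comp continuous_fst
    have e2 : ∀ a : V, Continuous fun z : (V → ℂ) × (V → ℂ) => z.2 a := fun a =>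
      (continuous_apply a).comp continuous_snd
    simp only [P, Set.ofPred_and, Set.ofPred_forall]
    refine IsClosed.inter ?_ (IsClosed.inter ?_ (IsClosed.inter ?_ ?_))
    · exact isClosed_iInter fun x => isClosed_iInter fun _ => isClosed_eq (e2 x) continuous_const
    · exact isClosed_eq (e2 a) continuous_const
    · exact isClosed_eq (continuous_crs ((e1 b).sub (e1 a)) (e2 b)) continuous_const
    · exact isClosed_iInter fun u => isClosed_iInter fun v => isClosed_iInter fun _ =>
        isClosed_eq (continuous_ip ((e1 u).sub (e1 v)) ((e2 u).sub (e2 v))) continuous_const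
  have hhom : ∀ x v (c : ℝ), P x v → P x (c • v) := by
    rintro q δ c ⟨h1, h2, h3, h4⟩
    refine ⟨fun x hx => ?_, ?_, ?_, fun u v huv => ?_⟩
    · rw [Pi.smul_apply, h1 x hx, smul_zero]
    · rw [Pi.smul_apply, h2, smul_zero]
    · unfold crs at h3 ⊢
      simp only [Pi.smul_apply, real_smul, sub_re, mul_re, ofReal_re, ofReal_im, zero_mul, sub_zero,
        sub_im, mul_im, add_zero] at h3 ⊢
      linear_combination c * h3
    · have := h4 u v huv
      unfold ip at this ⊢
      simp only [Pi.smul_apply, real_smul, sub_re, mul_re, ofReal_re, ofReal_im, zero_mul, sub_zero,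
        sub_im, mul_im, add_zero] at this ⊢
      linear_combination c * this
  have hPab : P0 b ≠ P0 a := hinj b hb a ha hab.symm
  have h0 : ∀ v, P P0 v → v = 0 := by
    rintro δ ⟨h1, h2, h3, h4⟩
    obtain ⟨ω, hω⟩ := hinf δ h4
    have h5 := hω b hb a ha
    rw [h2, sub_zero] at h5
    rw [h5, crs_omega] at h3
    have h6 : ω = 0 := (mul_eq_zero.1 h3).resolve_right (by
      rw [normSq_eq_zero, sub_eq_zero]; exact hPab)
    funext x
    by_cases hx : x ∈ Y
    · have h7 := hω x hx a ha
      rw [h2, sub_zero, h6] at h7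
      simpa using h7
    · exact h1 x hx
  have hev := eventually_injective P0 P hclosed hhom h0
  have hev2 : ∀ᶠ m : V → ℂ in 𝓝 P0, m b ≠ m a :=
    (isOpen_ne_fun (continuous_apply b) (continuous_apply a)).mem_nhds hPab
  have htend : Tendsto (fun Q : V → ℂ => fun x => (P0 x + Q x) / 2) (𝓝 P0) (𝓝 P0) := by
    have hc : Continuous (fun Q : V → ℂ => fun x => (P0 x + Q x) / 2) := by fun_prop
    have h1 := hc.tendsto P0
    have h2 : (fun x => (P0 x + P0 x) / 2) = P0 := by
      funext x; ring
    rwa [h2] at h1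
  filter_upwards [htend.eventually hev, htend.eventually hev2] with Q hQ hQne hQE
  have hid : ∀ u v, ip ((P0 u + Q u) / 2 - (P0 v + Q v) / 2) ((P0 u - Q u) / 2 - (P0 v - Q v) / 2)
      = (normSq (P0 u - P0 v) - normSq (Q u - Q v)) / 4 := by
    intro u v
    unfold ip
    rw [normSq_apply, normSq_apply]
    simp
    ring
  set m : V → ℂ := fun x => (P0 x + Q x) / 2 with hm
  set d : V → ℂ := fun x => (P0 x - Q x) / 2 with hd
  have hn : normSq (m b - m a) ≠ 0 := by
    rw [Ne, normSq_eq_zero, sub_eq_zero]; exact hQne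
  obtain ⟨ω, hω⟩ : ∃ ω : ℝ, ω * normSq (m b - m a) = crs (m b - m a) (d b - d a) :=
    ⟨_, div_mul_cancel₀ _ hn⟩
  have hδ := hQ (fun x => if x ∈ Y then d x - d a - (ω * I) * (m x - m a) else 0) ⟨?_, ?_, ?_, ?_⟩
  · have key : ∀ x ∈ Y, d x - d a = (ω * I) * (m x - m a) := by
      intro x hx
      have h1 := congrFun hδ x
      simp only [hx, if_true, Pi.zero_apply] at h1
      exact sub_eq_zero.1 h1
    intro u hu v hv
    have h2 := hid u v
    have h3 : ip (m u - m v) (d u - d v) = 0 := by
      have : d u - d v = (ω * I) * (m u - m v) := by linear_combination key u hu - key v hv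
      rw [this]
      exact ip_omega _ _
    have h4 : ip (m u - m v) (d u - d v) = (normSq (P0 u - P0 v) - normSq (Q u - Q v)) / 4 := h2
    rw [h3] at h4
    linarith
  · intro x hx
    simp only [hx, if_false]
  · simp only [ha, if_true, sub_self, mul_zero]
  · simp only [hb, if_true]
    have h1 := crs_omega (m b - m a) ω
    unfold crs at h1 hω ⊢
    simp only [sub_re, sub_im] at h1 hω ⊢
    linear_combination (-1) * hω - h1
  · intro u v huv
    obtain ⟨hu, hv⟩ := hE u v huv
    simp only [hu, hv, if_true]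
    have h1 := hid u v
    rw [hQE u v huv, sub_self, zero_div] at h1
    have h2 : ip (m u - m v) (d u - d v) = 0 := h1
    have h3 := ip_omega (m u - m v) ω
    unfold ip at h2 h3 ⊢
    simp only [sub_re, sub_im, mul_re, mul_im, ofReal_re, ofReal_im, I_re, I_im] at h2 h3 ⊢
    linear_combination h2 - h3

/-- the complex form of a configuration -/
def toC (x : V × Fin 2 → ℝ) : V → ℂ := fun v => ⟨x (v, 0), x (v, 1)⟩

/-- the real form of a configuration -/
def ofC (P : V → ℂ) : V × Fin 2 → ℝ := fun i => if i.2 = 0 then (P i.1).re else (P i.1).im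

@[simp] lemma toC_ofC (P : V → ℂ) : toC (ofC P) = P := by
  funext v
  apply Complex.ext <;> simp [toC, ofC]

lemma continuous_toC : Continuous (toC : (V × Fin 2 → ℝ) → V → ℂ) := by
  refine continuous_pi fun v => ?_
  have h : (fun x : V × Fin 2 → ℝ => toC x v) = fun x => (x (v, 0) : ℂ) + (x (v, 1) : ℂ) * I := by
    funext x
    exact (Complex.re_add_im _).symm
  rw [h]
  fun_prop

/-- Body conditions transfer between generic points. -/
lemma bodyInf_transfer {x x' : V × Fin 2 → ℝ} {T : ℝ →+ ℝ}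
    (hT : ∀ (f : MvPolynomial (V × Fin 2) ℚ) (r : ℝ), T (aeval x f * r) = aeval x' f * T r)
    {δ : V → ℂ} {S : Finset V} (h : BodyInf (toC x) δ S) :
    BodyInf (toC x') (fun v => ⟨T (δ v).re, T (δ v).im⟩) S := by
  obtain ⟨ω, hω⟩ := h
  refine ⟨T ω, fun a ha b hb => ?_⟩
  have h1 := hω a ha b hb
  have h2 : ∀ k, T ((x (a, k) - x (b, k)) * ω) = (x' (a, k) - x' (b, k)) * T ω := by
    intro k
    have := hT (X (a, k) - X (b, k)) ω
    simpa only [map_sub, aeval_X] using this
  have e1 : (δ a).re - (δ b).re = -((x (a, 1) - x (b, 1)) * ω) := by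
    have := congrArg Complex.re h1
    simp [toC] at this
    linarith
  have e2 : (δ a).im - (δ b).im = (x (a, 0) - x (b, 0)) * ω := by
    have := congrArg Complex.im h1
    simp [toC] at this
    linarith
  apply Complex.ext
  · simp only [toC, sub_re, mul_re, ofReal_re, ofReal_im, I_re, I_im, mul_im, sub_im]
    rw [← map_sub, e1, map_neg, h2]
    ring
  · simp only [toC, sub_re, mul_re, ofReal_re, ofReal_im, I_re, I_im, mul_im, sub_im]
    rw [← map_sub, e2, h2]
    ring

/-- A tight sparse family is infinitesimally rigid at every generic point. -/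
theorem generic_body {Y : Finset V} {G : Multiset (Finset V)} (htwo : ∀ S ∈ G, 2 ≤ S.card)
    (hsub : ∀ S ∈ G, S ⊆ Y) (hsparse : Sparse G) (htight : Tight G Y) {x : V × Fin 2 → ℝ}
    (hx : AlgebraicIndependent ℚ x) (δ : V → ℂ) (hδ : ∀ S ∈ G, BodyInf (toC x) δ S) :
    BodyInf (toC x) δ Y := by
  classical
  obtain ⟨R, F, rfl⟩ : ∃ R F, G = R ::ₘ F := by
    have : G ≠ 0 := by
      rintro rfl
      have := htight.1
      have := htight.2
      rw [val_zero] at this
      omega
    obtain ⟨R, hR⟩ := Multiset.exists_mem_of_ne_zero this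
    obtain ⟨F, hF⟩ := Multiset.exists_cons_of_mem hR
    exact ⟨R, F, hF⟩
  have hR2 : 2 ≤ R.card := htwo R (Multiset.mem_cons_self _ _)
  have hRY : R ⊆ Y := hsub R (Multiset.mem_cons_self _ _)
  have hRW : R ∪ (Y \ R) = Y := Finset.union_sdiff_of_subset hRY
  have hTS : TS R (Y \ R) F := by
    refine ⟨fun S hS => htwo S (Multiset.mem_cons_of_mem hS), fun S hS => ?_, hsparse, ?_⟩
    · rw [hRW]
      exact hsub S (Multiset.mem_cons_of_mem hS)
    · have h1 := htight.2
      rw [val_cons, Finset.inter_eq_left.2 hRY] at h1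
      have h2 : val F Y = (F.map fun S => g S.card).sum := by
        unfold val
        congr 1
        apply Multiset.map_congr rfl
        intro S hS
        rw [Finset.inter_eq_left.2 (hsub S (Multiset.mem_cons_of_mem hS))]
      rw [h2] at h1
      have h3 := Finset.card_sdiff_add_card_eq_card hRY
      unfold g at h1 ⊢
      omega
  have hdisj : Disjoint R (Y \ R) := Finset.disjoint_sdiff
  -- a regular point
  obtain ⟨e⟩ : Nonempty (V ≃ Fin (Fintype.card V)) := ⟨Fintype.equivFin V⟩
  have hinj0 : ∀ a ∈ R, ∀ b ∈ R, a ≠ b → (((e a : ℕ) : ℂ)) ≠ ((e b : ℕ) : ℂ) := by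
    intro a _ b _ hab h
    apply hab
    apply e.injective
    exact Fin.ext (by exact_mod_cast h)
  obtain ⟨P0, _, _, _, hgood⟩ := exists_good hR2 hinj0 hinj0 _ (Y \ R) F rfl hTS hdisj
  have hnd : ND F P0 := hgood.gpp.nd hTS.two hTS.sub
  have hopen := reg_open hTS.sub hgood.regp hnd
  obtain ⟨x', hx'gen, hx'reg⟩ : ∃ x' : V × Fin 2 → ℝ, AlgebraicIndependent ℚ x' ∧
      Reg R (Y \ R) F (toC x') := by
    have h1 : ∀ᶠ y in 𝓝 (ofC P0), Reg R (Y \ R) F (toC y) := by
      have := continuous_toC.tendsto (ofC P0)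
      rw [toC_ofC] at this
      exact this.eventually hopen
    obtain ⟨U, hU1, hU2, hU3⟩ := _root_.mem_nhds_iff.1 h1
    have hempty : AlgebraicIndepOn ℚ (ofC P0) (∅ : Set (V × Fin 2)) := by
      unfold AlgebraicIndepOn
      rw [algebraicIndependent_empty_type_iff]
      exact (algebraMap ℚ ℝ).injective
    obtain ⟨x', h2, _, h3⟩ := exists_generic hempty hU2 hU3
    exact ⟨x', h3, hU1 h2⟩
  -- subtract the trivial motion
  obtain ⟨a, ha⟩ : R.Nonempty := Finset.card_pos.1 (by omega)
  obtain ⟨ω, hω⟩ := hδ R (Multiset.mem_cons_self _ _)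
  set δ' : V → ℂ := fun v => δ v - δ a - (ω * I) * (toC x v - toC x a) with hδ'
  have hδ'R : ∀ v ∈ R, δ' v = 0 := by
    intro v hv
    simp only [hδ']
    rw [hω v hv a ha, sub_self]
  have hδ'F : ∀ S ∈ F, BodyInf (toC x) δ' S := by
    intro S hS
    obtain ⟨ω', hω'⟩ := hδ S (Multiset.mem_cons_of_mem hS)
    refine ⟨ω' - ω, fun c hc d hd => ?_⟩
    simp only [hδ']
    push_cast
    linear_combination hω' c hc d hd
  have hzero : ∀ v ∈ Y \ R, δ' v = 0 := by
    intro v hv
    by_contra hne
    obtain ⟨r0, hr0, hr0'⟩ : ∃ r0 : ℝ, r0 ≠ 0 ∧ (r0 = (δ' v).re ∨ r0 = (δ' v).im) := by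
      by_contra hcon
      push Not at hcon
      apply hne
      apply Complex.ext
      · by_contra h
        exact (hcon _ h).1 rfl
      · by_contra h
        exact (hcon _ h).2 rfl
    obtain ⟨T, hT0, hT⟩ := exists_transfer hx hx'gen hr0
    have h1 := hx'reg (fun v => ⟨T (δ' v).re, T (δ' v).im⟩)
      (fun y hy => by
        rw [hδ'R y hy]
        simp only [zero_re, zero_im, map_zero]
        rfl)
      (fun S hS => bodyInf_transfer hT (hδ'F S hS)) v hv
    apply hT0
    rcases hr0' with h2 | h2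
    · rw [h2]
      exact congrArg Complex.re h1
    · rw [h2]
      exact congrArg Complex.im h1
  have hall : ∀ v ∈ Y, δ v - δ a = (ω * I) * (toC x v - toC x a) := by
    intro v hv
    have : δ' v = 0 := by
      by_cases h : v ∈ R
      · exact hδ'R v h
      · exact hzero v (Finset.mem_sdiff.2 ⟨hv, h⟩)
    exact sub_eq_zero.1 this
  refine ⟨ω, fun c hc d hd => ?_⟩
  linear_combination hall c hc - hall d hd

end Pool.Agent.Helper20_Rig
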