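import Pool.Agent.Helper20_Rig.Finish

/-!
# Existence of good pairs for tight sparse families
-/

set_option autoImplicit false
set_option linter.unusedSectionVars false

open Complex Filter Topology

namespace Pool.Agent.Helper20_Rig

variable {V : Type*} [DecidableEq V]

lemma upd_of_mem {α : Type*} {p : V → α} {w : V} {z : α} {S : Finset V} (hw : w ∉ S) :
    ∀ x ∈ S, Function.update p w z x = p x := by
  intro x hx
  rw [Function.update_of_ne]
  rintro rfl
  exact hw hx

/-- If `w ∈ S` is put at the position of `b ∈ S`, the relation of `S \ w` extends to `S`. -/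
lemma bodyRel_put {p q : V → ℂ} {S : Finset V} {w b : V} (hb : b ∈ S) (hbw : b ≠ w)
    (h : BodyRel p q (S.erase w)) :
    BodyRel (Function.update p w (p b)) (Function.update q w (q b)) S := by
  obtain ⟨u, hu, hrel⟩ := h
  have key : ∀ a ∈ S, ∃ a' ∈ S.erase w, Function.update p w (p b) a = p a' ∧
      Function.update q w (q b) a = q a' := by
    intro a ha
    by_cases haw : a = w
    · subst haw
      exact ⟨b, Finset.mem_erase.2 ⟨hbw, hb⟩, by rw [Function.update_self], by
        rw [Function.update_self]⟩
    · exact ⟨a, Finset.mem_erase.2 ⟨haw, ha⟩, by rw [Function.update_of_ne haw], by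
        rw [Function.update_of_ne haw]⟩
  refine ⟨u, hu, fun a ha a' ha' => ?_⟩
  obtain ⟨x, hx, e1, e2⟩ := key a ha
  obtain ⟨y, hy, e3, e4⟩ := key a' ha'
  rw [e1, e2, e3, e4]
  exact hrel x hx y hy

lemma bodyInf_put {q δ : V → ℂ} {S : Finset V} {w b : V} (hwS : w ∈ S) (hb : b ∈ S) (hbw : b ≠ w)
    (h : BodyInf (Function.update q w (q b)) δ S) : δ w = δ b ∧ BodyInf q δ (S.erase w) := by
  obtain ⟨ω, hω⟩ := h
  constructor
  · have := hω w hwS b hb
    rw [Function.update_self, Function.update_of_ne hbw, sub_self, mul_zero] at this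
    exact sub_eq_zero.1 this
  · refine ⟨ω, fun a ha a' ha' => ?_⟩
    rw [Finset.mem_erase] at ha ha'
    have := hω a ha.2 a' ha'.2
    rwa [Function.update_of_ne ha.1, Function.update_of_ne ha'.1] at this

lemma bodyInf_upd {q δ : V → ℂ} {S : Finset V} {w : V} {z : ℂ} (hw : w ∉ S)
    (h : BodyInf (Function.update q w z) δ S) : BodyInf q δ S :=
  h.congr (fun x hx => (upd_of_mem hw x hx).symm) (fun _ _ => rfl)

lemma bodyRel_upd {p q : V → ℂ} {S : Finset V} {w : V} {z z' : ℂ} (hw : w ∉ S)
    (h : BodyRel p q S) : BodyRel (Function.update p w z) (Function.update q w z') S :=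
  h.congr (upd_of_mem hw) (upd_of_mem hw)

section steps

variable {R W : Finset V} {F0 : Multiset (Finset V)} {w : V}

lemma mem_W_cases (hw : w ∈ W) {x : V} (hx : x ∈ W) : x = w ∨ x ∈ W.erase w := by
  by_cases h : x = w
  · exact Or.inl h
  · exact Or.inr (Finset.mem_erase.2 ⟨h, hx⟩)

/-- regularity for the step with one body -/
lemma reg_body {S : Finset V} {b : V} (hw : w ∈ W) (hF0 : ∀ S ∈ F0, w ∉ S) (hwS : w ∈ S)
    (hb : b ∈ S) (hbw : b ≠ w) (hsub : S ⊆ R ∪ W) {q : V → ℂ}
    (hreg : Reg R (W.erase w) (S.erase w ::ₘ F0) q) :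
    Reg R W (S ::ₘ F0) (Function.update q w (q b)) := by
  intro δ hδ hF
  obtain ⟨h1, h2⟩ := bodyInf_put hwS hb hbw (hF S (Multiset.mem_cons_self _ _))
  have h3 := hreg δ hδ (fun T hT => by
    rcases Multiset.mem_cons.1 hT with rfl | hT
    · exact h2
    · exact bodyInf_upd (hF0 T hT) (hF T (Multiset.mem_cons_of_mem hT)))
  intro x hx
  rcases mem_W_cases hw hx with rfl | hx
  · rw [h1]
    rcases Finset.mem_union.1 (hsub hb) with h4 | h4
    · exact hδ b h4
    · exact h3 b (Finset.mem_erase.2 ⟨hbw, h4⟩)
  · exact h3 x hx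

/-- regularity for the step with one body and a bar -/
lemma reg_body_bar {S : Finset V} {b u : V} (hw : w ∈ W) (hF0 : ∀ S ∈ F0, w ∉ S) (hwS : w ∈ S)
    (hb : b ∈ S) (hbw : b ≠ w) (huS : u ∉ S) (hsub : S ⊆ R ∪ W) {q : V → ℂ}
    (hreg : Reg R (W.erase w) (S.erase w ::ₘ {u, b} ::ₘ F0) q) :
    Reg R W (S ::ₘ {w, u} ::ₘ F0) (Function.update q w (q b)) := by
  intro δ hδ hF
  have huw : u ≠ w := fun h => huS (h ▸ hwS)
  obtain ⟨h1, h2⟩ := bodyInf_put hwS hb hbw (hF S (Multiset.mem_cons_self _ _))
  have hbar : BodyInf q δ {u, b} := by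
    obtain ⟨ω, hω⟩ := hF {w, u} (by simp)
    have h5 := hω w (by simp) u (by simp)
    have h6 := hω u (by simp) w (by simp)
    rw [Function.update_self, Function.update_of_ne huw, h1] at h5 h6
    refine ⟨ω, fun x hx y hy => ?_⟩
    simp only [Finset.mem_insert, Finset.mem_singleton] at hx hy
    rcases hx with rfl | rfl <;> rcases hy with rfl | rfl
    · ring
    · exact h6
    · exact h5
    · ring
  have h3 := hreg δ hδ (fun T hT => by
    rcases Multiset.mem_cons.1 hT with rfl | hT
    · exact h2
    rcases Multiset.mem_cons.1 hT with rfl | hT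
    · exact hbar
    · exact bodyInf_upd (hF0 T hT) (hF T (by simp [hT])))
  intro x hx
  rcases mem_W_cases hw hx with rfl | hx
  · rw [h1]
    rcases Finset.mem_union.1 (hsub hb) with h4 | h4
    · exact hδ b h4
    · exact h3 b (Finset.mem_erase.2 ⟨hbw, h4⟩)
  · exact h3 x hx

/-- regularity for the step with two bars -/
lemma reg_two {u v : V} (hw : w ∈ W) (hF0 : ∀ S ∈ F0, w ∉ S) (huw : u ≠ w) (hvw : v ≠ w)
    (hu : u ∈ R ∪ W) (hv : v ∈ R ∪ W) {q : V → ℂ} {z : ℂ}
    (hcr : crz (q u) (q v) z ≠ 0) (hreg : Reg R (W.erase w) F0 q) :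
    Reg R W ({w, u} ::ₘ {w, v} ::ₘ F0) (Function.update q w z) := by
  intro δ hδ hF
  have h3 := hreg δ hδ (fun T hT => bodyInf_upd (hF0 T hT) (hF T (by simp [hT])))
  have h4 : ∀ x, x ≠ w → x ∈ R ∪ W → δ x = 0 := by
    intro x hxw hx
    rcases Finset.mem_union.1 hx with h4 | h4
    · exact hδ x h4
    · exact h3 x (Finset.mem_erase.2 ⟨hxw, h4⟩)
  intro x hx
  rcases mem_W_cases hw hx with rfl | hx
  · have h5 := (hF {x, u} (by simp)).ip_eq (a := x) (b := u) (by simp) (by simp)
    have h6 := (hF {x, v} (by simp)).ip_eq (a := x) (b := v) (by simp) (by simp)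
    rw [Function.update_self, Function.update_of_ne huw, h4 u huw hu, sub_zero] at h5
    rw [Function.update_self, Function.update_of_ne hvw, h4 v hvw hv, sub_zero] at h6
    exact eq_zero_of_ip hcr h5 h6
  · exact h3 x hx

/-- The motions which are blocked by a bar `uv` form a line. -/
lemma kernel_line {u v : V} (hu : u ∈ R ∪ W) (hv : v ∈ R ∪ W) (hsub : ∀ S ∈ F0, S ⊆ R ∪ W)
    {q : V → ℂ} (hne : q u ≠ q v) (hreg : Reg R W ({u, v} ::ₘ F0) q) :
    ∃ m : V → ℂ, ip (q v - q u) (m v - m u) ≠ 0 ∧
      ∀ δ : V → ℂ, (∀ x ∈ R, δ x = 0) → (∀ S ∈ F0, BodyInf q δ S) →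
        ∃ c : ℝ, ∀ x ∈ R ∪ W, δ x = c * m x := by
  have huv : u ≠ v := fun h => hne (by rw [h])
  have hbar : ∀ δ : V → ℂ, ip (q v - q u) (δ v - δ u) = 0 → BodyInf q δ {u, v} := by
    intro δ h
    apply bodyInf_pair hne
    unfold ip at h ⊢
    simp only [sub_re, sub_im] at h ⊢
    linear_combination h
  by_cases hK : ∃ m : V → ℂ, (∀ x ∈ R, m x = 0) ∧ (∀ S ∈ F0, BodyInf q m S) ∧
      ip (q v - q u) (m v - m u) ≠ 0
  · obtain ⟨m, hmR, hmF, hm⟩ := hK
    refine ⟨m, hm, fun δ hδ hF => ?_⟩
    set c : ℝ := ip (q v - q u) (δ v - δ u) / ip (q v - q u) (m v - m u) with hc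
    have hc' : c * ip (q v - q u) (m v - m u) = ip (q v - q u) (δ v - δ u) :=
      div_mul_cancel₀ _ hm
    have h1 := hreg (fun x => δ x + (((-c : ℝ) : ℂ) * m x))
      (fun x hx => by rw [hδ x hx, hmR x hx]; ring)
      (fun T hT => by
        rcases Multiset.mem_cons.1 hT with rfl | hT
        · apply hbar
          unfold ip at hc' ⊢
          simp only [sub_re, sub_im, add_re, add_im, mul_re, mul_im, ofReal_re, ofReal_im]
            at hc' ⊢
          linear_combination -hc'
        · exact (hF T hT).add ((hmF T hT).smul (-c)))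
    refine ⟨c, fun x hx => ?_⟩
    rcases Finset.mem_union.1 hx with h2 | h2
    · rw [hδ x h2, hmR x h2, mul_zero]
    · have h3 := h1 x h2
      push_cast at h3
      linear_combination h3
  · push Not at hK
    refine ⟨fun x => if x = v then q v - q u else 0, ?_, fun δ hδ hF => ⟨0, fun x hx => ?_⟩⟩
    · simp only [if_true, huv, if_false, sub_zero]
      rw [ip_self]
      exact (normSq_pos.2 (sub_ne_zero.2 hne.symm)).ne'
    · have h1 := hreg δ hδ (fun T hT => by
        rcases Multiset.mem_cons.1 hT with rfl | hT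
        · exact hbar δ (hK δ hδ hF)
        · exact hF T hT)
      rcases Finset.mem_union.1 hx with h2 | h2
      · rw [hδ x h2]; simp
      · rw [h1 x h2]; simp

/-- regularity for the step with three bars -/
lemma reg_three {u v z : V} (hw : w ∈ W) (hF0 : ∀ S ∈ F0, w ∉ S) (huw : u ≠ w) (hvw : v ≠ w)
    (hzw : z ≠ w) (hu : u ∈ R ∪ W) (hv : v ∈ R ∪ W) (hz : z ∈ R ∪ W) {q m : V → ℂ} {z0 : ℂ}
    (hm : ∀ δ : V → ℂ, (∀ x ∈ R, δ x = 0) → (∀ S ∈ F0, BodyInf q δ S) →
        ∃ c : ℝ, ∀ x ∈ R ∪ W.erase w, δ x = c * m x)
    (hG : GG (q u) (q v) (q z) (m u) (m v) (m z) z0) :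
    Reg R W ({w, u} ::ₘ {w, v} ::ₘ {w, z} ::ₘ F0) (Function.update q w z0) := by
  intro δ hδ hF
  obtain ⟨c, hc⟩ := hm δ hδ (fun T hT => bodyInf_upd (hF0 T hT) (hF T (by simp [hT])))
  have hc' : ∀ x, x ≠ w → x ∈ R ∪ W → δ x = c * m x := by
    intro x hxw hx
    apply hc
    rcases Finset.mem_union.1 hx with h4 | h4
    · exact Finset.mem_union_left _ h4
    · exact Finset.mem_union_right _ (Finset.mem_erase.2 ⟨hxw, h4⟩)
  have h5 := (hF {w, u} (by simp)).ip_eq (a := w) (b := u) (by simp) (by simp)
  have h6 := (hF {w, v} (by simp)).ip_eq (a := w) (b := v) (by simp) (by simp)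
  have h7 := (hF {w, z} (by simp)).ip_eq (a := w) (b := z) (by simp) (by simp)
  rw [Function.update_self, Function.update_of_ne huw, hc' u huw hu] at h5
  rw [Function.update_self, Function.update_of_ne hvw, hc' v hvw hv] at h6
  rw [Function.update_self, Function.update_of_ne hzw, hc' z hzw hz] at h7
  obtain ⟨h8, h9⟩ := hG (δ w) c h5 h6 h7
  intro x hx
  by_cases hxw : x = w
  · rw [hxw, h8]
  · rw [hc' x hxw (Finset.mem_union_right _ hx), h9]
    simp

end steps

variable [Fintype V]

theorem exists_good {R : Finset V} (hR : 2 ≤ R.card) {pR qR : V → ℂ}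
    (hpR : ∀ a ∈ R, ∀ b ∈ R, a ≠ b → pR a ≠ pR b) (hqR : ∀ a ∈ R, ∀ b ∈ R, a ≠ b → qR a ≠ qR b) :
    ∀ (n : ℕ) (W : Finset V) (F : Multiset (Finset V)), W.card = n → TS R W F → Disjoint R W →
      ∃ p q, (∀ x ∈ R, p x = pR x) ∧ (∀ x ∈ R, q x = qR x) ∧ Good R W F p q := by
  intro n
  induction n with
  | zero =>
    intro W F hW hTS _
    have hWe : W = ∅ := Finset.card_eq_zero.1 hW
    subst hWe
    have hF : F = 0 := by
      apply Multiset.eq_zero_of_forall_notMem
      intro S hS
      have h1 := hTS.tight
      have h2 := Multiset.sum_eq_zero_iff.1 h1 _ (Multiset.mem_map_of_mem _ hS)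
      have h3 := hTS.two S hS
      unfold g at h2
      omega
    subst hF
    refine ⟨pR, qR, fun _ _ => rfl, fun _ _ => rfl, ?_, ?_, ?_, ?_, ?_⟩
    · intro S hS; simp at hS
    · intro δ _ _ x hx; simp at hx
    · intro δ _ _ x hx; simp at hx
    · rw [Finset.union_empty]
      exact ⟨hpR, fun a ha b hb c hc _ _ _ h => absurd ⟨ha, hb, hc⟩ h⟩
    · rw [Finset.union_empty]
      exact ⟨hqR, fun a ha b hb c hc _ _ _ h => absurd ⟨ha, hb, hc⟩ h⟩
  | succ n ih =>
    intro W F hW hTS hdisj
    have hWne : W.Nonempty := Finset.card_pos.1 (by omega)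
    obtain ⟨w, hw, F0, hF0, hcases⟩ := hTS.reduce hR hdisj hWne
    have hWc : (W.erase w).card = n := by rw [Finset.card_erase_of_mem hw]; omega
    have hdisj' : Disjoint R (W.erase w) :=
      Finset.disjoint_of_subset_right (Finset.erase_subset _ _) hdisj
    have hwR : w ∉ R := fun h => Finset.disjoint_left.1 hdisj h hw
    have hwA : w ∉ R ∪ W.erase w := by simp [hwR]
    have hdone : ∀ p q : V → ℂ, (∀ x ∈ R, p x = pR x) → (∀ x ∈ R, q x = qR x) →
        ∀ z z' : ℂ, (∀ S ∈ F, BodyRel (Function.update p w z) (Function.update q w z') S) →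
        Reg R W F (Function.update q w z') → ND F (Function.update q w z') →
        GP R (R ∪ W.erase w) p → GP R (R ∪ W.erase w) q →
        (∀ U ∈ 𝓝 z, ∃ z0 ∈ U, Reg R W F (Function.update p w z0)) →
        ∃ p q, (∀ x ∈ R, p x = pR x) ∧ (∀ x ∈ R, q x = qR x) ∧ Good R W F p q := by
      intro p q hp hq z z' h1 h2 h3 h4 h5 h6
      obtain ⟨p', q', h7, h8, h9⟩ := finish hTS hR hdisj hw h1 h2 h3 (h4.congr (upd_of_mem hwA))
        (h5.congr (upd_of_mem hwA)) (by
          intro U hU
          rw [Function.update_self] at hU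
          obtain ⟨z0, hz0, hr⟩ := h6 U hU
          refine ⟨z0, hz0, ?_⟩
          rw [Function.update_idem]
          exact hr)
      refine ⟨p', q', fun x hx => ?_, fun x hx => ?_, h9⟩
      · rw [h7 x hx, upd_of_mem hwR x hx, hp x hx]
      · rw [h8 x hx, upd_of_mem hwR x hx, hq x hx]
    have hself : ∀ (z : ℂ) (p : V → ℂ), Reg R W F (Function.update p w z) →
        ∀ U ∈ 𝓝 z, ∃ z0 ∈ U, Reg R W F (Function.update p w z0) :=
      fun z p h U hU => ⟨z, mem_of_mem_nhds hU, h⟩
    rcases hcases with ⟨S, hwS, hS3, hFe, hTS'⟩ | ⟨u, v, huv, huw, hvw, hFe, hTS'⟩ |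
      ⟨S, u, b, hwS, hS3, huS, hbS, hbw, hFe, hTS'⟩ |
      ⟨u, v, z, huv, hvz, huz, huw, hvw, hzw, hnR, hFe, hTS'⟩
    · -- one body
      obtain ⟨p, q, hp, hq, hgood⟩ := ih (W.erase w) _ hWc hTS' hdisj'
      have hSF : S ∈ F := by rw [hFe]; simp
      obtain ⟨b, hb⟩ : (S.erase w).Nonempty := by
        rw [← Finset.card_pos, Finset.card_erase_of_mem hwS]; omega
      have hb' := Finset.mem_erase.1 hb
      have hregq := reg_body hw hF0 hwS hb'.2 hb'.1 (hTS.sub S hSF) hgood.regq
      have hregp := reg_body hw hF0 hwS hb'.2 hb'.1 (hTS.sub S hSF) hgood.regp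
      rw [← hFe] at hregq hregp
      refine hdone p q hp hq (p b) (q b) ?_ hregq ?_ hgood.gpp hgood.gpq (hself _ _ hregp)
      · intro T hT
        rw [hFe] at hT
        rcases Multiset.mem_cons.1 hT with rfl | hT
        · exact bodyRel_put hb'.2 hb'.1 (hgood.compat _ (Multiset.mem_cons_self _ _))
        · exact bodyRel_upd (hF0 T hT) (hgood.compat T (Multiset.mem_cons_of_mem hT))
      · have hnd := hgood.gpq.nd hTS'.two hTS'.sub
        intro T hT
        rw [hFe] at hT
        rcases Multiset.mem_cons.1 hT with rfl | hT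
        · obtain ⟨x, hx, y, hy, hxy⟩ := hnd _ (Multiset.mem_cons_self _ _)
          refine ⟨x, Finset.mem_of_mem_erase hx, y, Finset.mem_of_mem_erase hy, ?_⟩
          rw [Function.update_of_ne (Finset.ne_of_mem_erase hx),
            Function.update_of_ne (Finset.ne_of_mem_erase hy)]
          exact hxy
        · obtain ⟨x, hx, y, hy, hxy⟩ := hnd T (Multiset.mem_cons_of_mem hT)
          refine ⟨x, hx, y, hy, ?_⟩
          rw [upd_of_mem (hF0 T hT) x hx, upd_of_mem (hF0 T hT) y hy]
          exact hxy
    · -- two bars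
      obtain ⟨p, q, hp, hq, hgood⟩ := ih (W.erase w) _ hWc hTS' hdisj'
      have h1F : ({w, u} : Finset V) ∈ F := by rw [hFe]; simp
      have h2F : ({w, v} : Finset V) ∈ F := by rw [hFe]; simp
      have hu : u ∈ R ∪ W := hTS.sub _ h1F (by simp)
      have hv : v ∈ R ∪ W := hTS.sub _ h2F (by simp)
      have hmem : ∀ x, x ≠ w → x ∈ R ∪ W → x ∈ R ∪ W.erase w := by
        intro x hxw hx
        rcases Finset.mem_union.1 hx with h4 | h4
        · exact Finset.mem_union_left _ h4
        · exact Finset.mem_union_right _ (Finset.mem_erase.2 ⟨hxw, h4⟩)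
      have hpuv := hgood.gpp.inj u (hmem u huw hu) v (hmem v hvw hv) huv
      have hquv := hgood.gpq.inj u (hmem u huw hu) v (hmem v hvw hv) huv
      obtain ⟨r, hr1, hr2⟩ : ∃ r : ℝ, normSq (p v - p u) < r ∧ normSq (q v - q u) < r :=
        ⟨max (normSq (p v - p u)) (normSq (q v - q u)) + 1,
          lt_of_le_of_lt (le_max_left _ _) (lt_add_one _),
          lt_of_le_of_lt (le_max_right _ _) (lt_add_one _)⟩
      obtain ⟨z, hz1, hz2, hz3⟩ := exists_apex hpuv hr1
      obtain ⟨z', hz1', hz2', hz3'⟩ := exists_apex hquv hr2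
      have hregq := reg_two hw hF0 huw hvw hu hv hz3' hgood.regq
      have hregp := reg_two hw hF0 huw hvw hu hv hz3 hgood.regp
      rw [← hFe] at hregq hregp
      have hrpos : 0 < r := lt_of_le_of_lt (normSq_nonneg _) hr1
      have hne : ∀ {A B : ℂ}, normSq (A - B) = r → A ≠ B := by
        rintro A B h rfl
        rw [sub_self, map_zero] at h
        exact hrpos.ne h
      refine hdone p q hp hq z z' ?_ hregq ?_ hgood.gpp hgood.gpq (hself _ _ hregp)
      · intro T hT
        rw [hFe] at hT
        rcases Multiset.mem_cons.1 hT with rfl | hT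
        · apply bodyRel_pair
          · rw [Function.update_self, Function.update_of_ne huw]
            exact hne hz1
          · rw [Function.update_self, Function.update_of_ne huw, Function.update_self,
              Function.update_of_ne huw, hz1, hz1']
        rcases Multiset.mem_cons.1 hT with rfl | hT
        · apply bodyRel_pair
          · rw [Function.update_self, Function.update_of_ne hvw]
            exact hne hz2
          · rw [Function.update_self, Function.update_of_ne hvw, Function.update_self,
              Function.update_of_ne hvw, hz2, hz2']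
        · exact bodyRel_upd (hF0 T hT) (hgood.compat T hT)
      · have hnd := hgood.gpq.nd hTS'.two hTS'.sub
        intro T hT
        rw [hFe] at hT
        rcases Multiset.mem_cons.1 hT with rfl | hT
        · refine ⟨w, by simp, u, by simp, ?_⟩
          rw [Function.update_self, Function.update_of_ne huw]
          exact hne hz1'
        rcases Multiset.mem_cons.1 hT with rfl | hT
        · refine ⟨w, by simp, v, by simp, ?_⟩
          rw [Function.update_self, Function.update_of_ne hvw]
          exact hne hz2'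
        · obtain ⟨x, hx, y, hy, hxy⟩ := hnd T hT
          refine ⟨x, hx, y, hy, ?_⟩
          rw [upd_of_mem (hF0 T hT) x hx, upd_of_mem (hF0 T hT) y hy]
          exact hxy
    · -- a body and a bar
      obtain ⟨p, q, hp, hq, hgood⟩ := ih (W.erase w) _ hWc hTS' hdisj'
      have hSF : S ∈ F := by rw [hFe]; simp
      have huw : u ≠ w := fun h => huS (h ▸ hwS)
      have hub : u ≠ b := fun h => huS (h ▸ hbS)
      have hregq := reg_body_bar hw hF0 hwS hbS hbw huS (hTS.sub S hSF) hgood.regq
      have hregp := reg_body_bar hw hF0 hwS hbS hbw huS (hTS.sub S hSF) hgood.regp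
      rw [← hFe] at hregq hregp
      have hubsub := hTS'.sub {u, b} (by simp)
      have hpub := hgood.gpp.inj u (hubsub (by simp)) b (hubsub (by simp)) hub
      have hqub := hgood.gpq.inj u (hubsub (by simp)) b (hubsub (by simp)) hub
      refine hdone p q hp hq (p b) (q b) ?_ hregq ?_ hgood.gpp hgood.gpq (hself _ _ hregp)
      · intro T hT
        rw [hFe] at hT
        rcases Multiset.mem_cons.1 hT with rfl | hT
        · exact bodyRel_put hbS hbw (hgood.compat _ (Multiset.mem_cons_self _ _))
        rcases Multiset.mem_cons.1 hT with rfl | hT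
        · apply bodyRel_pair
          · rw [Function.update_self, Function.update_of_ne huw]
            exact hpub.symm
          · rw [Function.update_self, Function.update_of_ne huw, Function.update_self,
              Function.update_of_ne huw]
            exact (hgood.compat {u, b} (by simp)).normSq_eq (by simp) (by simp)
        · exact bodyRel_upd (hF0 T hT) (hgood.compat T (by simp [hT]))
      · have hnd := hgood.gpq.nd hTS'.two hTS'.sub
        intro T hT
        rw [hFe] at hT
        rcases Multiset.mem_cons.1 hT with rfl | hT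
        · obtain ⟨x, hx, y, hy, hxy⟩ := hnd _ (Multiset.mem_cons_self _ _)
          refine ⟨x, Finset.mem_of_mem_erase hx, y, Finset.mem_of_mem_erase hy, ?_⟩
          rw [Function.update_of_ne (Finset.ne_of_mem_erase hx),
            Function.update_of_ne (Finset.ne_of_mem_erase hy)]
          exact hxy
        rcases Multiset.mem_cons.1 hT with rfl | hT
        · refine ⟨w, by simp, u, by simp, ?_⟩
          rw [Function.update_self, Function.update_of_ne huw]
          exact hqub.symm
        · obtain ⟨x, hx, y, hy, hxy⟩ := hnd T (by simp [hT])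
          refine ⟨x, hx, y, hy, ?_⟩
          rw [upd_of_mem (hF0 T hT) x hx, upd_of_mem (hF0 T hT) y hy]
          exact hxy
    · -- three bars
      obtain ⟨p, q, hp, hq, hgood⟩ := ih (W.erase w) _ hWc hTS' hdisj'
      have h1F : ({w, u} : Finset V) ∈ F := by rw [hFe]; simp
      have h2F : ({w, v} : Finset V) ∈ F := by rw [hFe]; simp
      have h3F : ({w, z} : Finset V) ∈ F := by rw [hFe]; simp
      have hu : u ∈ R ∪ W := hTS.sub _ h1F (by simp)
      have hv : v ∈ R ∪ W := hTS.sub _ h2F (by simp)
      have hz : z ∈ R ∪ W := hTS.sub _ h3F (by simp)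
      have hmem : ∀ x, x ≠ w → x ∈ R ∪ W → x ∈ R ∪ W.erase w := by
        intro x hxw hx
        rcases Finset.mem_union.1 hx with h4 | h4
        · exact Finset.mem_union_left _ h4
        · exact Finset.mem_union_right _ (Finset.mem_erase.2 ⟨hxw, h4⟩)
      have hu' := hmem u huw hu
      have hv' := hmem v hvw hv
      have hz' := hmem z hzw hz
      have hF0sub : ∀ S ∈ F0, S ⊆ R ∪ W.erase w := fun S hS => hTS'.sub S (by simp [hS])
      have hpuv := hgood.gpp.inj u hu' v hv' huv
      have hquv := hgood.gpq.inj u hu' v hv' huv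
      have hcrp := hgood.gpp.cr u hu' v hv' z hz' huv hvz huz hnR
      have hcrq := hgood.gpq.cr u hu' v hv' z hz' huv hvz huz hnR
      have hAB : normSq (p v - p u) = normSq (q v - q u) :=
        ((hgood.compat {u, v} (by simp)).normSq_eq (by simp) (by simp)).symm
      obtain ⟨m, hm, hmline⟩ := kernel_line hu' hv' hF0sub hquv hgood.regq
      obtain ⟨m', hm', hmline'⟩ := kernel_line hu' hv' hF0sub hpuv hgood.regp
      obtain ⟨z1, z1', e1, e2, e3, hG⟩ := exists_pair_three (mz := m z) hquv hAB hcrq hcrp hm
      have hregq := reg_three hw hF0 huw hvw hzw hu hv hz hmline hG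
      rw [← hFe] at hregq
      have hreggen : ∀ z0, GG (p u) (p v) (p z) (m' u) (m' v) (m' z) z0 →
          Reg R W F (Function.update p w z0) := by
        intro z0 hG'
        rw [hFe]
        exact reg_three hw hF0 huw hvw hzw hu hv hz hmline' hG'
      have hne : ∀ x ∈ ({u, v, z} : Finset V), z1 ≠ q x := by
        intro x hx h
        -- if the new point coincides with an old one, `GG` fails
        have hpt : ∀ A B C mu mv mz : ℂ, crz A B C ≠ 0 → (C ≠ 0 ∨ True) →
            GG A B C mu mv mz A → False := by
          intro A B C mu mv mz hcr _ hGG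
          -- solve two linear equations
          have hdet : (A - B).re * (A - C).im - (A - B).im * (A - C).re ≠ 0 := by
            have : (A - B).re * (A - C).im - (A - B).im * (A - C).re = crz A B C := by
              unfold crz; simp only [sub_re, sub_im]; ring
            rw [this]; exact hcr
          set D := (A - B).re * (A - C).im - (A - B).im * (A - C).re with hD
          set e := ip (A - B) mv with he
          set f := ip (A - C) mz with hf
          have h1 := hGG ⟨(e * (A - C).im - f * (A - B).im) / D,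
            (f * (A - B).re - e * (A - C).re) / D⟩ 1 (by unfold ip; simp)
            (by
              unfold ip at he ⊢
              simp only [ofReal_one, one_mul, sub_re, sub_im] at he hD ⊢
              field_simp
              rw [he, hD]
              ring)
            (by
              unfold ip at hf ⊢
              simp only [ofReal_one, one_mul, sub_re, sub_im] at hf hD ⊢
              field_simp
              rw [hf, hD]
              ring)
          exact one_ne_zero h1.2
        simp only [Finset.mem_insert, Finset.mem_singleton] at hx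
        rcases hx with rfl | rfl | rfl
        · rw [h] at hG
          exact hpt _ _ _ _ _ _ hcrq (Or.inr trivial) hG
        · rw [h] at hG
          refine hpt (q x) (q z) (q u) (m x) (m z) (m u) ?_ (Or.inr trivial) ?_
          · rw [crz_perm1]; exact hcrq
          · intro d c g1 g2 g3
            exact hG d c g3 g1 g2
        · rw [h] at hG
          refine hpt (q x) (q u) (q v) (m x) (m u) (m v) ?_ (Or.inr trivial) ?_
          · rw [← crz_perm1]; exact hcrq
          · intro d c g1 g2 g3
            exact hG d c g2 g3 g1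
      have hnep : ∀ {A B A' B' : ℂ}, normSq (A - B) = normSq (A' - B') → A ≠ B → A' ≠ B' := by
        rintro A B A' B' h1 h2 rfl
        rw [sub_self, map_zero, normSq_eq_zero, sub_eq_zero] at h1
        exact h2 h1
      refine hdone p q hp hq z1' z1 ?_ hregq ?_ hgood.gpp hgood.gpq ?_
      · intro T hT
        rw [hFe] at hT
        rcases Multiset.mem_cons.1 hT with rfl | hT
        · apply bodyRel_pair
          · rw [Function.update_self, Function.update_of_ne huw]
            exact hnep e1 (hne u (by simp))
          · rw [Function.update_self, Function.update_of_ne huw, Function.update_self,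
              Function.update_of_ne huw]
            exact e1
        rcases Multiset.mem_cons.1 hT with rfl | hT
        · apply bodyRel_pair
          · rw [Function.update_self, Function.update_of_ne hvw]
            exact hnep e2 (hne v (by simp))
          · rw [Function.update_self, Function.update_of_ne hvw, Function.update_self,
              Function.update_of_ne hvw]
            exact e2
        rcases Multiset.mem_cons.1 hT with rfl | hT
        · apply bodyRel_pair
          · rw [Function.update_self, Function.update_of_ne hzw]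
            exact hnep e3 (hne z (by simp))
          · rw [Function.update_self, Function.update_of_ne hzw, Function.update_self,
              Function.update_of_ne hzw]
            exact e3
        · exact bodyRel_upd (hF0 T hT) (hgood.compat T (by simp [hT]))
      · have hnd := hgood.gpq.nd hTS'.two hTS'.sub
        intro T hT
        rw [hFe] at hT
        rcases Multiset.mem_cons.1 hT with rfl | hT
        · refine ⟨w, by simp, u, by simp, ?_⟩
          rw [Function.update_self, Function.update_of_ne huw]
          exact hne u (by simp)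
        rcases Multiset.mem_cons.1 hT with rfl | hT
        · refine ⟨w, by simp, v, by simp, ?_⟩
          rw [Function.update_self, Function.update_of_ne hvw]
          exact hne v (by simp)
        rcases Multiset.mem_cons.1 hT with rfl | hT
        · refine ⟨w, by simp, z, by simp, ?_⟩
          rw [Function.update_self, Function.update_of_ne hzw]
          exact hne z (by simp)
        · obtain ⟨x, hx, y, hy, hxy⟩ := hnd T (by simp [hT])
          refine ⟨x, hx, y, hy, ?_⟩
          rw [upd_of_mem (hF0 T hT) x hx, upd_of_mem (hF0 T hT) y hy]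
          exact hxy
      · intro U hU
        obtain ⟨z0, hz0, hG'⟩ := dense_GG (mz := m' z) hpuv hcrp hm' z1' hU
        exact ⟨z0, hz0, hreggen z0 hG'⟩

end Pool.Agent.Helper20_Rig
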