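import Pool.Agent.Helper20_Rig.Body

/-!
# Perturbing one framework of a pair
-/

set_option autoImplicit false
set_option linter.unusedSectionVars false

open Complex Filter Topology

namespace Pool.Agent.Helper20_Rig

variable {V : Type*} [DecidableEq V]

/-- square of the norm, as a visibly smooth function -/
noncomputable def nsq (z : ℂ) : ℝ := reCLM z * reCLM z + imCLM z * imCLM z

lemma nsq_eq (z : ℂ) : nsq z = normSq z := by
  rw [normSq_apply]; rfl

section

variable (ι : Type*) (W : Finset V) (S : ι → Finset V) (b c : ι → V)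

/-- The target space of the system. -/
abbrev Tgt : Type _ := (V → ℂ) × (({x : V // x ∉ W} → ℂ) ×
  (∀ i : ι, ℝ × ({a : V // a ∈ S i ∧ a ≠ b i ∧ a ≠ c i} → ℂ)))

/-- The system of equations for pairs of frameworks. -/
noncomputable def Phi (x : (V → ℂ) × (V → ℂ)) : Tgt ι W S b c :=
  (x.1, (fun v => x.2 v.1), fun i => (nsq (x.2 (c i) - x.2 (b i)) - nsq (x.1 (c i) - x.1 (b i)),
    fun a => (x.2 a.1 - x.2 (b i)) * (x.1 (c i) - x.1 (b i)) -
      (x.2 (c i) - x.2 (b i)) * (x.1 a.1 - x.1 (b i))))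

variable [Fintype V] [Fintype ι]

lemma contDiff_Phi : ContDiff ℝ 1 (Phi ι W S b c) := by
  have e1 : ∀ a : V, ContDiff ℝ 1 (fun x : (V → ℂ) × (V → ℂ) => x.1 a) := fun a =>
    (contDiff_apply ℝ ℂ a).comp contDiff_fst
  have e2 : ∀ a : V, ContDiff ℝ 1 (fun x : (V → ℂ) × (V → ℂ) => x.2 a) := fun a =>
    (contDiff_apply ℝ ℂ a).comp contDiff_snd
  have e3 : ∀ f : (V → ℂ) × (V → ℂ) → ℂ, ContDiff ℝ 1 f → ContDiff ℝ 1 (fun x => nsq (f x)) := by
    intro f hf
    unfold nsq
    exact ((reCLM.contDiff.comp hf).mul (reCLM.contDiff.comp hf)).add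
      ((imCLM.contDiff.comp hf).mul (imCLM.contDiff.comp hf))
  unfold Phi
  refine contDiff_fst.prodMk (ContDiff.prodMk ?_ ?_)
  · exact contDiff_pi.2 fun v => e2 v.1
  · refine contDiff_pi.2 fun i => ContDiff.prodMk ?_ (contDiff_pi.2 fun a => ?_)
    · exact (e3 _ ((e2 _).sub (e2 _))).sub (e3 _ ((e1 _).sub (e1 _)))
    · exact (((e2 _).sub (e2 _)).mul ((e1 _).sub (e1 _))).sub
        (((e2 _).sub (e2 _)).mul ((e1 _).sub (e1 _)))

lemma finrank_Tgt (hb : ∀ i, b i ∈ S i) (hc : ∀ i, c i ∈ S i) (hbc : ∀ i, b i ≠ c i)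
    (hsum : ∑ i, g (S i).card = 2 * W.card) :
    Module.finrank ℝ ((V → ℂ) × (V → ℂ)) = Module.finrank ℝ (Tgt ι W S b c) := by
  have h1 : ∀ (α : Type _) [Fintype α], Module.finrank ℝ (α → ℂ) = 2 * Fintype.card α := by
    intro α _
    rw [Module.finrank_pi_fintype]
    simp [Complex.finrank_real_complex, mul_comm]
  have h2 : Fintype.card {x : V // x ∉ W} = Fintype.card V - W.card := by
    rw [Fintype.card_subtype_compl, Fintype.card_coe]
  have hWc : W.card ≤ Fintype.card V := Finset.card_le_univ W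
  have h3 : ∀ i, Fintype.card {a : V // a ∈ S i ∧ a ≠ b i ∧ a ≠ c i} + 2 = (S i).card := by
    intro i
    have : Fintype.card {a : V // a ∈ S i ∧ a ≠ b i ∧ a ≠ c i} =
        (((S i).erase (b i)).erase (c i)).card := by
      apply Fintype.card_of_subtype
      intro x
      simp only [Finset.mem_erase]
      tauto
    rw [this, Finset.card_erase_of_mem (Finset.mem_erase.2 ⟨(hbc i).symm, hc i⟩),
      Finset.card_erase_of_mem (hb i)]
    have : 2 ≤ (S i).card := Finset.one_lt_card.2 ⟨b i, hb i, c i, hc i, hbc i⟩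
    omega
  have h4 : ∀ i, Module.finrank ℝ (ℝ × ({a : V // a ∈ S i ∧ a ≠ b i ∧ a ≠ c i} → ℂ)) =
      g (S i).card := by
    intro i
    rw [Module.finrank_prod, h1, Module.finrank_self]
    have := h3 i
    unfold g
    omega
  have h5 : Module.finrank ℝ (∀ i : ι, ℝ × ({a : V // a ∈ S i ∧ a ≠ b i ∧ a ≠ c i} → ℂ)) =
      2 * W.card := by
    rw [Module.finrank_pi_fintype, Finset.sum_congr rfl (fun i _ => h4 i), hsum]
  rw [Module.finrank_prod, Module.finrank_prod, Module.finrank_prod, h1 V, h1 {x : V // x ∉ W},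
    h2, h5]
  omega

end

section

variable {R W : Finset V} {F : Multiset (Finset V)} [Fintype V]

/-- The main perturbation lemma: if `(p₀, q₀)` is a compatible pair which is regular at `q₀`, then
every `p` near `p₀` has a compatible `q` near `q₀`. -/
theorem exists_compat (htwo : ∀ S ∈ F, 2 ≤ S.card)
    (htight : (F.map fun S => g S.card).sum = 2 * W.card)
    (hsub : ∀ S ∈ F, S ⊆ R ∪ W) (hdisj : Disjoint R W)
    {p0 q0 : V → ℂ} (hcompat : ∀ S ∈ F, BodyRel p0 q0 S) (hreg : Reg R W F q0) (hnd : ND F q0)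
    {N : Set (V → ℂ)} (hN : N ∈ 𝓝 q0) :
    ∀ᶠ p in 𝓝 p0, ∃ q ∈ N, (∀ x ∉ W, q x = q0 x) ∧ ∀ S ∈ F, BodyRel p q S := by
  classical
  let L : List (Finset V) := F.toList
  have hL : ∀ S, S ∈ L ↔ S ∈ F := fun S => Multiset.mem_toList
  let ι := Fin L.length
  let S : ι → Finset V := fun i => L.get i
  have hS : ∀ i, S i ∈ F := fun i => (hL _).1 (List.get_mem L i)
  have hS' : ∀ T ∈ F, ∃ i, S i = T := fun T hT => by
    obtain ⟨i, hi⟩ := List.mem_iff_get.1 ((hL T).2 hT)
    exact ⟨i, hi⟩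
  have hsum : ∑ i, g (S i).card = 2 * W.card := by
    rw [← htight]
    have h1 : (F.map fun S => g S.card).sum = (L.map fun S => g S.card).sum := by
      conv_lhs => rw [← Multiset.coe_toList F]
      rw [Multiset.map_coe, Multiset.sum_coe]
    rw [h1]
    exact Fin.sum_univ_fun_getElem L (fun S => g S.card)
  choose c hc b hb hcb using fun i => hnd (S i) (hS i)
  have hbc : ∀ i, b i ≠ c i := fun i h => hcb i (by rw [h])
  have hpcb : ∀ i, p0 (c i) ≠ p0 (b i) := fun i =>
    ((hcompat (S i) (hS i)).ne_iff (hc i) (hb i)).1 (hcb i)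
  let Ph := Phi ι W S b c
  let x0 : (V → ℂ) × (V → ℂ) := (p0, q0)
  have hcd : ContDiff ℝ 1 Ph := contDiff_Phi ι W S b c
  have hstrict : HasStrictFDerivAt Ph (fderiv ℝ Ph x0) x0 :=
    hcd.contDiffAt.hasStrictFDerivAt one_ne_zero
  have hinj : Function.Injective (fderiv ℝ Ph x0) := by
    rw [injective_iff_map_eq_zero]
    rintro ⟨v1, δ⟩ hv
    have hd : HasDerivAt (fun t : ℝ => Ph (x0 + t • ((v1, δ) : (V → ℂ) × (V → ℂ)))) 0 0 := by
      have h1 := hstrict.hasFDerivAt.hasLineDerivAt ((v1, δ) : (V → ℂ) × (V → ℂ))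
      rw [hv] at h1
      exact h1
    -- first component
    have hv1 : v1 = 0 := by
      have h1 := (ContinuousLinearMap.fst ℝ (V → ℂ) (({x : V // x ∉ W} → ℂ) ×
        (∀ i : ι, ℝ × ({a : V // a ∈ S i ∧ a ≠ b i ∧ a ≠ c i} → ℂ)))).hasFDerivAt.comp_hasDerivAt
        (0 : ℝ) hd
      rw [map_zero] at h1
      have h2 : HasDerivAt (fun t : ℝ => p0 + t • v1) v1 0 := by
        have := ((hasDerivAt_id (0 : ℝ)).smul_const v1).const_add p0
        simpa using this
      exact h2.unique h1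
    subst hv1
    -- values off `W`
    have hδoff : ∀ x ∉ W, δ x = 0 := by
      intro x hx
      have h1 := ((ContinuousLinearMap.proj (R := ℝ) (φ := fun _ : {x : V // x ∉ W} => ℂ)
        (⟨x, hx⟩ : {x : V // x ∉ W})).comp
        ((ContinuousLinearMap.fst ℝ ({x : V // x ∉ W} → ℂ)
        (∀ i : ι, ℝ × ({a : V // a ∈ S i ∧ a ≠ b i ∧ a ≠ c i} → ℂ))).comp
        (ContinuousLinearMap.snd ℝ (V → ℂ) (({x : V // x ∉ W} → ℂ) ×
        (∀ i : ι, ℝ × ({a : V // a ∈ S i ∧ a ≠ b i ∧ a ≠ c i} → ℂ)))))).hasFDerivAt.comp_hasDerivAt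
        (0 : ℝ) hd
      rw [map_zero] at h1
      have h2 : HasDerivAt (fun t : ℝ => q0 x + t • δ x) (δ x) 0 := by
        have := ((hasDerivAt_id (0 : ℝ)).smul_const (δ x)).const_add (q0 x)
        simpa using this
      exact h2.unique h1
    have hlin : ∀ x : V, HasDerivAt (fun t : ℝ => q0 x + t • δ x) (δ x) 0 := by
      intro x
      have := ((hasDerivAt_id (0 : ℝ)).smul_const (δ x)).const_add (q0 x)
      simpa using this
    have hbody : ∀ i, BodyInf q0 δ (S i) := by
      intro i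
      have hπ := ((ContinuousLinearMap.proj (R := ℝ)
        (φ := fun i : ι => ℝ × ({a : V // a ∈ S i ∧ a ≠ b i ∧ a ≠ c i} → ℂ)) i).comp
        ((ContinuousLinearMap.snd ℝ ({x : V // x ∉ W} → ℂ)
        (∀ i : ι, ℝ × ({a : V // a ∈ S i ∧ a ≠ b i ∧ a ≠ c i} → ℂ))).comp
        (ContinuousLinearMap.snd ℝ (V → ℂ) (({x : V // x ∉ W} → ℂ) ×
        (∀ i : ι, ℝ × ({a : V // a ∈ S i ∧ a ≠ b i ∧ a ≠ c i} → ℂ)))))).hasFDerivAt.comp_hasDerivAt
        (0 : ℝ) hd
      rw [map_zero] at hπ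
      have h1 := (ContinuousLinearMap.fst ℝ ℝ
        ({a : V // a ∈ S i ∧ a ≠ b i ∧ a ≠ c i} → ℂ)).hasFDerivAt.comp_hasDerivAt (0 : ℝ) hπ
      rw [map_zero] at h1
      have hcbd : ∀ x y : V, HasDerivAt (fun t : ℝ => (q0 x + t • δ x) - (q0 y + t • δ y))
          (δ x - δ y) 0 := fun x y => (hlin x).sub (hlin y)
      apply bodyInf_of_base (b := b i) (c := c i) (hcb i)
      · have h2 : HasDerivAt (fun t : ℝ => nsq ((q0 (c i) + t • δ (c i)) - (q0 (b i) + t • δ (b i)))
            - nsq ((p0 (c i) + t • (0 : V → ℂ) (c i)) - (p0 (b i) + t • (0 : V → ℂ) (b i))))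
            (2 * ip (q0 (c i) - q0 (b i)) (δ (c i) - δ (b i)) - 0) 0 := by
          have h5 : (fun t : ℝ => nsq ((p0 (c i) + t • (0 : V → ℂ) (c i)) -
              (p0 (b i) + t • (0 : V → ℂ) (b i)))) = fun _ => nsq (p0 (c i) - p0 (b i)) := by
            funext t
            simp
          apply HasDerivAt.sub
          · have hre := reCLM.hasFDerivAt.comp_hasDerivAt (0 : ℝ) (hcbd (c i) (b i))
            have him := imCLM.hasFDerivAt.comp_hasDerivAt (0 : ℝ) (hcbd (c i) (b i))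
            have h3 := (hre.mul hre).add (him.mul him)
            convert h3 using 1
            · rfl
            · simp only [ip, Function.comp, zero_smul, add_zero, reCLM_apply, imCLM_apply]
              ring
          · rw [h5]
            exact hasDerivAt_const _ _
        have h4 := h2.unique h1
        linarith
      · intro a ha
        by_cases hab : a = b i
        · subst hab; simp
        by_cases hac : a = c i
        · subst hac; ring
        have h2 := (ContinuousLinearMap.proj (R := ℝ)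
          (φ := fun _ : {a : V // a ∈ S i ∧ a ≠ b i ∧ a ≠ c i} => ℂ)
          (⟨a, ha, hab, hac⟩ : {a : V // a ∈ S i ∧ a ≠ b i ∧ a ≠ c i})).hasFDerivAt.comp_hasDerivAt
          (0 : ℝ) ((ContinuousLinearMap.snd ℝ ℝ
          ({a : V // a ∈ S i ∧ a ≠ b i ∧ a ≠ c i} → ℂ)).hasFDerivAt.comp_hasDerivAt (0 : ℝ) hπ)
        rw [map_zero, map_zero] at h2
        have h3 : HasDerivAt (fun t : ℝ => ((q0 a + t • δ a) - (q0 (b i) + t • δ (b i))) *
            ((p0 (c i) + t • (0 : V → ℂ) (c i)) - (p0 (b i) + t • (0 : V → ℂ) (b i))) -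
            ((q0 (c i) + t • δ (c i)) - (q0 (b i) + t • δ (b i))) *
            ((p0 a + t • (0 : V → ℂ) a) - (p0 (b i) + t • (0 : V → ℂ) (b i))))
            ((δ a - δ (b i)) * (p0 (c i) - p0 (b i)) - (δ (c i) - δ (b i)) * (p0 a - p0 (b i)))
            0 := by
          simp only [Pi.zero_apply, smul_zero, add_zero]
          exact ((hcbd a (b i)).mul_const _).sub ((hcbd (c i) (b i)).mul_const _)
        have h4 := h3.unique h2
        obtain ⟨u, hu, hrel⟩ := hcompat (S i) (hS i)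
        rw [hrel (c i) (hc i) (b i) (hb i), hrel a ha (b i) (hb i)]
        linear_combination u * h4
    have hδ : δ = 0 := by
      have h1 := hreg δ (fun x hx => hδoff x (Finset.disjoint_left.1 hdisj hx))
        (fun T hT => by
          obtain ⟨i, rfl⟩ := hS' T hT
          exact hbody i)
      funext x
      by_cases hx : x ∈ W
      · exact h1 x hx
      · exact hδoff x hx
    rw [hδ]
    rfl
  have hsurj : Function.Surjective (fderiv ℝ Ph x0) :=
    (LinearMap.injective_iff_surjective_of_finrank_eq_finrank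
      (finrank_Tgt ι W S b c hb hc hbc hsum)).1 hinj
  have hmap : Filter.map Ph (𝓝 x0) = 𝓝 (Ph x0) :=
    hstrict.map_nhds_eq_of_surj (LinearMap.range_eq_top.2 hsurj)
  -- the neighbourhood in which we look for solutions
  have hN' : {x : (V → ℂ) × (V → ℂ) | x.2 ∈ N ∧ ∀ i, x.1 (c i) ≠ x.1 (b i)} ∈ 𝓝 x0 := by
    apply Filter.inter_mem
    · exact continuous_snd.continuousAt.preimage_mem_nhds hN
    · refine Filter.eventually_all.2 ?_
      intro i
      have : IsOpen {x : (V → ℂ) × (V → ℂ) | x.1 (c i) ≠ x.1 (b i)} :=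
        isOpen_ne_fun ((continuous_apply (c i)).comp continuous_fst)
          ((continuous_apply (b i)).comp continuous_fst)
      exact this.mem_nhds (hpcb i)
  have himg : Ph '' {x : (V → ℂ) × (V → ℂ) | x.2 ∈ N ∧ ∀ i, x.1 (c i) ≠ x.1 (b i)} ∈
      𝓝 (Ph x0) := by
    rw [← hmap]
    exact Filter.image_mem_map hN'
  let tgt : (V → ℂ) → Tgt ι W S b c := fun p => (p, (fun v => q0 v.1), fun i => (0, 0))
  have htgt : Continuous tgt := by
    refine continuous_id.prodMk (continuous_const.prodMk continuous_const)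
  have htgt0 : tgt p0 = Ph x0 := by
    refine Prod.ext rfl (Prod.ext rfl ?_)
    funext i
    refine Prod.ext ?_ ?_
    · change (0 : ℝ) = nsq (q0 (c i) - q0 (b i)) - nsq (p0 (c i) - p0 (b i))
      rw [nsq_eq, nsq_eq, (hcompat (S i) (hS i)).normSq_eq (hc i) (hb i), sub_self]
    · funext a
      change (0 : ℂ) = (q0 a.1 - q0 (b i)) * (p0 (c i) - p0 (b i)) -
        (q0 (c i) - q0 (b i)) * (p0 a.1 - p0 (b i))
      obtain ⟨u, hu, hrel⟩ := hcompat (S i) (hS i)
      rw [hrel (c i) (hc i) (b i) (hb i), hrel a.1 a.2.1 (b i) (hb i)]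
      ring
  have hev : ∀ᶠ p in 𝓝 p0, tgt p ∈ Ph '' {x : (V → ℂ) × (V → ℂ) | x.2 ∈ N ∧
      ∀ i, x.1 (c i) ≠ x.1 (b i)} := by
    apply htgt.continuousAt.preimage_mem_nhds
    rw [htgt0]
    exact himg
  filter_upwards [hev] with p hp
  obtain ⟨⟨p', q⟩, ⟨hqN, hne⟩, heq⟩ := hp
  have e1 : p' = p := congrArg Prod.fst heq
  subst e1
  have e2 : ∀ x (hx : x ∉ W), q x = q0 x := fun x hx =>
    congrFun (congrArg (fun z => z.2.1) heq) ⟨x, hx⟩
  have e3 := congrArg (fun z : Tgt ι W S b c => z.2.2) heq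
  refine ⟨q, hqN, e2, fun T hT => ?_⟩
  obtain ⟨i, rfl⟩ := hS' T hT
  have e4 := congrFun e3 i
  have e5 : nsq (q (c i) - q (b i)) - nsq (p' (c i) - p' (b i)) = 0 := congrArg Prod.fst e4
  have e6 : ∀ a (ha : a ∈ S i ∧ a ≠ b i ∧ a ≠ c i), (q a - q (b i)) * (p' (c i) - p' (b i)) -
      (q (c i) - q (b i)) * (p' a - p' (b i)) = 0 := fun a ha =>
    congrFun (congrArg Prod.snd e4) ⟨a, ha⟩
  apply bodyRel_of_base (hne i)
  · rw [← nsq_eq, ← nsq_eq]
    linarith
  · intro a ha
    by_cases hab : a = b i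
    · subst hab; simp
    by_cases hac : a = c i
    · subst hac; ring
    exact sub_eq_zero.1 (e6 a ⟨ha, hab, hac⟩)

end

end Pool.Agent.Helper20_Rig
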