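import Pool.Agent.Helper20_Rig.Sparse

/-!
# Henneberg type reductions of tight sparse families
-/

set_option autoImplicit false

namespace Pool.Agent.Helper20_Rig

variable {V : Type*} [DecidableEq V]

/-- `F` together with the body `R` is sparse and tight on `R ∪ W`. -/
structure TS (R W : Finset V) (F : Multiset (Finset V)) : Prop where
  two : ∀ S ∈ F, 2 ≤ S.card
  sub : ∀ S ∈ F, S ⊆ R ∪ W
  sparse : Sparse (R ::ₘ F)
  tight : (F.map fun S => g S.card).sum = 2 * W.card

/-- The number of constraints which disappear when `w` is deleted from `S`. -/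
def kk (w : V) (S : Finset V) : ℕ := if w ∈ S then g S.card - g (S.erase w).card else 0

lemma kk_add (w : V) (S : Finset V) : g (S.erase w).card + kk w S = g S.card := by
  unfold kk
  split_ifs with h
  · have := g_mono (Finset.card_le_card (Finset.erase_subset w S))
    omega
  · rw [Finset.erase_eq_of_notMem h, add_zero]

lemma kk_eq_one {w : V} {S : Finset V} (h : w ∈ S) (h2 : S.card = 2) : kk w S = 1 := by
  unfold kk
  rw [if_pos h, Finset.card_erase_of_mem h, h2]
  rfl

lemma kk_eq_two {w : V} {S : Finset V} (h : w ∈ S) (h2 : 3 ≤ S.card) : kk w S = 2 := by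
  unfold kk
  rw [if_pos h, Finset.card_erase_of_mem h]
  unfold g
  omega

lemma sum_kk (W S : Finset V) (c : ℕ) (h : ∀ w ∈ S, kk w S = c) :
    ∑ w ∈ W, kk w S = c * (S ∩ W).card := by
  have h1 : ∀ w ∈ W, kk w S = if w ∈ S then c else 0 := by
    intro w _
    by_cases hw : w ∈ S
    · rw [if_pos hw, h w hw]
    · rw [if_neg hw]; unfold kk; rw [if_neg hw]
  rw [Finset.sum_congr rfl h1, ← Finset.sum_filter, Finset.sum_const, smul_eq_mul, mul_comm]
  congr 2
  ext x
  simp only [Finset.mem_filter, Finset.mem_inter]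
  tauto

lemma sum_kk_le {R W S : Finset V} (hdisj : Disjoint R W) (h2 : 2 ≤ S.card) (hsub : S ⊆ R ∪ W) :
    (∑ w ∈ W, kk w S) + (S ∩ R).card ≤ 2 * g S.card := by
  have hc : (S ∩ R).card + (S ∩ W).card = S.card := by
    rw [← Finset.card_union_of_disjoint]
    · rw [← Finset.inter_union_distrib_left, Finset.inter_eq_left.2 hsub]
    · exact Finset.disjoint_of_subset_left Finset.inter_subset_right
        (Finset.disjoint_of_subset_right Finset.inter_subset_right hdisj)
  rcases Nat.lt_or_ge S.card 3 with h3 | h3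
  · have h4 : S.card = 2 := by omega
    rw [sum_kk W S 1 (fun w hw => kk_eq_one hw h4)]
    unfold g
    omega
  · rw [sum_kk W S 2 (fun w hw => kk_eq_two hw h3)]
    unfold g
    omega

lemma sum_sum_kk_le {R W : Finset V} (hdisj : Disjoint R W) (F : Multiset (Finset V))
    (h2 : ∀ S ∈ F, 2 ≤ S.card) (hsub : ∀ S ∈ F, S ⊆ R ∪ W) :
    (∑ w ∈ W, (F.map (kk w)).sum) + (F.map fun S => (S ∩ R).card).sum ≤
      2 * (F.map fun S => g S.card).sum := by
  induction F using Multiset.induction with
  | empty => simp
  | cons S F ih =>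
    have h3 := ih (fun S hS => h2 S (Multiset.mem_cons_of_mem hS))
      (fun S hS => hsub S (Multiset.mem_cons_of_mem hS))
    have h4 := sum_kk_le hdisj (h2 S (Multiset.mem_cons_self _ _))
      (hsub S (Multiset.mem_cons_self _ _))
    simp only [Multiset.map_cons, Multiset.sum_cons, Finset.sum_add_distrib]
    omega

/-- Shapes of multisets with small weight. -/
lemma shape {α : Type*} (M : Multiset α) (k : α → ℕ) (hk : ∀ x ∈ M, k x = 1 ∨ k x = 2)
    (h : (M.map k).sum = 2 ∨ (M.map k).sum = 3) :
    (∃ a, M = {a} ∧ k a = 2) ∨ (∃ a b, M = {a, b} ∧ k a = 1 ∧ k b = 1) ∨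
    (∃ a b, M = {a, b} ∧ k a = 2 ∧ k b = 1) ∨
    (∃ a b c, M = {a, b, c} ∧ k a = 1 ∧ k b = 1 ∧ k c = 1) := by
  induction M using Quotient.inductionOn with
  | h l =>
    match l with
    | [] => simp at h
    | [a] =>
      have ha := hk a (by simp)
      simp only [Multiset.quot_mk_to_coe, Multiset.map_coe, List.map_cons, List.map_nil,
        Multiset.sum_coe, List.sum_cons, List.sum_nil] at h
      left
      exact ⟨a, rfl, by omega⟩
    | [a, b] =>
      have ha := hk a (by simp)
      have hb := hk b (by simp)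
      simp only [Multiset.quot_mk_to_coe, Multiset.map_coe, List.map_cons, List.map_nil,
        Multiset.sum_coe, List.sum_cons, List.sum_nil] at h
      rcases ha with ha | ha <;> rcases hb with hb | hb
      · right; left; exact ⟨a, b, rfl, ha, hb⟩
      · right; right; left
        refine ⟨b, a, ?_, hb, ha⟩
        exact Multiset.pair_comm a b
      · right; right; left; exact ⟨a, b, rfl, ha, hb⟩
      · omega
    | [a, b, c] =>
      have ha := hk a (by simp)
      have hb := hk b (by simp)
      have hc := hk c (by simp)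
      simp only [Multiset.quot_mk_to_coe, Multiset.map_coe, List.map_cons, List.map_nil,
        Multiset.sum_coe, List.sum_cons, List.sum_nil] at h
      right; right; right
      exact ⟨a, b, c, rfl, by omega, by omega, by omega⟩
    | a :: b :: c :: d :: l =>
      exfalso
      have ha := hk a (by simp)
      have hb := hk b (by simp)
      have hc := hk c (by simp)
      have hd := hk d (by simp)
      simp only [Multiset.quot_mk_to_coe, Multiset.map_coe, List.map_cons,
        Multiset.sum_coe, List.sum_cons] at h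
      omega

lemma exists_pair_of_mem {w : V} {S : Finset V} (h : w ∈ S) (h2 : S.card = 2) :
    ∃ u, u ≠ w ∧ S = {w, u} := by
  obtain ⟨x, y, hxy, rfl⟩ := Finset.card_eq_two.1 h2
  simp only [Finset.mem_insert, Finset.mem_singleton] at h
  rcases h with rfl | rfl
  · exact ⟨y, hxy.symm, rfl⟩
  · exact ⟨x, hxy, Finset.pair_comm _ _⟩

lemma Sparse.of_cons {S : Finset V} {F : Multiset (Finset V)} (h : Sparse (S ::ₘ F)) :
    Sparse F := by
  intro U hU
  have := h U hU
  rw [val_cons] at this
  omega

lemma Sparse.cons_mono {S S' : Finset V} {F : Multiset (Finset V)} (h : Sparse (S ::ₘ F))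
    (hS : S' ⊆ S) : Sparse (S' ::ₘ F) := by
  intro U hU
  have := h U hU
  have h0 : S' ∩ U ⊆ S ∩ U := Finset.inter_subset_inter_right hS
  have h2 := g_mono (Finset.card_le_card h0)
  rw [val_cons] at this ⊢
  omega

lemma notMem_of_tight {F : Multiset (Finset V)} (hF : Sparse F) {T : Finset V} (hT : Tight F T)
    {w : V} (hw : ∀ S ∈ F, w ∉ S) : w ∉ T := by
  intro hwT
  have h1 : val F T = val F (T.erase w) := by
    unfold val
    congr 1
    apply Multiset.map_congr rfl
    intro S hS
    congr 2
    ext x
    simp only [Finset.mem_inter, Finset.mem_erase]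
    constructor
    · rintro ⟨h1, h2⟩
      exact ⟨h1, fun h => hw S hS (h ▸ h1), h2⟩
    · rintro ⟨h1, _, h2⟩
      exact ⟨h1, h2⟩
  have hc := Finset.card_erase_of_mem hwT
  have h2 := hT.2
  have h3 := hT.1
  rcases Nat.lt_or_ge T.card 3 with h4 | h4
  · have h5 : val F (T.erase w) = 0 := by
      unfold val
      apply Multiset.sum_eq_zero
      intro n hn
      obtain ⟨S, _, rfl⟩ := Multiset.mem_map.1 hn
      have := Finset.card_le_card (Finset.inter_subset_right (s₁ := S) (s₂ := T.erase w))
      unfold g
      omega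
    omega
  · have h5 := hF (T.erase w) (by omega)
    omega

lemma val_insert_of_notMem {F : Multiset (Finset V)} {w : V} (hw : ∀ S ∈ F, w ∉ S) (T : Finset V) :
    val F (insert w T) = val F T := by
  unfold val
  congr 1
  apply Multiset.map_congr rfl
  intro S hS
  congr 2
  rw [Finset.inter_insert_of_notMem (hw S hS)]

section

variable {R W : Finset V} {F : Multiset (Finset V)}

lemma TS.exists_small (h : TS R W F) (hR : 2 ≤ R.card) (hdisj : Disjoint R W)
    (hW : W.Nonempty) : ∃ w ∈ W, (F.map (kk w)).sum = 2 ∨ (F.map (kk w)).sum = 3 := by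
  have hlow : ∀ w ∈ W, 2 ≤ (F.map (kk w)).sum := by
    intro w hw
    have hwR : w ∉ R := fun h => Finset.disjoint_left.1 hdisj h hw
    have hcard : ((R ∪ W).erase w).card + 1 = R.card + W.card := by
      rw [← Finset.card_union_of_disjoint hdisj]
      have : w ∈ R ∪ W := Finset.mem_union_right _ hw
      rw [Finset.card_erase_of_mem this]
      have := Finset.card_pos.2 ⟨w, this⟩
      omega
    have hWc : 1 ≤ W.card := Finset.card_pos.2 hW
    have h1 := h.sparse ((R ∪ W).erase w) (by omega)
    rw [val_cons] at h1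
    have h2 : R ∩ ((R ∪ W).erase w) = R := by
      apply Finset.inter_eq_left.2
      intro x hx
      rw [Finset.mem_erase]
      exact ⟨fun h => hwR (h ▸ hx), Finset.mem_union_left _ hx⟩
    rw [h2] at h1
    have h3 : val F ((R ∪ W).erase w) + (F.map (kk w)).sum = 2 * W.card := by
      rw [← h.tight]
      unfold val
      rw [← Multiset.sum_map_add]
      congr 1
      apply Multiset.map_congr rfl
      intro S hS
      rw [← kk_add w S]
      congr 3
      ext x
      simp only [Finset.mem_inter, Finset.mem_erase]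
      constructor
      · rintro ⟨h1, h2, _⟩
        exact ⟨h2, h1⟩
      · rintro ⟨h1, h2⟩
        exact ⟨h2, h1, h.sub S hS h2⟩
    unfold g at h1
    omega
  have hmeet : 1 ≤ (F.map fun S => (S ∩ R).card).sum := by
    by_contra hc
    have hz : (F.map fun S => (S ∩ R).card).sum = 0 := by omega
    have hall : ∀ S ∈ F, S ⊆ W := by
      intro S hS x hx
      have h1 : (S ∩ R).card = 0 := by
        have := Multiset.sum_eq_zero_iff.1 hz
        exact this _ (Multiset.mem_map_of_mem _ hS)
      have h2 : S ∩ R = ∅ := Finset.card_eq_zero.1 h1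
      have h3 := h.sub S hS hx
      rcases Finset.mem_union.1 h3 with h4 | h4
      · exfalso
        have : x ∈ S ∩ R := Finset.mem_inter.2 ⟨hx, h4⟩
        rw [h2] at this
        simp at this
      · exact h4
    have hvalW : val F W = 2 * W.card := by
      rw [← h.tight]
      unfold val
      congr 1
      apply Multiset.map_congr rfl
      intro S hS
      rw [Finset.inter_eq_left.2 (hall S hS)]
    have hW1 : 1 ≤ W.card := Finset.card_pos.2 hW
    rcases Nat.lt_or_ge W.card 2 with h4 | h4
    · have : F = 0 := by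
        apply Multiset.eq_zero_of_forall_notMem
        intro S hS
        have h5 := Finset.card_le_card (hall S hS)
        have h6 := h.two S hS
        omega
      rw [this] at hvalW
      simp only [val_zero] at hvalW
      omega
    · have h5 := h.sparse W h4
      rw [val_cons] at h5
      omega
  have hsum := sum_sum_kk_le hdisj F h.two h.sub
  rw [h.tight] at hsum
  have hlt : (∑ w ∈ W, (F.map (kk w)).sum) < ∑ _w ∈ W, 4 := by
    rw [Finset.sum_const, smul_eq_mul]
    omega
  obtain ⟨w, hw, hw2⟩ := Finset.exists_lt_of_sum_lt hlt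
  refine ⟨w, hw, ?_⟩
  have := hlow w hw
  omega

/-- The reduction lemma. -/
theorem TS.reduce (h : TS R W F) (hR : 2 ≤ R.card) (hdisj : Disjoint R W) (hW : W.Nonempty) :
    ∃ w ∈ W, ∃ F0 : Multiset (Finset V), (∀ S ∈ F0, w ∉ S) ∧
      ((∃ S, w ∈ S ∧ 3 ≤ S.card ∧ F = S ::ₘ F0 ∧ TS R (W.erase w) (S.erase w ::ₘ F0)) ∨
       (∃ u v, u ≠ v ∧ u ≠ w ∧ v ≠ w ∧ F = {w, u} ::ₘ {w, v} ::ₘ F0 ∧ TS R (W.erase w) F0) ∨
       (∃ S u b, w ∈ S ∧ 3 ≤ S.card ∧ u ∉ S ∧ b ∈ S ∧ b ≠ w ∧ F = S ::ₘ {w, u} ::ₘ F0 ∧
          TS R (W.erase w) (S.erase w ::ₘ {u, b} ::ₘ F0)) ∨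
       (∃ u v z, u ≠ v ∧ v ≠ z ∧ u ≠ z ∧ u ≠ w ∧ v ≠ w ∧ z ≠ w ∧
          ¬ (u ∈ R ∧ v ∈ R ∧ z ∈ R) ∧ F = {w, u} ::ₘ {w, v} ::ₘ {w, z} ::ₘ F0 ∧
          TS R (W.erase w) ({u, v} ::ₘ F0))) := by
  classical
  obtain ⟨w, hw, hc⟩ := h.exists_small hR hdisj hW
  have hwR : w ∉ R := fun h => Finset.disjoint_left.1 hdisj h hw
  set Fw := F.filter (w ∈ ·) with hFw
  set F0 := F.filter (w ∉ ·) with hF0
  have hsplit : Fw + F0 = F := Multiset.filter_add_not _ _
  have hF0w : ∀ S ∈ F0, w ∉ S := fun S hS => (Multiset.mem_filter.1 hS).2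
  have hFww : ∀ S ∈ Fw, w ∈ S := fun S hS => (Multiset.mem_filter.1 hS).2
  have hFwF : ∀ S ∈ Fw, S ∈ F := fun S hS => (Multiset.mem_filter.1 hS).1
  have hF0F : ∀ S ∈ F0, S ∈ F := fun S hS => (Multiset.mem_filter.1 hS).1
  have hsumw : (F.map (kk w)).sum = (Fw.map (kk w)).sum := by
    rw [← hsplit, Multiset.map_add, Multiset.sum_add]
    have : (F0.map (kk w)).sum = 0 := by
      apply Multiset.sum_eq_zero
      intro n hn
      obtain ⟨S, hS, rfl⟩ := Multiset.mem_map.1 hn
      unfold kk
      rw [if_neg (hF0w S hS)]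
    rw [this, add_zero]
  rw [hsumw] at hc
  have hk : ∀ S ∈ Fw, kk w S = 1 ∨ kk w S = 2 := by
    intro S hS
    have h2 := h.two S (hFwF S hS)
    rcases Nat.lt_or_ge S.card 3 with h3 | h3
    · left; exact kk_eq_one (hFww S hS) (by omega)
    · right; exact kk_eq_two (hFww S hS) h3
  have card_of_one : ∀ S ∈ Fw, kk w S = 1 → S.card = 2 := by
    intro S hS h1
    have h2 := h.two S (hFwF S hS)
    by_contra h3
    have := kk_eq_two (hFww S hS) (by omega)
    omega
  have card_of_two : ∀ S ∈ Fw, kk w S = 2 → 3 ≤ S.card := by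
    intro S hS h1
    have h2 := h.two S (hFwF S hS)
    by_contra h3
    have := kk_eq_one (hFww S hS) (by omega)
    omega
  have hWc : (W.erase w).card + 1 = W.card := Finset.card_erase_add_one hw
  have hF0sub : ∀ S ∈ F0, S ⊆ R ∪ W.erase w := by
    intro S hS x hx
    have h1 := h.sub S (hF0F S hS) hx
    rcases Finset.mem_union.1 h1 with h2 | h2
    · exact Finset.mem_union_left _ h2
    · refine Finset.mem_union_right _ (Finset.mem_erase.2 ⟨?_, h2⟩)
      rintro rfl
      exact hF0w S hS hx
  have hF0two : ∀ S ∈ F0, 2 ≤ S.card := fun S hS => h.two S (hF0F S hS)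
  have herasesub : ∀ S ∈ Fw, S.erase w ⊆ R ∪ W.erase w := by
    intro S hS x hx
    rw [Finset.mem_erase] at hx
    have h1 := h.sub S (hFwF S hS) hx.2
    rcases Finset.mem_union.1 h1 with h2 | h2
    · exact Finset.mem_union_left _ h2
    · exact Finset.mem_union_right _ (Finset.mem_erase.2 ⟨hx.1, h2⟩)
  have hmemU : ∀ u, u ≠ w → ({w, u} : Finset V) ∈ Fw → u ∈ R ∪ W.erase w := by
    intro u hu hmem
    apply herasesub _ hmem
    simp [hu]
  refine ⟨w, hw, F0, hF0w, ?_⟩
  have hRF0w : ∀ S ∈ (R ::ₘ F0), w ∉ S := by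
    intro S hS
    rcases Multiset.mem_cons.1 hS with rfl | hS
    · exact hwR
    · exact hF0w S hS
  rcases shape Fw (kk w) hk hc with ⟨S, hM, hS⟩ | ⟨a, b, hM, ha, hb⟩ | ⟨a, b, hM, ha, hb⟩ |
    ⟨a, b, c, hM, ha, hb, hc⟩
  · -- a single body
    left
    have hSm : S ∈ Fw := by rw [hM]; simp
    have hwS := hFww S hSm
    have hS3 := card_of_two S hSm hS
    have hFe : F = S ::ₘ F0 := by rw [← hsplit, hM, Multiset.singleton_add]
    refine ⟨S, hwS, hS3, hFe, ?_, ?_, ?_, ?_⟩
    · intro T hT
      rcases Multiset.mem_cons.1 hT with rfl | hT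
      · rw [Finset.card_erase_of_mem hwS]; omega
      · exact hF0two T hT
    · intro T hT
      rcases Multiset.mem_cons.1 hT with rfl | hT
      · exact herasesub S hSm
      · exact hF0sub T hT
    · have h1 := h.sparse
      rw [hFe, Multiset.cons_swap] at h1
      rw [Multiset.cons_swap]
      exact h1.cons_mono (Finset.erase_subset _ _)
    · have h1 := h.tight
      rw [hFe, Multiset.map_cons, Multiset.sum_cons] at h1
      rw [Multiset.map_cons, Multiset.sum_cons]
      have h2 := kk_add w S
      omega
  · -- two bars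
    right; left
    have ham : a ∈ Fw := by rw [hM]; simp
    have hbm : b ∈ Fw := by rw [hM]; simp
    obtain ⟨u, hu, rfl⟩ := exists_pair_of_mem (hFww a ham) (card_of_one a ham ha)
    obtain ⟨v, hv, rfl⟩ := exists_pair_of_mem (hFww b hbm) (card_of_one b hbm hb)
    have hFe : F = {w, u} ::ₘ {w, v} ::ₘ F0 := by
      rw [← hsplit, hM]
      simp only [Multiset.insert_eq_cons, Multiset.cons_add, Multiset.singleton_add]
    have huv : u ≠ v := by
      rintro rfl
      have h1 := h.sparse {w, u} (by rw [Finset.card_pair hu.symm])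
      rw [hFe] at h1
      simp only [val_cons, Finset.inter_self] at h1
      rw [Finset.card_pair hu.symm] at h1
      unfold g at h1
      omega
    refine ⟨u, v, huv, hu, hv, hFe, hF0two, hF0sub, ?_, ?_⟩
    · have h1 := h.sparse
      rw [hFe, Multiset.cons_swap] at h1
      have h2 := h1.of_cons
      rw [Multiset.cons_swap] at h2
      exact h2.of_cons
    · have h1 := h.tight
      rw [hFe, Multiset.map_cons, Multiset.sum_cons, Multiset.map_cons, Multiset.sum_cons,
        Finset.card_pair hu.symm, Finset.card_pair hv.symm] at h1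
      have hg : g 2 = 1 := rfl
      omega
  · -- a body and a bar
    right; right; left
    have ham : a ∈ Fw := by rw [hM]; simp
    have hbm : b ∈ Fw := by rw [hM]; simp
    obtain ⟨u, hu, rfl⟩ := exists_pair_of_mem (hFww b hbm) (card_of_one b hbm hb)
    have hwa := hFww a ham
    have ha3 := card_of_two a ham ha
    have hFe : F = a ::ₘ {w, u} ::ₘ F0 := by
      rw [← hsplit, hM]
      simp only [Multiset.insert_eq_cons, Multiset.cons_add, Multiset.singleton_add]
    have hua : u ∉ a := by
      intro hua
      have h1 := h.sparse a (by omega)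
      rw [hFe] at h1
      simp only [val_cons, Finset.inter_self] at h1
      have h2 : ({w, u} : Finset V) ∩ a = {w, u} := by
        apply Finset.inter_eq_left.2
        intro x hx
        simp only [Finset.mem_insert, Finset.mem_singleton] at hx
        rcases hx with rfl | rfl
        · exact hwa
        · exact hua
      rw [h2, Finset.card_pair hu.symm] at h1
      unfold g at h1
      omega
    have hcardE : (a.erase w).card + 1 = a.card := Finset.card_erase_add_one hwa
    have hsp := h.sparse
    rw [hFe] at hsp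
    have hG : Sparse (a.erase w ::ₘ R ::ₘ F0) := by
      have h1 : Sparse (a ::ₘ {w, u} ::ₘ R ::ₘ F0) := by
        have e : (R ::ₘ a ::ₘ {w, u} ::ₘ F0) = (a ::ₘ {w, u} ::ₘ R ::ₘ F0) := by
          rw [Multiset.cons_swap, Multiset.cons_swap R]
        rw [e] at hsp
        exact hsp
      rw [Multiset.cons_swap] at h1
      exact h1.of_cons.cons_mono (Finset.erase_subset _ _)
    have hGw : ∀ S ∈ (a.erase w ::ₘ R ::ₘ F0), w ∉ S := by
      intro S hS
      rcases Multiset.mem_cons.1 hS with rfl | hS
      · simp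
      · exact hRF0w S hS
    obtain ⟨b1, b2, hb1, hb2, hb12⟩ : ∃ b1 b2, b1 ∈ a.erase w ∧ b2 ∈ a.erase w ∧ b1 ≠ b2 := by
      obtain ⟨x, hx, y, hy, hxy⟩ := Finset.one_lt_card.1 (show 1 < (a.erase w).card by omega)
      exact ⟨x, y, hx, hy, hxy⟩
    obtain ⟨b0, hb0, hsp0⟩ : ∃ b0 ∈ a.erase w, Sparse ({u, b0} ::ₘ a.erase w ::ₘ R ::ₘ F0) := by
      by_contra hcon
      push Not at hcon
      have hub1 : u ≠ b1 := fun h => hua (h ▸ Finset.mem_of_mem_erase hb1)
      have hub2 : u ≠ b2 := fun h => hua (h ▸ Finset.mem_of_mem_erase hb2)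
      obtain ⟨A, hA, huA, hbA⟩ := exists_tight_of_not_sparse hG hub1 (hcon b1 hb1)
      obtain ⟨C, hC, huC, hbC⟩ := exists_tight_of_not_sparse hG hub2 (hcon b2 hb2)
      have hBt : Tight (a.erase w ::ₘ R ::ₘ F0) (a.erase w) :=
        tight_of_mem hG (Multiset.mem_cons_self _ _) (by omega)
      obtain ⟨T, hT, huT, hb1T, hb2T⟩ :=
        exists_tight_three hG hub1 hb12 hub2 hA hBt hC huA hbA hb1 hb2 huC hbC
      have h2 : 2 ≤ (T ∩ a.erase w).card := by
        have : ({b1, b2} : Finset V) ⊆ T ∩ a.erase w := by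
          intro y hy
          simp only [Finset.mem_insert, Finset.mem_singleton] at hy
          rcases hy with rfl | rfl
          · exact Finset.mem_inter.2 ⟨hb1T, hb1⟩
          · exact Finset.mem_inter.2 ⟨hb2T, hb2⟩
        calc 2 = ({b1, b2} : Finset V).card := (Finset.card_pair hb12).symm
          _ ≤ _ := Finset.card_le_card this
      have hT' := hT.union hG hBt h2
      set T' := T ∪ a.erase w with hT'def
      have hwT' : w ∉ T' := notMem_of_tight hG hT' hGw
      have hcin : (insert w T').card = T'.card + 1 := Finset.card_insert_of_notMem hwT'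
      have h3 := hsp (insert w T') (by have := hT'.1; omega)
      have h4 := hT'.2
      simp only [val_cons] at h3 h4
      rw [val_insert_of_notMem hF0w, Finset.inter_insert_of_notMem hwR] at h3
      have h5 : a ∩ insert w T' = a := by
        apply Finset.inter_eq_left.2
        intro x hx
        by_cases hxw : x = w
        · simp [hxw]
        · apply Finset.mem_insert_of_mem
          rw [hT'def]
          exact Finset.mem_union_right _ (Finset.mem_erase.2 ⟨hxw, hx⟩)
      have h6 : ({w, u} : Finset V) ∩ insert w T' = {w, u} := by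
        apply Finset.inter_eq_left.2
        intro x hx
        simp only [Finset.mem_insert, Finset.mem_singleton] at hx
        rcases hx with rfl | rfl
        · simp
        · apply Finset.mem_insert_of_mem
          rw [hT'def]
          exact Finset.mem_union_left _ huT
      have h7 : a.erase w ∩ T' = a.erase w := Finset.inter_eq_left.2 Finset.subset_union_right
      rw [h5, h6, Finset.card_pair hu.symm] at h3
      rw [h7] at h4
      unfold g at h3 h4
      omega
    have hb0' := Finset.mem_erase.1 hb0
    have hub0 : u ≠ b0 := fun h => hua (h ▸ hb0'.2)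
    refine ⟨a, u, b0, hwa, ha3, hua, hb0'.2, hb0'.1, hFe, ?_, ?_, ?_, ?_⟩
    · intro T hT
      rcases Multiset.mem_cons.1 hT with rfl | hT
      · omega
      rcases Multiset.mem_cons.1 hT with rfl | hT
      · rw [Finset.card_pair hub0]
      · exact hF0two T hT
    · intro T hT
      rcases Multiset.mem_cons.1 hT with rfl | hT
      · exact herasesub a ham
      rcases Multiset.mem_cons.1 hT with rfl | hT
      · intro x hx
        simp only [Finset.mem_insert, Finset.mem_singleton] at hx
        rcases hx with rfl | rfl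
        · exact hmemU x hu hbm
        · exact herasesub a ham hb0
      · exact hF0sub T hT
    · have e : (R ::ₘ a.erase w ::ₘ {u, b0} ::ₘ F0) = ({u, b0} ::ₘ a.erase w ::ₘ R ::ₘ F0) := by
        rw [Multiset.cons_swap, Multiset.cons_swap R, Multiset.cons_swap]
      rw [e]
      exact hsp0
    · have h1 := h.tight
      rw [hFe, Multiset.map_cons, Multiset.sum_cons, Multiset.map_cons, Multiset.sum_cons,
        Finset.card_pair hu.symm] at h1
      rw [Multiset.map_cons, Multiset.sum_cons, Multiset.map_cons, Multiset.sum_cons,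
        Finset.card_pair hub0]
      have h2 := kk_add w a
      have hg : g 2 = 1 := rfl
      omega
  · -- three bars
    right; right; right
    have ham : a ∈ Fw := by rw [hM]; simp
    have hbm : b ∈ Fw := by rw [hM]; simp
    have hcm : c ∈ Fw := by rw [hM]; simp
    obtain ⟨u, hu, rfl⟩ := exists_pair_of_mem (hFww a ham) (card_of_one a ham ha)
    obtain ⟨v, hv, rfl⟩ := exists_pair_of_mem (hFww b hbm) (card_of_one b hbm hb)
    obtain ⟨z, hz, rfl⟩ := exists_pair_of_mem (hFww c hcm) (card_of_one c hcm hc)
    have hFe : F = {w, u} ::ₘ {w, v} ::ₘ {w, z} ::ₘ F0 := by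
      rw [← hsplit, hM]
      simp only [Multiset.insert_eq_cons, Multiset.cons_add, Multiset.singleton_add]
    have hsp := h.sparse
    rw [hFe] at hsp
    have huv : u ≠ v := by
      rintro rfl
      have h1 := hsp {w, u} (by rw [Finset.card_pair hu.symm])
      simp only [val_cons, Finset.inter_self] at h1
      rw [Finset.card_pair hu.symm] at h1
      unfold g at h1
      omega
    have hvz : v ≠ z := by
      rintro rfl
      have h1 := hsp {w, v} (by rw [Finset.card_pair hv.symm])
      simp only [val_cons, Finset.inter_self] at h1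
      rw [Finset.card_pair hv.symm] at h1
      unfold g at h1
      omega
    have huz : u ≠ z := by
      rintro rfl
      have h1 := hsp {w, u} (by rw [Finset.card_pair hu.symm])
      simp only [val_cons, Finset.inter_self] at h1
      rw [Finset.card_pair hu.symm] at h1
      unfold g at h1
      omega
    have hG : Sparse (R ::ₘ F0) := by
      have e : (R ::ₘ {w, u} ::ₘ {w, v} ::ₘ {w, z} ::ₘ F0) =
          ({w, u} ::ₘ {w, v} ::ₘ {w, z} ::ₘ R ::ₘ F0) := by
        rw [Multiset.cons_swap, Multiset.cons_swap R, Multiset.cons_swap R]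
      have h1 := hsp
      rw [e] at h1
      exact h1.of_cons.of_cons.of_cons
    have key : ∀ T, Tight (R ::ₘ F0) T → u ∈ T → v ∈ T → z ∈ T → False := by
      intro T hT huT hvT hzT
      have hwT : w ∉ T := notMem_of_tight hG hT hRF0w
      have hcin : (insert w T).card = T.card + 1 := Finset.card_insert_of_notMem hwT
      have h3 := hsp (insert w T) (by have := hT.1; omega)
      have h4 := hT.2
      simp only [val_cons] at h3 h4
      rw [val_insert_of_notMem hF0w, Finset.inter_insert_of_notMem hwR] at h3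
      have hp : ∀ x ∈ T, ({w, x} : Finset V) ∩ insert w T = {w, x} := by
        intro x hx
        apply Finset.inter_eq_left.2
        intro y hy
        simp only [Finset.mem_insert, Finset.mem_singleton] at hy
        rcases hy with rfl | rfl
        · simp
        · exact Finset.mem_insert_of_mem hx
      rw [hp u huT, hp v hvT, hp z hzT, Finset.card_pair hu.symm, Finset.card_pair hv.symm,
        Finset.card_pair hz.symm] at h3
      unfold g at h3 h4
      omega
    have hnR : ¬ (u ∈ R ∧ v ∈ R ∧ z ∈ R) := by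
      rintro ⟨h1, h2, h3⟩
      exact key R (tight_of_mem hG (Multiset.mem_cons_self _ _) hR) h1 h2 h3
    have mk : ∀ x y z' : V, x ≠ y → x ∈ R ∪ W.erase w → y ∈ R ∪ W.erase w →
        Sparse ({x, y} ::ₘ R ::ₘ F0) → TS R (W.erase w) ({x, y} ::ₘ F0) := by
      intro x y _ hxy hx hy hs
      refine ⟨?_, ?_, ?_, ?_⟩
      · intro T hT
        rcases Multiset.mem_cons.1 hT with rfl | hT
        · rw [Finset.card_pair hxy]
        · exact hF0two T hT
      · intro T hT
        rcases Multiset.mem_cons.1 hT with rfl | hT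
        · intro t ht
          simp only [Finset.mem_insert, Finset.mem_singleton] at ht
          rcases ht with rfl | rfl
          · exact hx
          · exact hy
        · exact hF0sub T hT
      · rw [Multiset.cons_swap]; exact hs
      · have h1 := h.tight
        simp only [hFe, Multiset.map_cons, Multiset.sum_cons] at h1
        rw [Finset.card_pair hu.symm, Finset.card_pair hv.symm, Finset.card_pair hz.symm] at h1
        simp only [Multiset.map_cons, Multiset.sum_cons]
        rw [Finset.card_pair hxy]
        have hg : g 2 = 1 := rfl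
        omega
    have hmu := hmemU u hu ham
    have hmv := hmemU v hv hbm
    have hmz := hmemU z hz hcm
    by_cases c1 : Sparse ({u, v} ::ₘ R ::ₘ F0)
    · exact ⟨u, v, z, huv, hvz, huz, hu, hv, hz, hnR, hFe, mk u v z huv hmu hmv c1⟩
    by_cases c2 : Sparse ({v, z} ::ₘ R ::ₘ F0)
    · refine ⟨v, z, u, hvz, huz.symm, huv.symm, hv, hz, hu, fun h => hnR ⟨h.2.2, h.1, h.2.1⟩, ?_,
        mk v z u hvz hmv hmz c2⟩
      rw [hFe, Multiset.cons_swap, Multiset.cons_swap ({w, u} : Finset V)]
    by_cases c3 : Sparse ({u, z} ::ₘ R ::ₘ F0)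
    · refine ⟨u, z, v, huz, hvz.symm, huv, hu, hz, hv, fun h => hnR ⟨h.1, h.2.2, h.2.1⟩, ?_,
        mk u z v huz hmu hmz c3⟩
      rw [hFe, Multiset.cons_swap ({w, v} : Finset V)]
    exfalso
    obtain ⟨A, hA, h1, h2⟩ := exists_tight_of_not_sparse hG huv c1
    obtain ⟨B, hB, h3, h4⟩ := exists_tight_of_not_sparse hG hvz c2
    obtain ⟨C, hC, h5, h6⟩ := exists_tight_of_not_sparse hG huz c3
    obtain ⟨T, hT, t1, t2, t3⟩ := exists_tight_three hG huv hvz huz hA hB hC h1 h2 h3 h4 h5 h6
    exact key T hT t1 t2 t3

end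

end Pool.Agent.Helper20_Rig
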