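import Mathlib

/-!
# Sparse families of sets (the combinatorics of planar body-bar frameworks)
-/

set_option autoImplicit false

namespace Pool.Agent.Helper20_Rig

variable {V : Type*} [DecidableEq V]

/-- `g n = max (2 n - 3) 0`. -/
def g (n : ℕ) : ℕ := 2 * n - 3

/-- The number of constraints which the family `F` induces on `U`. -/
def val (F : Multiset (Finset V)) (U : Finset V) : ℕ := (F.map fun S => g (S ∩ U).card).sum

/-- Sparse families. -/
def Sparse (F : Multiset (Finset V)) : Prop := ∀ U : Finset V, 2 ≤ U.card → val F U + 3 ≤ 2 * U.card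

/-- Tight sets. -/
def Tight (F : Multiset (Finset V)) (U : Finset V) : Prop := 2 ≤ U.card ∧ val F U + 3 = 2 * U.card

@[simp] lemma val_zero (U : Finset V) : val (0 : Multiset (Finset V)) U = 0 := rfl

@[simp] lemma val_cons (S : Finset V) (F : Multiset (Finset V)) (U : Finset V) :
    val (S ::ₘ F) U = g (S ∩ U).card + val F U := by
  simp [val]

lemma val_add (F F' : Multiset (Finset V)) (U : Finset V) :
    val (F + F') U = val F U + val F' U := by
  simp [val]

lemma g_mono {a b : ℕ} (h : a ≤ b) : g a ≤ g b := by unfold g; omega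

lemma val_mono (F : Multiset (Finset V)) {U U' : Finset V} (h : U ⊆ U') : val F U ≤ val F U' := by
  induction F using Multiset.induction with
  | empty => simp
  | cons S F ih =>
    simp only [val_cons]
    exact add_le_add (g_mono (Finset.card_le_card (Finset.inter_subset_inter_left h))) ih

lemma val_supermod (F : Multiset (Finset V)) (A B : Finset V) :
    val F A + val F B ≤ val F (A ∪ B) + val F (A ∩ B) := by
  induction F using Multiset.induction with
  | empty => simp
  | cons S F ih =>
    simp only [val_cons]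
    have h1 : (S ∩ A) ∪ (S ∩ B) = S ∩ (A ∪ B) := by
      rw [Finset.inter_union_distrib_left]
    have h2 : (S ∩ A) ∩ (S ∩ B) = S ∩ (A ∩ B) := by
      ext x; simp only [Finset.mem_inter]; tauto
    have h3 := Finset.card_union_add_card_inter (S ∩ A) (S ∩ B)
    rw [h1, h2] at h3
    have h4 : (S ∩ (A ∩ B)).card ≤ (S ∩ A).card :=
      Finset.card_le_card (Finset.inter_subset_inter_left Finset.inter_subset_left)
    have h5 : (S ∩ (A ∩ B)).card ≤ (S ∩ B).card :=
      Finset.card_le_card (Finset.inter_subset_inter_left Finset.inter_subset_right)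
    have h6 : g (S ∩ A).card + g (S ∩ B).card ≤ g (S ∩ (A ∪ B)).card + g (S ∩ (A ∩ B)).card := by
      unfold g; omega
    omega

lemma tight_of_mem {F : Multiset (Finset V)} (hF : Sparse F) {S : Finset V} (hS : S ∈ F)
    (h2 : 2 ≤ S.card) : Tight F S := by
  refine ⟨h2, le_antisymm (hF S h2) ?_⟩
  obtain ⟨F', rfl⟩ := Multiset.exists_cons_of_mem hS
  rw [val_cons, Finset.inter_self]
  unfold g
  omega

lemma Tight.union {F : Multiset (Finset V)} (hF : Sparse F) {A B : Finset V} (hA : Tight F A)
    (hB : Tight F B) (h : 2 ≤ (A ∩ B).card) : Tight F (A ∪ B) := by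
  have h1 := val_supermod F A B
  have h2 := hF (A ∩ B) h
  have h3 : 2 ≤ (A ∪ B).card := hA.1.trans (Finset.card_le_card Finset.subset_union_left)
  have h4 := hF (A ∪ B) h3
  have h5 := Finset.card_union_add_card_inter A B
  refine ⟨h3, ?_⟩
  have := hA.2
  have := hB.2
  omega

lemma Tight.inter {F : Multiset (Finset V)} (hF : Sparse F) {A B : Finset V} (hA : Tight F A)
    (hB : Tight F B) (h : 2 ≤ (A ∩ B).card) : Tight F (A ∩ B) := by
  have h1 := val_supermod F A B
  have h2 := hF (A ∩ B) h
  have h3 : 2 ≤ (A ∪ B).card := hA.1.trans (Finset.card_le_card Finset.subset_union_left)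
  have h4 := hF (A ∪ B) h3
  have h5 := Finset.card_union_add_card_inter A B
  refine ⟨h, ?_⟩
  have := hA.2
  have := hB.2
  omega

/-- Three sets which pairwise meet in at most one vertex. -/
lemma val_three (F : Multiset (Finset V)) (A B C : Finset V) (hAB : (A ∩ B).card ≤ 1)
    (hBC : (B ∩ C).card ≤ 1) (hAC : (A ∩ C).card ≤ 1) :
    val F A + val F B + val F C ≤ val F (A ∪ B ∪ C) := by
  induction F using Multiset.induction with
  | empty => simp
  | cons S F ih =>
    simp only [val_cons]
    have key : g (S ∩ A).card + g (S ∩ B).card + g (S ∩ C).card ≤ g (S ∩ (A ∪ B ∪ C)).card := by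
      have e1 : (S ∩ A) ∪ (S ∩ B) = S ∩ (A ∪ B) := by
        rw [Finset.inter_union_distrib_left]
      have e2 : (S ∩ (A ∪ B)) ∪ (S ∩ C) = S ∩ (A ∪ B ∪ C) := by
        rw [← Finset.inter_union_distrib_left]
      have c1 := Finset.card_union_add_card_inter (S ∩ A) (S ∩ B)
      have c2 := Finset.card_union_add_card_inter (S ∩ (A ∪ B)) (S ∩ C)
      rw [e1] at c1
      rw [e2] at c2
      have i1 : ((S ∩ A) ∩ (S ∩ B)).card ≤ 1 := by
        refine (Finset.card_le_card ?_).trans hAB
        intro x; simp only [Finset.mem_inter]; tauto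
      have i2 : ((S ∩ (A ∪ B)) ∩ (S ∩ C)).card ≤ 2 := by
        have : (S ∩ (A ∪ B)) ∩ (S ∩ C) ⊆ (A ∩ C) ∪ (B ∩ C) := by
          intro x; simp only [Finset.mem_inter, Finset.mem_union]; tauto
        refine (Finset.card_le_card this).trans ((Finset.card_union_le _ _).trans ?_)
        omega
      have i3 : ((S ∩ (A ∪ B)) ∩ (S ∩ C)).card ≤ ((S ∩ A) ∩ (S ∩ C)).card
          + ((S ∩ B) ∩ (S ∩ C)).card := by
        have : (S ∩ (A ∪ B)) ∩ (S ∩ C) = ((S ∩ A) ∩ (S ∩ C)) ∪ ((S ∩ B) ∩ (S ∩ C)) := by
          ext x; simp only [Finset.mem_inter, Finset.mem_union]; tauto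
        rw [this]
        exact Finset.card_union_le _ _
      have i4 : ((S ∩ A) ∩ (S ∩ C)).card ≤ 1 := by
        refine (Finset.card_le_card ?_).trans hAC
        intro x; simp only [Finset.mem_inter]; tauto
      have i5 : ((S ∩ B) ∩ (S ∩ C)).card ≤ 1 := by
        refine (Finset.card_le_card ?_).trans hBC
        intro x; simp only [Finset.mem_inter]; tauto
      have i6 : ((S ∩ A) ∩ (S ∩ C)).card ≤ (S ∩ A).card := Finset.card_le_card
        Finset.inter_subset_left
      have i7 : ((S ∩ B) ∩ (S ∩ C)).card ≤ (S ∩ B).card := Finset.card_le_card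
        Finset.inter_subset_left
      have c3 : (S ∩ A).card ≤ (S ∩ (A ∪ B ∪ C)).card := Finset.card_le_card (by
        intro x; simp only [Finset.mem_inter, Finset.mem_union]; tauto)
      have c4 : (S ∩ B).card ≤ (S ∩ (A ∪ B ∪ C)).card := Finset.card_le_card (by
        intro x; simp only [Finset.mem_inter, Finset.mem_union]; tauto)
      have c5 : (S ∩ C).card ≤ (S ∩ (A ∪ B ∪ C)).card := Finset.card_le_card (by
        intro x; simp only [Finset.mem_inter, Finset.mem_union]; tauto)
      have c6 : ((S ∩ A) ∪ (S ∩ C)).card ≤ (S ∩ (A ∪ B ∪ C)).card := Finset.card_le_card (by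
        intro x; simp only [Finset.mem_inter, Finset.mem_union]; tauto)
      have c7 := Finset.card_union_add_card_inter (S ∩ A) (S ∩ C)
      have c8 : ((S ∩ B) ∪ (S ∩ C)).card ≤ (S ∩ (A ∪ B ∪ C)).card := Finset.card_le_card (by
        intro x; simp only [Finset.mem_inter, Finset.mem_union]; tauto)
      have c9 := Finset.card_union_add_card_inter (S ∩ B) (S ∩ C)
      have c10 : (S ∩ (A ∪ B)).card ≤ (S ∩ (A ∪ B ∪ C)).card := Finset.card_le_card (by
        intro x; simp only [Finset.mem_inter, Finset.mem_union]; tauto)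
      unfold g
      omega
    omega

/-- If each pair of `{u, v, z}` lies in a tight set then some tight set contains all three. -/
lemma exists_tight_three {F : Multiset (Finset V)} (hF : Sparse F) {u v z : V} (huv : u ≠ v)
    (hvz : v ≠ z) (huz : u ≠ z) {A B C : Finset V} (hA : Tight F A) (hB : Tight F B)
    (hC : Tight F C) (huA : u ∈ A) (hvA : v ∈ A) (hvB : v ∈ B) (hzB : z ∈ B) (huC : u ∈ C)
    (hzC : z ∈ C) : ∃ T, Tight F T ∧ u ∈ T ∧ v ∈ T ∧ z ∈ T := by
  by_cases hAB : 2 ≤ (A ∩ B).card
  · exact ⟨A ∪ B, hA.union hF hB hAB, by simp [huA], by simp [hvA], by simp [hzB]⟩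
  by_cases hBC : 2 ≤ (B ∩ C).card
  · exact ⟨B ∪ C, hB.union hF hC hBC, by simp [huC], by simp [hvB], by simp [hzB]⟩
  by_cases hAC : 2 ≤ (A ∩ C).card
  · exact ⟨A ∪ C, hA.union hF hC hAC, by simp [huA], by simp [hvA], by simp [hzC]⟩
  have h3 := val_three F A B C (by omega) (by omega) (by omega)
  have hcard : 2 ≤ (A ∪ B ∪ C).card := hA.1.trans (Finset.card_le_card (by
    intro x; simp only [Finset.mem_union]; tauto))
  refine ⟨A ∪ B ∪ C, ⟨hcard, le_antisymm (hF _ hcard) ?_⟩, by simp [huA], by simp [hvA],
    by simp [hzB]⟩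
  have c1 := Finset.card_union_add_card_inter A B
  have c2 := Finset.card_union_add_card_inter (A ∪ B) C
  have i1 : 1 ≤ (A ∩ B).card := Finset.card_pos.2 ⟨v, by simp [hvA, hvB]⟩
  have i2 : 2 ≤ ((A ∪ B) ∩ C).card := by
    have : ({u, z} : Finset V) ⊆ (A ∪ B) ∩ C := by
      intro x hx
      simp only [Finset.mem_insert, Finset.mem_singleton] at hx
      rcases hx with rfl | rfl
      · simp [huA, huC]
      · simp [hzB, hzC]
    calc 2 = ({u, z} : Finset V).card := (Finset.card_pair huz).symm
      _ ≤ _ := Finset.card_le_card this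
  have := hA.2
  have := hB.2
  have := hC.2
  omega

/-- A pair which cannot be added to a sparse family lies in a tight set. -/
lemma exists_tight_of_not_sparse {F : Multiset (Finset V)} (hF : Sparse F) {x y : V} (hxy : x ≠ y)
    (h : ¬ Sparse ({x, y} ::ₘ F)) : ∃ T, Tight F T ∧ x ∈ T ∧ y ∈ T := by
  unfold Sparse at h
  push Not at h
  obtain ⟨U, hU, hlt⟩ := h
  rw [val_cons] at hlt
  have h1 := hF U hU
  have h2 : (({x, y} : Finset V) ∩ U).card ≤ 2 :=
    (Finset.card_le_card Finset.inter_subset_left).trans (Finset.card_pair hxy).le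
  have h3 : 2 ≤ (({x, y} : Finset V) ∩ U).card := by
    by_contra h4
    have : g (({x, y} : Finset V) ∩ U).card = 0 := by unfold g; omega
    omega
  have h4 : ({x, y} : Finset V) ∩ U = {x, y} :=
    Finset.eq_of_subset_of_card_le Finset.inter_subset_left
      ((Finset.card_pair hxy).le.trans h3)
  have h5 : ({x, y} : Finset V) ⊆ U := Finset.inter_eq_left.1 h4
  have h6 : g (({x, y} : Finset V) ∩ U).card = 1 := by
    rw [h4, Finset.card_pair hxy]; rfl
  refine ⟨U, ⟨hU, by omega⟩, h5 (by simp), h5 (by simp)⟩

/-- Every sparse family with a tight set can be completed by pairs. -/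
lemma exists_extension [Fintype V] {F : Multiset (Finset V)} (hF : Sparse F) {T0 : Finset V}
    (hT0 : Tight F T0) : ∃ F' : Multiset (Finset V),
      (∀ S ∈ F', S.card = 2) ∧ Sparse (F' + F) ∧ Tight (F' + F) Finset.univ := by
  classical
  induction hn : (2 * Fintype.card V - val F Finset.univ) using Nat.strong_induction_on
    generalizing F T0 with
  | _ n ih =>
    have hV2 : 2 ≤ (Finset.univ : Finset V).card := hT0.1.trans (Finset.card_le_card (by simp))
    by_cases hall : ∀ x y : V, x ≠ y → ∃ T, Tight F T ∧ x ∈ T ∧ y ∈ T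
    · refine ⟨0, by simp, by simpa using hF, ?_⟩
      rw [zero_add]
      -- a maximal tight set is everything
      obtain ⟨T, hT, hTmax⟩ := Finset.exists_max_image
        (Finset.univ.filter fun T : Finset V => Tight F T) Finset.card ⟨T0, by simp [hT0]⟩
      rw [Finset.mem_filter] at hT
      have hTu : T = Finset.univ := by
        by_contra hne
        obtain ⟨x, hx⟩ : ∃ x, x ∉ T := by
          by_contra hc
          push Not at hc
          exact hne (Finset.eq_univ_iff_forall.2 hc)
        obtain ⟨a, b, ha, hb, hab⟩ : ∃ a b, a ∈ T ∧ b ∈ T ∧ a ≠ b := by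
          obtain ⟨a, ha, b, hb, hab⟩ := Finset.one_lt_card.1 hT.2.1
          exact ⟨a, b, ha, hb, hab⟩
        have hxa : x ≠ a := fun h => hx (h ▸ ha)
        have hxb : x ≠ b := fun h => hx (h ▸ hb)
        obtain ⟨A, hA, hxA, haA⟩ := hall x a hxa
        obtain ⟨C, hC, hxC, hbC⟩ := hall x b hxb
        obtain ⟨T', hT', hxT', haT', hbT'⟩ :=
          exists_tight_three hF hxa hab hxb hA hT.2 hC hxA haA ha hb hxC hbC
        have h2 : 2 ≤ (T ∩ T').card := by
          have : ({a, b} : Finset V) ⊆ T ∩ T' := by
            intro y hy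
            simp only [Finset.mem_insert, Finset.mem_singleton] at hy
            rcases hy with rfl | rfl
            · simp [ha, haT']
            · simp [hb, hbT']
          calc 2 = ({a, b} : Finset V).card := (Finset.card_pair hab).symm
            _ ≤ _ := Finset.card_le_card this
        have hU := hT.2.union hF hT' h2
        have hle := hTmax (T ∪ T') (by simp [hU])
        have hlt : T.card < (T ∪ T').card := by
          apply Finset.card_lt_card
          rw [Finset.ssubset_iff_of_subset Finset.subset_union_left]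
          exact ⟨x, by simp [hxT'], hx⟩
        omega
      rw [← hTu]
      exact hT.2
    · push Not at hall
      obtain ⟨x, y, hxy, hno⟩ := hall
      have hsp : Sparse ({x, y} ::ₘ F) := by
        by_contra hc
        obtain ⟨T, hT, h1, h2⟩ := exists_tight_of_not_sparse hF hxy hc
        exact hno T hT h1 h2
      have hval : val ({x, y} ::ₘ F) Finset.univ = 1 + val F Finset.univ := by
        rw [val_cons, Finset.inter_univ, Finset.card_pair hxy]; rfl
      have hb := hsp Finset.univ hV2
      have hcu : (Finset.univ : Finset V).card = Fintype.card V := Finset.card_univ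
      obtain ⟨F', h1, h2, h3⟩ := ih (2 * Fintype.card V - val ({x, y} ::ₘ F) Finset.univ)
        (by omega) hsp (tight_of_mem hsp (Multiset.mem_cons_self _ _) (Finset.card_pair hxy).ge) rfl
      refine ⟨{x, y} ::ₘ F', ?_, ?_, ?_⟩
      · intro S hS
        rcases Multiset.mem_cons.1 hS with rfl | hS
        · exact Finset.card_pair hxy
        · exact h1 S hS
      · rw [Multiset.cons_add, ← Multiset.add_cons]
        exact h2
      · rw [Multiset.cons_add, ← Multiset.add_cons]
        exact h3

end Pool.Agent.Helper20_Rig
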