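import Pool.Agent.Helper20_Rig.Local

/-!
# The structure of the edges outside a redundantly rigid component
-/

set_option autoImplicit false
set_option linter.unusedSectionVars false

open Complex Filter Topology MvPolynomial

namespace Pool.Agent.Helper20_Rig

variable {V : Type*} [DecidableEq V] [Fintype V]

lemma toC_inj {x : V × Fin 2 → ℝ} (hx : AlgebraicIndependent ℚ x) {a b : V} (hab : a ≠ b) :
    toC x a ≠ toC x b := by
  intro h
  have h1 : x (a, 0) = x (b, 0) := congrArg Complex.re h
  have h2 := hx.injective h1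
  exact hab (congrArg Prod.fst h2)

lemma bodyInf_union {q δ : V → ℂ} {A B : Finset V} {a b : V} (haA : a ∈ A) (haB : a ∈ B)
    (hbA : b ∈ A) (hbB : b ∈ B) (hne : q a ≠ q b) (hA : BodyInf q δ A) (hB : BodyInf q δ B) :
    BodyInf q δ (A ∪ B) := by
  obtain ⟨ω, hω⟩ := hA
  obtain ⟨ω', hω'⟩ := hB
  have h1 := hω a haA b hbA
  rw [hω' a haB b hbB] at h1
  have h2 : ((ω' : ℂ) - ω) * (I * (q a - q b)) = 0 := by linear_combination h1
  have h3 : ω' = ω := by
    rcases mul_eq_zero.1 h2 with h | h
    · exact_mod_cast sub_eq_zero.1 h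
    · exact absurd h (mul_ne_zero I_ne_zero (sub_ne_zero.2 hne))
  subst h3
  have key : ∀ x ∈ A ∪ B, δ x - δ a = (ω' * I) * (q x - q a) := by
    intro x hx
    rcases Finset.mem_union.1 hx with h | h
    · exact hω x h a haA
    · exact hω' x h a haB
  refine ⟨ω', fun x hx y hy => ?_⟩
  linear_combination key x hx - key y hy

/-- `S` spans a redundantly rigid induced subgraph of `G`. -/
def RR (G : SimpleGraph V) (S : Finset V) : Prop :=
  ∀ f : Sym2 V, ∀ x : V × Fin 2 → ℝ, AlgebraicIndependent ℚ x → ∀ δ : V → ℂ,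
    (∀ u ∈ S, ∀ v ∈ S, G.Adj u v → s(u, v) ≠ f → BodyInf (toC x) δ {u, v}) →
      BodyInf (toC x) δ S

lemma RR.union {G : SimpleGraph V} {A B : Finset V} (hA : RR G A) (hB : RR G B)
    (h2 : 2 ≤ (A ∩ B).card) : RR G (A ∪ B) := by
  intro f x hx δ hδ
  obtain ⟨a, ha, b, hb, hab⟩ := Finset.one_lt_card.1 h2
  rw [Finset.mem_inter] at ha hb
  exact bodyInf_union ha.1 ha.2 hb.1 hb.2 (toC_inj hx hab)
    (hA f x hx δ fun u hu v hv => hδ u (Finset.mem_union_left _ hu) v (Finset.mem_union_left _ hv))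
    (hB f x hx δ fun u hu v hv => hδ u (Finset.mem_union_right _ hu) v
      (Finset.mem_union_right _ hv))

/-- Admissible families. -/
def Adm (G : SimpleGraph V) (R : Finset V) (F : Multiset (Finset V)) : Prop :=
  Sparse (R ::ₘ F) ∧ ∀ S ∈ F, 2 ≤ S.card ∧ ((∃ u v, G.Adj u v ∧ S = {u, v}) ∨ RR G S)

lemma Sparse.filter {H : Multiset (Finset V)} (h : Sparse H) (P : Finset V → Prop)
    [DecidablePred P] : Sparse (H.filter P) := by
  intro U hU
  have h1 := h U hU
  have h2 : val H U = val (H.filter P) U + val (H.filter fun S => ¬ P S) U := by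
    rw [← val_add, Multiset.filter_add_not]
  omega

lemma tight_filter {H : Multiset (Finset V)} {U : Finset V} (h : Tight H U)
    (P : Finset V → Prop) [DecidablePred P] (hP : ∀ S ∈ H, ¬ P S → (S ∩ U).card ≤ 1) :
    Tight (H.filter P) U := by
  have h2 : val H U = val (H.filter P) U + val (H.filter fun S => ¬ P S) U := by
    rw [← val_add, Multiset.filter_add_not]
  have h3 : val (H.filter fun S => ¬ P S) U = 0 := by
    unfold val
    apply Multiset.sum_eq_zero
    intro n hn
    obtain ⟨S, hS, rfl⟩ := Multiset.mem_map.1 hn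
    rw [Multiset.mem_filter] at hS
    have := hP S hS.1 hS.2
    unfold g
    omega
  exact ⟨h.1, by have := h.2; omega⟩

lemma tight_of_filter {H : Multiset (Finset V)} (hH : Sparse H) {U : Finset V}
    (P : Finset V → Prop) [DecidablePred P] (h : Tight (H.filter P) U) : Tight H U := by
  have h2 : val H U = val (H.filter P) U + val (H.filter fun S => ¬ P S) U := by
    rw [← val_add, Multiset.filter_add_not]
  have h3 := hH U h.1
  exact ⟨h.1, by have := h.2; omega⟩

lemma tight_biUnion {H : Multiset (Finset V)} (hH : Sparse H) (htwo : ∀ S ∈ H, 2 ≤ S.card)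
    {U : Finset V} (hU : Tight H U) (hmeet : ∀ S ∈ H, 2 ≤ (S ∩ U).card) (t : Finset (Finset V))
    (ht : ∀ S ∈ t, S ∈ H) : Tight H (U ∪ t.biUnion id) := by
  induction t using Finset.induction_on with
  | empty => simpa using hU
  | insert S t _ ih =>
    have h1 := ih (fun S hS => ht S (Finset.mem_insert_of_mem hS))
    have hSH := ht S (Finset.mem_insert_self _ _)
    have h2 := h1.union hH (tight_of_mem hH hSH (htwo S hSH)) (by
      refine (hmeet S hSH).trans (Finset.card_le_card ?_)
      intro x hx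
      rw [Finset.mem_inter] at hx ⊢
      exact ⟨Finset.mem_union_left _ hx.2, hx.1⟩)
    rw [Finset.biUnion_insert, id]
    have : U ∪ t.biUnion id ∪ S = U ∪ (S ∪ t.biUnion id) := by
      ext x; simp only [Finset.mem_union]; tauto
    rwa [this] at h2

/-- If an uncovered edge is blocked, then a minimal tight set around it generates a redundantly
rigid set. -/
lemma exists_RR {G : SimpleGraph V} {H : Multiset (Finset V)} (hH : Sparse H)
    (hmem : ∀ S ∈ H, 2 ≤ S.card ∧ ((∃ u v, G.Adj u v ∧ S = {u, v}) ∨ RR G S)) {x y : V}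
    (hadj : G.Adj x y) (huncov : ∀ S ∈ H, ¬ (x ∈ S ∧ y ∈ S)) (hblock : ∃ T, Tight H T ∧ x ∈ T ∧ y ∈ T) :
    ∃ Y, Tight H Y ∧ x ∈ Y ∧ y ∈ Y ∧ RR G Y := by
  classical
  have hxy : x ≠ y := hadj.ne
  -- a minimal tight set
  obtain ⟨U, hU, hUmin⟩ := Finset.exists_min_image
    (Finset.univ.filter fun T : Finset V => Tight H T ∧ x ∈ T ∧ y ∈ T) Finset.card (by
      obtain ⟨T, hT⟩ := hblock
      exact ⟨T, by simp [hT]⟩)
  rw [Finset.mem_filter] at hU
  obtain ⟨_, hUt, hxU, hyU⟩ := hU
  set H' := H.filter (fun S => 2 ≤ (S ∩ U).card) with hH'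
  have hH's : Sparse H' := hH.filter _
  have hH't : Tight H' U := tight_filter hUt _ (fun S _ h => by omega)
  have hH'mem : ∀ S ∈ H', S ∈ H := fun S hS => (Multiset.mem_filter.1 hS).1
  have hH'2 : ∀ S ∈ H', 2 ≤ (S ∩ U).card := fun S hS => (Multiset.mem_filter.1 hS).2
  set Y := U ∪ H'.toFinset.biUnion id with hY
  have hYt : Tight H' Y := tight_biUnion hH's (fun S hS => (hmem S (hH'mem S hS)).1) hH't hH'2 _
    (fun S hS => Multiset.mem_toFinset.1 hS)
  have hYsub : ∀ S ∈ H', S ⊆ Y := by
    intro S hS z hz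
    rw [hY]
    exact Finset.mem_union_right _ (Finset.mem_biUnion.2 ⟨S, Multiset.mem_toFinset.2 hS, hz⟩)
  refine ⟨Y, tight_of_filter hH _ hYt, Finset.mem_union_left _ hxU, Finset.mem_union_left _ hyU,
    ?_⟩
  intro f p hp δ hδ
  -- satisfied members
  have hsat : ∀ S ∈ H', (∀ u v, S = {u, v} → s(u, v) ≠ f) → BodyInf (toC p) δ S := by
    intro S hS hSf
    rcases (hmem S (hH'mem S hS)).2 with ⟨u, v, huv, rfl⟩ | hRR
    · exact hδ u (hYsub _ hS (by simp)) v (hYsub _ hS (by simp)) huv (hSf u v rfl)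
    · exact hRR f p hp δ (fun u hu v hv => hδ u (hYsub S hS hu) v (hYsub S hS hv))
  by_cases hf : ∃ u v, s(u, v) = f ∧ ({u, v} : Finset V) ∈ H'
  · obtain ⟨u, v, rfl, huvH'⟩ := hf
    have huv : u ≠ v := by
      rintro rfl
      have := (hmem _ (hH'mem _ huvH')).1
      simp at this
    obtain ⟨H0, hH0⟩ := Multiset.exists_cons_of_mem huvH'
    have hcard2 : ({u, v} : Finset V).card = 2 := Finset.card_pair huv
    have hg2 : g 2 = 1 := rfl
    -- the other members differ from `{u, v}`
    have hH0ne : ∀ S ∈ H0, S ≠ {u, v} := by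
      rintro S hS rfl
      obtain ⟨H00, rfl⟩ := Multiset.exists_cons_of_mem hS
      have h1 := hH's {u, v} hcard2.ge
      rw [hH0] at h1
      simp only [val_cons, Finset.inter_self, hcard2, hg2] at h1
      omega
    have hH0mem : ∀ S ∈ H0, S ∈ H' := fun S hS => by rw [hH0]; exact Multiset.mem_cons_of_mem hS
    have huvU : ({u, v} : Finset V) ⊆ U := by
      have h1 := hH'2 _ huvH'
      rw [← hcard2] at h1
      exact Finset.inter_eq_left.1 (Finset.eq_of_subset_of_card_le Finset.inter_subset_left h1)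
    have hvalH' : ∀ U', val H' U' = g (({u, v} : Finset V) ∩ U').card + val H0 U' := by
      intro U'
      rw [hH0, val_cons]
    have hnewsparse : Sparse ({x, y} ::ₘ H0) := by
      intro U' hU'
      rw [val_cons]
      have h1 := hH's U' hU'
      have h2 := hvalH' U'
      by_cases hsub : ({x, y} : Finset V) ⊆ U'
      · rw [Finset.inter_eq_left.2 hsub, Finset.card_pair hxy, hg2]
        by_cases hS : ({u, v} : Finset V) ⊆ U'
        · rw [Finset.inter_eq_left.2 hS, hcard2, hg2] at h2
          omega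
        · by_contra hcon
          have ht : Tight H' U' := ⟨hU', by omega⟩
          have h3 : 2 ≤ (U' ∩ U).card := by
            rw [← Finset.card_pair hxy]
            apply Finset.card_le_card
            intro z hz
            rw [Finset.mem_inter]
            refine ⟨hsub hz, ?_⟩
            simp only [Finset.mem_insert, Finset.mem_singleton] at hz
            rcases hz with rfl | rfl
            · exact hxU
            · exact hyU
          have h4 := tight_of_filter hH _ (ht.inter hH's hH't h3)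
          have h5 := hUmin (U' ∩ U) (by
            rw [Finset.mem_filter]
            exact ⟨Finset.mem_univ _, h4, Finset.mem_inter.2 ⟨hsub (by simp), hxU⟩,
              Finset.mem_inter.2 ⟨hsub (by simp), hyU⟩⟩)
          have h6 : U' ∩ U = U := Finset.eq_of_subset_of_card_le Finset.inter_subset_right h5
          exact hS (huvU.trans (Finset.inter_eq_right.1 h6))
      · have h3 : (({x, y} : Finset V) ∩ U').card ≤ 1 := by
          by_contra hcon
          apply hsub
          rw [← Finset.inter_eq_left]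
          exact Finset.eq_of_subset_of_card_le Finset.inter_subset_left
            (by rw [Finset.card_pair hxy]; omega)
        have h4 : g (({x, y} : Finset V) ∩ U').card = 0 := by unfold g; omega
        omega
    have hxyY : ({x, y} : Finset V) ⊆ Y := by
      intro z hz
      simp only [Finset.mem_insert, Finset.mem_singleton] at hz
      rcases hz with rfl | rfl
      · exact Finset.mem_union_left _ hxU
      · exact Finset.mem_union_left _ hyU
    have hnewtight : Tight ({x, y} ::ₘ H0) Y := by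
      refine ⟨hYt.1, ?_⟩
      have h1 := hYt.2
      rw [hvalH', Finset.inter_eq_left.2 (hYsub _ huvH'), hcard2, hg2] at h1
      rw [val_cons, Finset.inter_eq_left.2 hxyY, Finset.card_pair hxy, hg2]
      exact h1
    apply generic_body (G := {x, y} ::ₘ H0) _ _ hnewsparse hnewtight hp
    · intro S hS
      rcases Multiset.mem_cons.1 hS with rfl | hS
      · apply hδ x (hxyY (by simp)) y (hxyY (by simp)) hadj
        intro h
        apply huncov _ (hH'mem _ huvH')
        rw [Sym2.eq_iff] at h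
        rcases h with ⟨rfl, rfl⟩ | ⟨rfl, rfl⟩ <;> simp
      · apply hsat S (hH0mem S hS)
        rintro a b rfl h
        apply hH0ne _ hS
        rw [Sym2.eq_iff] at h
        rcases h with ⟨rfl, rfl⟩ | ⟨rfl, rfl⟩
        · rfl
        · exact Finset.pair_comm _ _
    · intro S hS
      rcases Multiset.mem_cons.1 hS with rfl | hS
      · exact (Finset.card_pair hxy).ge
      · exact (hmem S (hH'mem S (hH0mem S hS))).1
    · intro S hS
      rcases Multiset.mem_cons.1 hS with rfl | hS
      · exact hxyY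
      · exact hYsub S (hH0mem S hS)
  · push Not at hf
    apply generic_body (fun S hS => (hmem S (hH'mem S hS)).1) hYsub hH's hYt hp
    intro S hS
    apply hsat S hS
    rintro u v rfl h
    exact hf u v h hS

/-- The number of covered (ordered) edges can be increased. -/
lemma improve {G : SimpleGraph V} {R : Finset V} (hR2 : 2 ≤ R.card) (hRR : RR G R)
    (hmax : ∀ S, R ⊆ S → RR G S → S = R) {F : Multiset (Finset V)} (hF : Adm G R F) {x y : V}
    (hadj : G.Adj x y) (huncov : ∀ S ∈ R ::ₘ F, ¬ (x ∈ S ∧ y ∈ S)) :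
    ∃ F1, Adm G R F1 ∧ (∃ S ∈ R ::ₘ F1, x ∈ S ∧ y ∈ S) ∧
      ∀ u v, (∃ S ∈ R ::ₘ F, u ∈ S ∧ v ∈ S) → ∃ S ∈ R ::ₘ F1, u ∈ S ∧ v ∈ S := by
  classical
  have hxy : x ≠ y := hadj.ne
  by_cases hsp : Sparse ({x, y} ::ₘ R ::ₘ F)
  · refine ⟨{x, y} ::ₘ F, ⟨?_, ?_⟩, ⟨{x, y}, by simp, by simp, by simp⟩, ?_⟩
    · rw [Multiset.cons_swap]; exact hsp
    · intro S hS
      rcases Multiset.mem_cons.1 hS with rfl | hS
      · exact ⟨(Finset.card_pair hxy).ge, Or.inl ⟨x, y, hadj, rfl⟩⟩
      · exact hF.2 S hS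
    · rintro u v ⟨S, hS, h1, h2⟩
      refine ⟨S, ?_, h1, h2⟩
      rw [Multiset.cons_swap]
      exact Multiset.mem_cons_of_mem hS
  set H := R ::ₘ F with hHdef
  have hHs : Sparse H := hF.1
  have hHmem : ∀ S ∈ H, 2 ≤ S.card ∧ ((∃ u v, G.Adj u v ∧ S = {u, v}) ∨ RR G S) := by
    intro S hS
    rcases Multiset.mem_cons.1 hS with rfl | hS
    · exact ⟨hR2, Or.inr hRR⟩
    · exact hF.2 S hS
  obtain ⟨Y0, hY0t, hxY0, hyY0, hY0R⟩ := exists_RR hHs hHmem hadj huncov
    (exists_tight_of_not_sparse hHs hxy hsp)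
  obtain ⟨Y, hY, hYmax⟩ := Finset.exists_max_image
    (Finset.univ.filter fun T : Finset V => Tight H T ∧ RR G T ∧ x ∈ T ∧ y ∈ T) Finset.card
    ⟨Y0, by simp [hY0t, hxY0, hyY0, hY0R]⟩
  rw [Finset.mem_filter] at hY
  obtain ⟨_, hYt, hYR, hxY, hyY⟩ := hY
  have hclosed : ∀ S ∈ H, 2 ≤ (S ∩ Y).card → S ⊆ Y := by
    intro S hS h2
    rcases (hHmem S hS).2 with ⟨u, v, huv, rfl⟩ | hSR
    · have hc : ({u, v} : Finset V).card = 2 := Finset.card_pair huv.ne
      exact Finset.inter_eq_left.1 (Finset.eq_of_subset_of_card_le Finset.inter_subset_left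
        (by rw [hc]; exact h2))
    · have h3 : 2 ≤ (Y ∩ S).card := by rwa [Finset.inter_comm]
      have h4 := hYt.union hHs (tight_of_mem hHs hS (hHmem S hS).1) h3
      have h5 := hYmax (Y ∪ S) (by
        rw [Finset.mem_filter]
        exact ⟨Finset.mem_univ _, h4, hYR.union hSR h3, Finset.mem_union_left _ hxY,
          Finset.mem_union_left _ hyY⟩)
      have h6 : Y = Y ∪ S := Finset.eq_of_subset_of_card_le Finset.subset_union_left h5
      rw [h6]
      exact Finset.subset_union_right
  have hRY : ¬ R ⊆ Y := by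
    intro h
    have := hmax Y h hYR
    subst this
    exact huncov Y (Multiset.mem_cons_self _ _) ⟨hxY, hyY⟩
  have hout : ∀ S ∈ H, ¬ S ⊆ Y → (S ∩ Y).card ≤ 1 := by
    intro S hS h
    by_contra hcon
    exact h (hclosed S hS (by omega))
  set Ho := H.filter (fun S => ¬ S ⊆ Y) with hHo
  set Hi := H.filter (fun S => S ⊆ Y) with hHi
  have hsplit : ∀ U, val H U = val Hi U + val Ho U := by
    intro U
    rw [← val_add, hHi, hHo, Multiset.filter_add_not]
  have hHoR : Ho = R ::ₘ F.filter (fun S => ¬ S ⊆ Y) := by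
    rw [hHo, hHdef]
    exact Multiset.filter_cons_of_pos (p := fun S => ¬ S ⊆ Y) F hRY
  have hHoY : val Ho Y = 0 := by
    unfold val
    apply Multiset.sum_eq_zero
    intro n hn
    obtain ⟨S, hS, rfl⟩ := Multiset.mem_map.1 hn
    rw [hHo, Multiset.mem_filter] at hS
    have := hout S hS.1 hS.2
    unfold g
    omega
  have hnew : Sparse (Y ::ₘ Ho) := by
    intro U hU
    rw [val_cons]
    rcases Nat.lt_or_ge (Y ∩ U).card 2 with h1 | h1
    · have h2 : g (Y ∩ U).card = 0 := by unfold g; omega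
      have h3 := hHs U hU
      have h4 := hsplit U
      omega
    · have h2 : 2 ≤ (U ∪ Y).card := hU.trans (Finset.card_le_card Finset.subset_union_left)
      have h3 := hHs (U ∪ Y) h2
      have h4 := hsplit (U ∪ Y)
      have h5 : val Ho U ≤ val Ho (U ∪ Y) := val_mono _ Finset.subset_union_left
      have h6 : val Hi Y ≤ val Hi (U ∪ Y) := val_mono _ Finset.subset_union_right
      have h7 := hsplit Y
      have h8 := hYt.2
      have h9 := Finset.card_union_add_card_inter U Y
      rw [Finset.inter_comm] at h9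
      unfold g
      omega
  refine ⟨Y ::ₘ F.filter (fun S => ¬ S ⊆ Y), ⟨?_, ?_⟩, ⟨Y, by simp, hxY, hyY⟩, ?_⟩
  · rw [Multiset.cons_swap, ← hHoR]
    exact hnew
  · intro S hS
    rcases Multiset.mem_cons.1 hS with rfl | hS
    · exact ⟨hYt.1, Or.inr hYR⟩
    · exact hF.2 S (Multiset.mem_filter.1 hS).1
  · rintro u v ⟨S, hS, h1, h2⟩
    by_cases hSY : S ⊆ Y
    · exact ⟨Y, by simp, hSY h1, hSY h2⟩
    · refine ⟨S, ?_, h1, h2⟩
      rw [Multiset.cons_swap, ← hHoR]
      exact Multiset.mem_cons_of_mem (Multiset.mem_filter.2 ⟨hS, hSY⟩)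

/-- There is a sparse family containing `R` which covers all edges. -/
theorem exists_family {G : SimpleGraph V} {R : Finset V} (hR2 : 2 ≤ R.card) (hRR : RR G R)
    (hmax : ∀ S, R ⊆ S → RR G S → S = R) :
    ∃ F : Multiset (Finset V), Sparse (R ::ₘ F) ∧ (∀ S ∈ F, 2 ≤ S.card) ∧
      ∀ u v, G.Adj u v → ∃ S ∈ R ::ₘ F, u ∈ S ∧ v ∈ S := by
  classical
  let cov : Multiset (Finset V) → Finset (V × V) := fun F =>
    Finset.univ.filter fun e => G.Adj e.1 e.2 ∧ ∃ S ∈ R ::ₘ F, e.1 ∈ S ∧ e.2 ∈ S
  have key : ∀ (n : ℕ) (F : Multiset (Finset V)), Adm G R F →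
      Fintype.card (V × V) - (cov F).card = n → ∃ F : Multiset (Finset V), Sparse (R ::ₘ F) ∧
        (∀ S ∈ F, 2 ≤ S.card) ∧ ∀ u v, G.Adj u v → ∃ S ∈ R ::ₘ F, u ∈ S ∧ v ∈ S := by
    intro n
    induction n using Nat.strong_induction_on with
    | _ n ih =>
      intro F hF hn
      by_cases hall : ∀ u v, G.Adj u v → ∃ S ∈ R ::ₘ F, u ∈ S ∧ v ∈ S
      · exact ⟨F, hF.1, fun S hS => (hF.2 S hS).1, hall⟩
      · push Not at hall
        obtain ⟨x, y, hadj, hno⟩ := hall
        obtain ⟨F1, hF1, hcovxy, hcov⟩ := improve hR2 hRR hmax hF hadj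
          (fun S hS h => hno S hS h.1 h.2)
        have hlt : (cov F).card < (cov F1).card := by
          apply Finset.card_lt_card
          rw [Finset.ssubset_iff_of_subset]
          · refine ⟨(x, y), ?_, ?_⟩
            · rw [Finset.mem_filter]
              exact ⟨Finset.mem_univ _, hadj, hcovxy⟩
            · rw [Finset.mem_filter]
              rintro ⟨_, _, S, hS, h1, h2⟩
              exact hno S hS h1 h2
          · intro e he
            rw [Finset.mem_filter] at he ⊢
            exact ⟨Finset.mem_univ _, he.2.1, hcov _ _ he.2.2⟩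
        have hle : (cov F1).card ≤ Fintype.card (V × V) := Finset.card_le_univ _
        exact ih _ (by omega) F1 hF1 rfl
  apply key _ 0 _ rfl
  refine ⟨?_, by simp⟩
  intro U hU
  rw [val_cons, val_zero]
  have := Finset.card_le_card (Finset.inter_subset_right (s₁ := R) (s₂ := U))
  unfold g
  omega

end Pool.Agent.Helper20_Rig
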